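import Pool.Agent.Helper75.SH.K5
import Pool.Agent.Helper49.SH.Xd
import Pool.Agent.Helper44.LT.N4
import Pool.Agent.Helper4.LT.N0

/-!
Block X of project ALLQ (MP_274814_nt): the field of the `q`-th roots of unity, its embeddings and
the coordinates with respect to `1, ζ, ζ^2, ...`.
-/

set_option autoImplicit false

open Module NumberField Matrix

namespace Pool.Agent.Helper75.SH

open Pool.Agent.Helper94.SH Pool.Agent.Helper34.LT Pool.Agent.Helper34.LU Pool.Agent.Helper49.SH LTG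

noncomputable section

section cyc

variable (q : ℕ) [NeZero q]

/-- the field -/
abbrev Kq : Type := CyclotomicField q ℚ

instance instCyc : IsCyclotomicExtension {q} ℚ (Kq q) :=
  CyclotomicField.isCyclotomicExtension q ℚ

/-- the root of unity -/
def zq : Kq q := IsCyclotomicExtension.zeta q ℚ (Kq q)

theorem zq_prim : IsPrimitiveRoot (zq q) q := IsCyclotomicExtension.zeta_spec q ℚ (Kq q)

theorem irr : Irreducible (Polynomial.cyclotomic q ℚ) :=
  Polynomial.cyclotomic.irreducible_rat (NeZero.pos q)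

/-- the basis of the powers -/
theorem exists_pb : ∃ b : Basis (Iq q) ℚ (Kq q), ∀ i, b i = zq q ^ (i : ℕ) := by
  have hd : ((zq_prim q).powerBasis ℚ).dim = q.totient := by
    rw [← ((zq_prim q).powerBasis ℚ).finrank]
    exact IsCyclotomicExtension.finrank (Kq q) (irr q)
  refine ⟨((zq_prim q).powerBasis ℚ).basis.reindex (finCongr hd), fun i => ?_⟩
  rw [Basis.reindex_apply, PowerBasis.coe_basis, IsPrimitiveRoot.powerBasis_gen]
  rfl

/-- homomorphisms agree if they agree at the root of unity -/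
theorem ext_zq {F : Type*} [Field F] [CharZero F] (φ ψ : Kq q →+* F) (h : φ (zq q) = ψ (zq q)) :
    φ = ψ := by
  obtain ⟨b, hb⟩ := exists_pb q
  ext x
  rw [← b.sum_repr x, map_sum, map_sum]
  refine Finset.sum_congr rfl fun i _ => ?_
  rw [hb, Algebra.smul_def, map_mul, map_mul, map_pow, map_pow, h]
  simp

/-- existence of homomorphisms -/
theorem exists_hom {F : Type*} [Field F] [CharZero F] {y : F} (hy : IsPrimitiveRoot y q) :
    ∃ φ : Kq q →+* F, φ (zq q) = y := by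
  have hm : y ∈ primitiveRoots q F := (mem_primitiveRoots (NeZero.pos q)).2 hy
  refine ⟨((zq_prim q).embeddingsEquivPrimitiveRoots F (irr q)).symm ⟨y, hm⟩, ?_⟩
  have h := ((zq_prim q).embeddingsEquivPrimitiveRoots F (irr q)).apply_symm_apply ⟨y, hm⟩
  have h2 := congrArg Subtype.val h
  rw [IsPrimitiveRoot.embeddingsEquivPrimitiveRoots_apply_coe] at h2
  exact h2

theorem exists_cjq : ∃ c : Kq q →+* Kq q, c (zq q) = (zq q)⁻¹ :=
  exists_hom q (zq_prim q).inv

/-- the complex conjugation of the field -/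
def cjq : Kq q →+* Kq q := (exists_cjq q).choose

theorem cjq_zq : cjq q (zq q) = (zq q)⁻¹ := (exists_cjq q).choose_spec

theorem cjq_cjq (x : Kq q) : cjq q (cjq q x) = x := by
  have h : (cjq q).comp (cjq q) = RingHom.id (Kq q) := by
    apply ext_zq
    simp [cjq_zq]
  exact congrArg (fun φ : Kq q →+* Kq q => φ x) h

theorem norm_zeta (φ : Kq q →+* ℂ) : ‖φ (zq q)‖ = 1 :=
  ((zq_prim q).map_of_injective φ.injective).norm'_eq_one (NeZero.ne q)

theorem hom_cjq (φ : Kq q →+* ℂ) (x : Kq q) : φ (cjq q x) = cc (φ x) := by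
  have h : φ.comp (cjq q) = cc.comp φ := by
    apply ext_zq
    rw [RingHom.comp_apply, cjq_zq, map_inv₀, RingHom.comp_apply]
    have h1 := norm_zeta q φ
    exact Complex.inv_eq_conj h1
  exact congrArg (fun φ : Kq q →+* ℂ => φ x) h

theorem exists_ph {u : ℕ} (hu : Nat.Coprime u q) : ∃ φ : Kq q →+* ℂ, φ (zq q) = zt q ^ u :=
  exists_hom q ((Pool.Agent.Helper44.LT.zt_prim q (NeZero.ne q)).pow_of_coprime u hu)

open Classical in
/-- the embedding number `u` -/
def ph (u : ℕ) : Kq q →+* ℂ :=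
  if h : Nat.Coprime u q then (exists_ph q h).choose
  else (exists_ph q (Nat.coprime_one_left q)).choose

theorem ph_zq {u : ℕ} (hu : Nat.Coprime u q) : ph q u (zq q) = zt q ^ u := by
  unfold ph
  rw [dif_pos hu]
  exact (exists_ph q hu).choose_spec

/-- every embedding has a number -/
theorem exists_num (h1 : 3 ≤ q) (φ : Kq q →+* ℂ) : ∃ u ∈ UU q, φ = ph q u := by
  have hz := Pool.Agent.Helper44.LT.zt_prim q (NeZero.ne q)
  have hp : IsPrimitiveRoot (φ (zq q)) q := (zq_prim q).map_of_injective φ.injective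
  obtain ⟨u, hu, hc, h⟩ := (hz.isPrimitiveRoot_iff).1 hp
  have hu1 : 1 ≤ u := by
    rcases Nat.eq_zero_or_pos u with h0 | h0
    · subst h0
      rw [Nat.coprime_zero_left] at hc
      omega
    · exact h0
  refine ⟨u, mem_UU.2 ⟨⟨hu1, by omega⟩, hc⟩, ?_⟩
  apply ext_zq
  rw [ph_zq q hc, h]

theorem zt_conj {u : ℕ} (hu : u ≤ q) : cc (zt q ^ u) = zt q ^ (q - u) := by
  have h1 := (Pool.Agent.Helper44.LT.zt_prim q (NeZero.ne q)).pow_eq_one
  have h2 : zt q ^ u * zt q ^ (q - u) = 1 := by rw [← pow_add, Nat.add_sub_cancel' hu, h1]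
  have h3 : ‖zt q ^ u‖ = 1 := by
    rw [norm_pow, (Pool.Agent.Helper44.LT.zt_prim q (NeZero.ne q)).norm'_eq_one (NeZero.ne q),
      one_pow]
  rw [← Complex.inv_eq_conj h3]
  exact inv_eq_of_mul_eq_one_right h2

theorem ph_sub {u : ℕ} (hu : u ∈ UU q) : ph q (q - u) = cc.comp (ph q u) := by
  obtain ⟨⟨h1, h2⟩, hc⟩ := mem_UU.1 hu
  have hc' : Nat.Coprime (q - u) q := (Nat.coprime_self_sub_left (by omega)).2 hc
  apply ext_zq
  rw [ph_zq q hc', RingHom.comp_apply, ph_zq q hc, zt_conj q (by omega)]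

theorem ph_inj (h3 : 3 ≤ q) {u v : ℕ} (hu : u ∈ UU q) (hv : v ∈ UU q) (h : ph q u = ph q v) :
    u = v := by
  obtain ⟨⟨h1, h2⟩, hc⟩ := mem_UU.1 hu
  obtain ⟨⟨h1', h2'⟩, hc'⟩ := mem_UU.1 hv
  have h4 := congrArg (fun φ : Kq q →+* ℂ => φ (zq q)) h
  simp only [ph_zq q hc, ph_zq q hc'] at h4
  exact (Pool.Agent.Helper44.LT.zt_prim q (NeZero.ne q)).pow_inj (by omega) (by omega) h4

/-- half systems -/
theorem half_hs {s : Finset ℕ} (hs : HS q s) (φ : Kq q →+* ℂ) :
    ∃ v : s, φ = ph q v ∨ φ = cc.comp (ph q v) := by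
  obtain ⟨u, hu, rfl⟩ := exists_num q hs.three φ
  obtain ⟨⟨h1, h2⟩, hc⟩ := mem_UU.1 hu
  by_cases h : u ∈ s
  · exact ⟨⟨u, h⟩, Or.inl rfl⟩
  · have h3 := hs.half u h1 (by omega) hc
    have h4 : q - u ∈ s := by
      by_contra h5
      exact h (h3.2 h5)
    refine ⟨⟨q - u, h4⟩, Or.inr ?_⟩
    change ph q u = cc.comp (ph q (q - u))
    rw [ph_sub q hu]
    ext x
    simp

theorem half_card {s : Finset ℕ} (hs : HS q s) :
    2 * Fintype.card s = finrank ℚ (Kq q) := by
  rw [Fintype.card_coe, IsCyclotomicExtension.finrank (Kq q) (irr q)]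
  exact card_HS q s hs

/-! ### the coordinates -/

/-- the basis of the powers of the root of unity -/
def pbq : Basis (Iq q) ℚ (Kq q) := (exists_pb q).choose

theorem pbq_apply (i : Iq q) : pbq q i = zq q ^ (i : ℕ) := (exists_pb q).choose_spec i

/-- change of coordinates -/
def C1 : Matrix (Iq q) (JB (Kq q)) ℚ := fun i j => (pbq q).repr (integralBasis (Kq q) j) i

/-- change of coordinates back -/
def C1' : Matrix (JB (Kq q)) (Iq q) ℚ := fun j i => (integralBasis (Kq q)).repr (pbq q i) j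

theorem C1_mul : C1 q * C1' q = 1 := by
  have h := (pbq q).toMatrix_mul_toMatrix_flip (integralBasis (Kq q))
  exact h

theorem C1'_mul : C1' q * C1 q = 1 := by
  have h := (integralBasis (Kq q)).toMatrix_mul_toMatrix_flip (pbq q)
  exact h

/-- the embedding in the coordinates of the powers -/
theorem em_C1 {u : ℕ} (hu : Nat.Coprime u q) (w : JB (Kq q) → ℂ) :
    em q u (cM (C1 q) *ᵥ w) = ∑ j, w j * ph q u (integralBasis (Kq q) j) := by
  have h1 : ∀ j, ph q u (integralBasis (Kq q) j) = ∑ i : Iq q, ((C1 q i j : ℚ) : ℂ) *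
      zt q ^ (u * (i : ℕ)) := by
    intro j
    conv_lhs => rw [← (pbq q).sum_repr (integralBasis (Kq q) j)]
    rw [map_sum]
    refine Finset.sum_congr rfl fun i _ => ?_
    rw [pbq_apply, Algebra.smul_def, map_mul, map_pow, ph_zq q hu, ← pow_mul]
    simp [C1]
  simp only [Pool.Agent.Helper49.SH.em, cM, Matrix.mulVec, dotProduct, Matrix.map_apply, h1,
    Finset.sum_mul, Finset.mul_sum]
  rw [Finset.sum_comm]
  refine Finset.sum_congr rfl fun j _ => Finset.sum_congr rfl fun i _ => ?_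
  ring

/-- `Q^(I2) → Q^(Iq) × Q^(Iq)` -/
def P1 : Matrix (Iq q ⊕ Iq q) (I2 (Kq q)) ℚ := fun a b =>
  Sum.elim (fun i => if b.1 = 0 then C1 q i b.2 else 0) (fun i => if b.1 = 1 then C1 q i b.2 else 0) a

/-- the inverse of `P1` -/
def P1' : Matrix (I2 (Kq q)) (Iq q ⊕ Iq q) ℚ := fun b a =>
  Sum.elim (fun i => if b.1 = 0 then C1' q b.2 i else 0) (fun i => if b.1 = 1 then C1' q b.2 i else 0) a

theorem P1_mul : P1 q * P1' q = 1 := by
  ext a b
  have h := fun i j => congrFun (congrFun (C1_mul q) i) j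
  simp only [Matrix.mul_apply] at h
  rw [Matrix.mul_apply, Fintype.sum_prod_type, Fin.sum_univ_two]
  rcases a with a | a <;> rcases b with b | b <;>
    simp [P1, P1', h, Matrix.one_apply]

theorem P1'_mul : P1' q * P1 q = 1 := by
  ext ⟨k, i⟩ ⟨l, j⟩
  have h := fun i j => congrFun (congrFun (C1'_mul q) i) j
  simp only [Matrix.mul_apply] at h
  rw [Matrix.mul_apply, Fintype.sum_sum_type]
  fin_cases k <;> fin_cases l <;>
    simp [P1, P1', h, Matrix.one_apply]

theorem P1_fst (w : I2 (Kq q) → ℂ) :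
    (fun i => (cM (P1 q) *ᵥ w) (Sum.inl i)) = cM (C1 q) *ᵥ (fun j => w (0, j)) := by
  funext i
  simp only [cM, Matrix.mulVec, dotProduct, Matrix.map_apply, P1, Sum.elim_inl]
  rw [Fintype.sum_prod_type, Fin.sum_univ_two]
  simp

theorem P1_snd (w : I2 (Kq q) → ℂ) :
    (fun i => (cM (P1 q) *ᵥ w) (Sum.inr i)) = cM (C1 q) *ᵥ (fun j => w (1, j)) := by
  funext i
  simp only [cM, Matrix.mulVec, dotProduct, Matrix.map_apply, P1, Sum.elim_inr]
  rw [Fintype.sum_prod_type, Fin.sum_univ_two]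
  simp

/-- **The embeddings in both coordinate systems.** -/
theorem cd_P1 {u : ℕ} (hu : Nat.Coprime u q) (w : I2 (Kq q) → ℂ) :
    cd (Kq q) w (ph q u) = (em q u (fun i => (cM (P1 q) *ᵥ w) (Sum.inl i)),
      em q u (fun i => (cM (P1 q) *ᵥ w) (Sum.inr i))) := by
  rw [P1_fst, P1_snd, em_C1 q hu, em_C1 q hu, cd_apply]

theorem mv_eq {I J : Type} [Fintype I] [Fintype J] (M : I → J → ℚ) (w : J → ℂ) :
    Pool.Agent.Helper49.SH.mv M w = cM (M : Matrix I J ℚ) *ᵥ w := rfl

/-- polynomial in the root of unity -/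
def pK (ξ : Polynomial ℚ) : Kq q := Polynomial.aeval (zq q) ξ

theorem ph_pK {u : ℕ} (hu : Nat.Coprime u q) (ξ : Polynomial ℚ) :
    ph q u (pK q ξ) = Polynomial.aeval (zt q ^ u) ξ := by
  have h := Polynomial.aeval_algHom_apply (RingHom.equivRatAlgHom (Kq q) ℂ (ph q u)) (zq q) ξ
  have h2 : (RingHom.equivRatAlgHom (Kq q) ℂ (ph q u)) (zq q) = zt q ^ u := ph_zq q hu
  rw [h2] at h
  exact h.symm

theorem sum_emb (h3 : 3 ≤ q) {F : Type*} [AddCommMonoid F] (f : (Kq q →+* ℂ) → F) :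
    ∑ φ, f φ = ∑ u ∈ UU q, f (ph q u) := by
  symm
  refine Finset.sum_bij (fun u _ => ph q u) (fun _ _ => Finset.mem_univ _)
    (fun u hu v hv h => ph_inj q h3 hu hv h) (fun φ _ => ?_) (fun _ _ => rfl)
  obtain ⟨u, hu, rfl⟩ := exists_num q h3 φ
  exact ⟨u, hu, rfl⟩

theorem ph_comp {u : ℕ} (hu : u ∈ UU q) : (ph q u).comp (cjq q) = ph q (q - u) := by
  rw [ph_sub q hu]
  ext x
  exact hom_cjq q _ x

end cyc

end

end Pool.Agent.Helper75.SH
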