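import Pool.Agent.Helper75.SH.K8
import Pool.Agent.Helper94.SX.Xe

/-!
Block X of project ALLQ (MP_274814_nt): the cyclotomic data of `Helper94/SX/Xe.lean` exist.
-/

set_option autoImplicit false

open Module NumberField Matrix

namespace Pool.Agent.Helper75.SH

open Pool.Agent.Helper94.SH Pool.Agent.Helper34.LT Pool.Agent.Helper34.LU Pool.Agent.Helper49.SH LTG
open Pool.Agent.Helper94.SX Pool.Agent.Helper16.SH

noncomputable section

theorem ph_pK' (q : ℕ) [NeZero q] {u : ℕ} (hu : Nat.Coprime u q) (ξ : Polynomial ℚ) :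
    ph q u (pK q ξ) = xv q ξ u := ph_pK q hu ξ

/-- **The cyclotomic data.** -/
theorem exists_Cyc (q : ℕ) [NeZero q] (s1 s2 : Finset ℕ) (ξ1 ξ2 : Polynomial ℚ)
    (E1 E2 : Iq q → Iq q → ℚ) (hs1 : HS q s1) (hs2 : HS q s2) (hk1 : KForm q ξ1 E1)
    (hk2 : KForm q ξ2 E2) (hp1 : Pol E1 (Ns q s1)) (hp2 : Pol E2 (Ns q s2)) :
    ∃ (κ : Kq q) (a kr : Pq q s1 → ℝ) (T : (MM (Pq q s1) → ℂ) ≃ₗ[ℂ] (Pq q s1 → PC))
      (R : Matrix (Fin 2) (Fin 2) (Kq q) → Matrix (MM (Pq q s1)) (MM (Pq q s1)) ℚ)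
      (S : Iq q ⊕ Iq q → MM (Pq q s1) → ℚ) (S' : MM (Pq q s1) → Iq q ⊕ Iq q → ℚ),
      Cyc q s1 s2 ξ1 ξ2 (cjq q) (fun v => ph q v) κ (zq q) a kr T R S S' := by
  have h3 := hs1.three
  have hs := HS_compl hs1
  have hU : ∀ v : Pq q s1, (v : ℕ) ∈ UU q := fun v => (Finset.mem_sdiff.1 v.2).1
  have hnot : ∀ v : Pq q s1, (v : ℕ) ∉ s1 := fun v => (Finset.mem_sdiff.1 v.2).2
  have hc : ∀ v : Pq q s1, Nat.Coprime (v : ℕ) q := fun v => (mem_UU.1 (hU v)).2
  -- a place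
  have hone : (1 : ℕ) ∈ UU q := mem_UU.2 ⟨⟨le_rfl, by omega⟩, Nat.coprime_one_left q⟩
  have hph : ∀ ξ : Polynomial ℚ, ph q 1 (pK q ξ) = xv q ξ 1 :=
    fun ξ => ph_pK' q (Nat.coprime_one_left q) ξ
  have hanti : ∀ (ξ : Polynomial ℚ) (E : Iq q → Iq q → ℚ), KForm q ξ E →
      (∀ i j, E i j = -E j i) → cjq q (pK q ξ) = -pK q ξ := by
    intro ξ E hk ha
    apply (ph q 1).injective
    rw [hom_cjq, map_neg, hph, xv_cc (by omega) (by omega), xv_anti h3 hk ha hone]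
  have hne : ∀ (ξ : Polynomial ℚ) (E : Iq q → Iq q → ℚ) (s : Finset ℕ), HS q s → KForm q ξ E →
      Pol E (Ns q s) → pK q ξ ≠ 0 := by
    intro ξ E s hs' hk hp h0
    have h1 := xv_ne hs' hk hp hone
    rw [← hph, h0, map_zero] at h1
    exact h1 rfl
  have hx1 := hanti ξ1 E1 hk1 hp1.alt
  have hx2 := hanti ξ2 E2 hk2 hp2.alt
  have hn1 := hne ξ1 E1 s1 hs1 hk1 hp1
  have hn2 := hne ξ2 E2 s2 hs2 hk2 hp2
  set κ : Kq q := -pK q ξ2 / pK q ξ1 with hκdef
  have hκ : cjq q κ = κ := by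
    rw [hκdef, map_div₀, map_neg, hx1, hx2, neg_neg, div_neg, neg_div]
  have hκ0 : κ ≠ 0 := div_ne_zero (neg_ne_zero.2 hn2) hn1
  have hval : ∀ v : Pq q s1, ph q v κ = ((-(xv q ξ2 v).im / (xv q ξ1 v).im : ℝ) : ℂ) := by
    intro v
    rw [hκdef, map_div₀, map_neg, ph_pK' q (hc v), ph_pK' q (hc v),
      kv_eq h3 hk1 hp1.alt hk2 hp2.alt (hU v)]
  have hre : ∀ v : Pq q s1, (ph q v κ).re = -(xv q ξ2 v).im / (xv q ξ1 v).im := by
    intro v
    rw [hval, Complex.ofReal_re]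
  have him : ∀ v : Pq q s1, (ph q v (pK q ξ1)).im = (xv q ξ1 v).im := by
    intro v
    rw [ph_pK' q (hc v)]
  have hpos : ∀ v : Pq q s1, 0 < (xv q ξ1 v).im := fun v => xv_pos hs1 hk1 hp1 (hU v) (hnot v)
  have hsgn : ∀ v : Pq q s1, (v : ℕ) ∈ s2 ↔ 0 < (ph q v κ).re := by
    intro v
    rw [hre]
    constructor
    · intro h
      exact div_pos (neg_pos.2 (xv_neg hs2 hk2 hp2 h)) (hpos v)
    · intro h
      by_contra h'
      have h4 := xv_pos hs2 hk2 hp2 (hU v) h'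
      have h5 : -(xv q ξ2 v).im / (xv q ξ1 v).im < 0 := div_neg_of_neg_of_pos (by linarith) (hpos v)
      linarith
  have hk0 : ∀ v : Pq q s1, (ph q v κ).re ≠ 0 := by
    intro v h
    have h4 := hval v
    rw [← hre, h, Complex.ofReal_zero, map_eq_zero] at h4
    exact hκ0 h4
  obtain ⟨T, R, S, S', h1, h2, h4, h5, h6, h7, -, -⟩ := exists_Coo (cjq q)
    (fun v : Pq q s1 => ph q v) (half_hs q hs) (half_card q hs) (cjq_cjq q)
    (fun v x => hom_cjq q _ x) hx1 hκ hn1 hκ0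
  refine ⟨κ, fun v => (ph q v (pK q ξ1)).im, fun v => (ph q v κ).re, T, R, P1 q * S, S' * P1' q,
    ?_⟩
  refine
    { hs1 := hs1
      hs2 := hs2
      ari :=
        { hs := half_hs q hs
          hcard := half_card q hs
          hcj2 := cjq_cjq q
          hcj := fun v x => hom_cjq q _ x
          hκ := hκ
          hkr := fun v => ?_
          hk0 := hk0
          ha := fun v => by rw [him]; exact hpos v
          coo := h1
          act := h2
          int := ?_ }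
      zeta := fun v => ph_zq q (hc v)
      gen := ?_
      x1 := fun v => ?_
      x2 := ?_
      sgn := hsgn
      coord := ?_
      inv1 := ?_
      inv2 := ?_ }
  · rw [hval, Complex.ofReal_re]
  · intro n hn
    obtain ⟨N, hN, h⟩ := h4 n hn
    refine ⟨N, hN, fun b hb1 hb2 hb3 => ?_⟩
    obtain ⟨M, hM⟩ := h b hb1 hb2 hb3
    exact ⟨M, fun i j => (hM i j).1, fun i j => (hM i j).2⟩
  · intro x
    refine ⟨∑ i : Iq q, Polynomial.C ((pbq q).repr x i) * Polynomial.X ^ (i : ℕ), ?_⟩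
    conv_lhs => rw [← (pbq q).sum_repr x]
    rw [map_sum]
    refine Finset.sum_congr rfl fun i _ => ?_
    rw [map_mul, Polynomial.aeval_C, map_pow, Polynomial.aeval_X, pbq_apply, Algebra.smul_def]
  · change ph q v (pK q ξ1) = _
    rw [him, ph_pK' q (hc v)]
    exact xv_re h3 hk1 hp1.alt (hU v)
  · change pK q ξ2 = -κ * pK q ξ1
    rw [hκdef]
    field_simp
  · intro w v
    rw [h7]
    have h8 : Pool.Agent.Helper49.SH.mv (P1 q * S) w = cM (P1 q) *ᵥ (cM S *ᵥ w) := by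
      change cM (P1 q * S) *ᵥ w = _
      rw [cM_mul, Matrix.mulVec_mulVec]
    have h9 : Nat.Coprime (q - (v : ℕ)) q := by
      obtain ⟨⟨h10, h11⟩, h12⟩ := mem_UU.1 (hU v)
      exact (Nat.coprime_self_sub_left (by omega)).2 h12
    rw [h8]
    simp only [T0, LinearMap.coe_mk, AddHom.coe_mk]
    rw [ph_comp q (hU v)]
    change _ = ((em q v (fun i => (cM (P1 q) *ᵥ (cM S *ᵥ w)) (Sum.inl i)),
      em q v (fun i => (cM (P1 q) *ᵥ (cM S *ᵥ w)) (Sum.inr i))),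
      (em q (q - v) (fun i => (cM (P1 q) *ᵥ (cM S *ᵥ w)) (Sum.inl i)),
      em q (q - v) (fun i => (cM (P1 q) *ᵥ (cM S *ᵥ w)) (Sum.inr i))))
    rw [cd_P1 q (hc v), cd_P1 q h9]
  · intro w
    have h8 : Pool.Agent.Helper49.SH.mv (P1 q * S) (Pool.Agent.Helper49.SH.mv (S' * P1' q) w) =
        cM ((P1 q * S) * (S' * P1' q)) *ᵥ w := by
      change cM (P1 q * S) *ᵥ (cM (S' * P1' q) *ᵥ w) = _
      rw [cM_mul (P1 q * S), Matrix.mulVec_mulVec]
    rw [h8, Matrix.mul_assoc, ← Matrix.mul_assoc S, h5, Matrix.one_mul, P1_mul, cM_one,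
      Matrix.one_mulVec]
  · intro w
    have h8 : Pool.Agent.Helper49.SH.mv (S' * P1' q) (Pool.Agent.Helper49.SH.mv (P1 q * S) w) =
        cM ((S' * P1' q) * (P1 q * S)) *ᵥ w := by
      change cM (S' * P1' q) *ᵥ (cM (P1 q * S) *ᵥ w) = _
      rw [cM_mul (S' * P1' q), Matrix.mulVec_mulVec]
    rw [h8, Matrix.mul_assoc, ← Matrix.mul_assoc (P1' q), P1'_mul, Matrix.one_mul, h6, cM_one,
      Matrix.one_mulVec]

end

end Pool.Agent.Helper75.SH
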