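import Mathlib

/-! Block D1 of project ALLQ: compactness modulo a congruence group.  Part 1: Minkowski. -/

open Matrix MeasureTheory Module

namespace Pool.Agent.Helper75.SH

/-- An integer vector seen as a real vector. -/
def rv {n : ℕ} (x : Fin n → ℤ) : Fin n → ℝ := fun j => (x j : ℝ)

/-- The quadratic form of a matrix. -/
def qf {n : ℕ} (Q : Matrix (Fin n) (Fin n) ℝ) (x : Fin n → ℝ) : ℝ := x ⬝ᵥ (Q *ᵥ x)

open scoped MatrixOrder in
/-- A positive definite real matrix is a Gram matrix. -/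
theorem exists_root {n : ℕ} {Q : Matrix (Fin n) (Fin n) ℝ} (hQ : Q.PosDef) :
    ∃ A : Matrix (Fin n) (Fin n) ℝ, Q = Aᵀ * A := by
  obtain ⟨B, hB⟩ := CStarAlgebra.nonneg_iff_eq_star_mul_self.mp hQ.posSemidef.nonneg
  exact ⟨B, by rw [hB, Matrix.star_eq_conjTranspose, Matrix.conjTranspose_eq_transpose_of_trivial]⟩

/-- Minkowski's theorem on linear forms. -/
theorem minkowski_forms {n : ℕ} (M : Matrix (Fin n) (Fin n) ℝ) (hM : M.det ≠ 0)
    (h : |M.det| < 1) : ∃ x : Fin n → ℤ, x ≠ 0 ∧ ∀ i, |(M *ᵥ rv x) i| < 1 := by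
  classical
  set s : Set (Fin n → ℝ) := (Matrix.toLin' M) ⁻¹' (Metric.ball 0 1) with hs
  have hvol : volume s = ENNReal.ofReal (|M.det|⁻¹) * ENNReal.ofReal ((2 * 1) ^ n) := by
    rw [hs, Measure.addHaar_preimage_linearMap volume (by simpa using hM)]
    rw [Real.volume_pi_ball _ one_pos]
    simp [abs_inv]
  have fund := ZSpan.isAddFundamentalDomain' (Pi.basisFun ℝ (Fin n)) volume
  have hv1 : volume (ZSpan.fundamentalDomain (Pi.basisFun ℝ (Fin n))) = 1 := by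
    rw [ZSpan.fundamentalDomain_pi_basisFun, volume_pi_pi]
    simp
  have hlt : volume (ZSpan.fundamentalDomain (Pi.basisFun ℝ (Fin n))) * 2 ^ finrank ℝ (Fin n → ℝ)
      < volume s := by
    rw [hv1, hvol, one_mul]
    rw [← ENNReal.ofReal_mul (by positivity)]
    have h0 : (0 : ℝ) < |M.det| := abs_pos.mpr hM
    have h2 : (2 : ENNReal) ^ finrank ℝ (Fin n → ℝ) = ENNReal.ofReal ((2 : ℝ) ^ n) := by
      simp [ENNReal.ofReal_pow]
    have h1 : 1 < |M.det|⁻¹ := (one_lt_inv₀ h0).mpr h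
    have h3 : (0 : ℝ) < 2 ^ n := by positivity
    rw [h2, ENNReal.ofReal_lt_ofReal_iff (by positivity)]
    nlinarith
  have hcount : Countable (Submodule.span ℤ (Set.range (Pi.basisFun ℝ (Fin n)))).toAddSubgroup := by
    change Countable (Submodule.span ℤ (Set.range (Pi.basisFun ℝ (Fin n))))
    infer_instance
  obtain ⟨x, hx0, hxs⟩ := exists_ne_zero_mem_lattice_of_measure_mul_two_pow_lt_measure
    (μ := volume) (s := s) fund (by
      intro x hx
      simpa [hs, Matrix.mulVec_neg] using hx) (by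
      exact (convex_ball _ _).linear_preimage _) hlt
  have hxm : (x : Fin n → ℝ) ∈ Submodule.span ℤ (Set.range (Pi.basisFun ℝ (Fin n))) := x.2
  have hxm' := ((Pi.basisFun ℝ (Fin n)).mem_span_iff_repr_mem ℤ (x : Fin n → ℝ)).mp hxm
  choose y hy using hxm'
  have hxy : (x : Fin n → ℝ) = rv y := by
    funext i
    have := hy i
    simp only [Pi.basisFun_repr] at this
    rw [← this]
    simp [rv]
  refine ⟨y, ?_, ?_⟩
  · rintro rfl
    apply hx0
    ext i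
    rw [hxy]
    simp [rv]
  · intro i
    have h1 : ‖M *ᵥ (x : Fin n → ℝ)‖ < 1 := by
      simpa [hs] using hxs
    rw [hxy] at h1
    have h2 := norm_le_pi_norm (M *ᵥ rv y) i
    rw [Real.norm_eq_abs] at h2
    linarith

theorem qf_transpose_mul {n : ℕ} (A : Matrix (Fin n) (Fin n) ℝ) (x : Fin n → ℝ) :
    qf (Aᵀ * A) x = (A *ᵥ x) ⬝ᵥ (A *ᵥ x) := by
  unfold qf
  rw [← Matrix.mulVec_mulVec, Matrix.dotProduct_mulVec, Matrix.vecMul_transpose]

theorem dot_cs {n : ℕ} (u y : Fin n → ℝ) (hu : u ⬝ᵥ u = 1) : (u ⬝ᵥ y) ^ 2 ≤ y ⬝ᵥ y := by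
  have h : 0 ≤ (y - (u ⬝ᵥ y) • u) ⬝ᵥ (y - (u ⬝ᵥ y) • u) := by
    unfold dotProduct
    exact Finset.sum_nonneg fun i _ => mul_self_nonneg _
  rw [sub_dotProduct, dotProduct_sub, dotProduct_sub, smul_dotProduct, smul_dotProduct,
    dotProduct_smul, dotProduct_smul, hu, dotProduct_comm y u] at h
  simp only [smul_eq_mul] at h
  nlinarith

/-- The scaling map: factor `β` in the direction `u`, `α` on its orthogonal complement. -/
noncomputable def sc {n : ℕ} (α β : ℝ) (u : Fin n → ℝ) : Matrix (Fin n) (Fin n) ℝ :=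
  α • (1 + vecMulVec (((β - α) / α) • u) u)

theorem sc_det {n : ℕ} (α β : ℝ) (hα : α ≠ 0) (u : Fin n → ℝ) (hu : u ⬝ᵥ u = 1) (hn : 0 < n) :
    (sc α β u).det = α ^ (n - 1) * β := by
  unfold sc
  rw [Matrix.det_smul, Matrix.vecMulVec_eq (Fin 1), Matrix.det_one_add_replicateCol_mul_replicateRow]
  rw [dotProduct_smul, hu, Fintype.card_fin]
  obtain ⟨m, rfl⟩ : ∃ m, n = m + 1 := ⟨n - 1, by omega⟩
  simp only [smul_eq_mul, mul_one, Nat.add_sub_cancel]
  field_simp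
  ring

theorem sc_mulVec {n : ℕ} (α β : ℝ) (hα : α ≠ 0) (u y : Fin n → ℝ) :
    sc α β u *ᵥ y = α • y + ((β - α) * (u ⬝ᵥ y)) • u := by
  unfold sc
  rw [smul_mulVec, add_mulVec, one_mulVec, vecMulVec_mulVec]
  ext i
  simp
  field_simp

theorem sc_norm {n : ℕ} (α β : ℝ) (hα : α ≠ 0) (u y : Fin n → ℝ) (hu : u ⬝ᵥ u = 1) :
    (sc α β u *ᵥ y) ⬝ᵥ (sc α β u *ᵥ y) = α ^ 2 * (y ⬝ᵥ y) + (β ^ 2 - α ^ 2) * (u ⬝ᵥ y) ^ 2 := by
  rw [sc_mulVec α β hα]
  simp only [add_dotProduct, dotProduct_add, smul_dotProduct, dotProduct_smul, hu,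
    dotProduct_comm y u, smul_eq_mul]
  ring

theorem sc_norm_ge {n : ℕ} (α β : ℝ) (hα : 0 < α) (hβ : 0 < β) (u y : Fin n → ℝ)
    (hu : u ⬝ᵥ u = 1) :
    (min α β) ^ 2 * (y ⬝ᵥ y) ≤ (sc α β u *ᵥ y) ⬝ᵥ (sc α β u *ᵥ y) := by
  rw [sc_norm α β hα.ne' u y hu]
  have h1 := dot_cs u y hu
  have h2 : 0 ≤ (u ⬝ᵥ y) ^ 2 := sq_nonneg _
  have h3 : 0 < min α β := lt_min hα hβ
  have h4 : (min α β) ^ 2 ≤ α ^ 2 := by
    gcongr
    exact min_le_left _ _
  have h5 : (min α β) ^ 2 ≤ β ^ 2 := by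
    gcongr
    exact min_le_right _ _
  nlinarith

/-- **Minkowski outside a subspace.** -/
theorem minkowski_outside (n : ℕ) (c D : ℝ) (hc : 0 < c) : ∃ C : ℝ, 0 < C ∧
    ∀ (Q : Matrix (Fin n) (Fin n) ℝ), Q.PosDef → Q.det ≤ D →
    (∀ l : Fin n → ℤ, l ≠ 0 → c ≤ qf Q (rv l)) →
    ∀ V : Submodule ℝ (Fin n → ℝ), V ≠ ⊤ → ∃ l : Fin n → ℤ, rv l ∉ V ∧ qf Q (rv l) ≤ C := by
  rcases Nat.eq_zero_or_pos n with hn | hn
  · subst hn
    refine ⟨1, one_pos, fun Q _ _ _ V hV => absurd ?_ hV⟩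
    exact Subsingleton.elim _ _
  have hn' : (0 : ℝ) < n := by exact_mod_cast hn
  set α : ℝ := Real.sqrt (n / c) with hα
  have hα0 : 0 < α := Real.sqrt_pos.mpr (by positivity)
  set β : ℝ := 1 / (α ^ (n - 1) * (Real.sqrt D + 1)) with hβ
  have hD0 : 0 ≤ Real.sqrt D := Real.sqrt_nonneg _
  have hβ0 : 0 < β := by positivity
  have hmin : 0 < min α β := lt_min hα0 hβ0
  refine ⟨n / (min α β) ^ 2, by positivity, fun Q hQ hdet hl V hV => ?_⟩
  obtain ⟨A, hA⟩ := exists_root hQ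
  have hQd : Q.det = A.det ^ 2 := by
    rw [hA, Matrix.det_mul, Matrix.det_transpose, sq]
  have hQp := hQ.det_pos
  have hA0 : A.det ≠ 0 := by
    intro h
    rw [hQd, h] at hQp
    simp at hQp
  have hA1 : |A.det| ≤ Real.sqrt D := by
    apply Real.abs_le_sqrt
    rw [← hQd]
    exact hdet
  obtain ⟨f, hf0, hf⟩ := Submodule.exists_le_ker_of_lt_top V (lt_top_iff_ne_top.mpr hV)
  set a : Fin n → ℝ := fun i => f (Pi.single i 1) with ha
  have hfa : ∀ x, f x = a ⬝ᵥ x := by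
    intro x
    have h1 : x = ∑ i, x i • (Pi.single i (1 : ℝ) : Fin n → ℝ) := by
      ext j
      simp [Finset.sum_apply, Pi.single_apply]
    conv_lhs => rw [h1]
    rw [map_sum]
    simp [dotProduct, ha, mul_comm]
  have ha0 : a ≠ 0 := by
    intro h
    apply hf0
    ext i
    simp [hfa, h]
  have hAu : IsUnit A.det := isUnit_iff_ne_zero.mpr hA0
  set u' : Fin n → ℝ := a ᵥ* A⁻¹ with hu'
  have hu'A : ∀ x, a ⬝ᵥ x = u' ⬝ᵥ (A *ᵥ x) := by
    intro x
    rw [hu', Matrix.dotProduct_mulVec, Matrix.vecMul_vecMul, Matrix.nonsing_inv_mul A hAu,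
      Matrix.vecMul_one]
  have hu'0 : u' ≠ 0 := by
    intro h
    apply ha0
    have : a = (a ᵥ* A⁻¹) ᵥ* A := by
      rw [Matrix.vecMul_vecMul, Matrix.nonsing_inv_mul A hAu, Matrix.vecMul_one]
    rw [this, ← hu', h, Matrix.zero_vecMul]
  have hpos : 0 < u' ⬝ᵥ u' := by
    have h1 : 0 ≤ u' ⬝ᵥ u' := Finset.sum_nonneg fun i _ => mul_self_nonneg _
    rcases h1.lt_or_eq with h | h
    · exact h
    · exact absurd (dotProduct_self_eq_zero.mp h.symm) hu'0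
  set u : Fin n → ℝ := (Real.sqrt (u' ⬝ᵥ u'))⁻¹ • u' with hu
  have hsq : Real.sqrt (u' ⬝ᵥ u') ^ 2 = u' ⬝ᵥ u' := Real.sq_sqrt hpos.le
  have hsq0 : 0 < Real.sqrt (u' ⬝ᵥ u') := Real.sqrt_pos.mpr hpos
  have hu1 : u ⬝ᵥ u = 1 := by
    rw [hu, smul_dotProduct, dotProduct_smul, smul_eq_mul, smul_eq_mul]
    generalize Real.sqrt (u' ⬝ᵥ u') = w at hsq hsq0
    rw [← hsq]
    field_simp
  have hdetM : (sc α β u * A).det = α ^ (n - 1) * β * A.det := by
    rw [Matrix.det_mul, sc_det α β hα0.ne' u hu1 hn]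
  have hM0 : (sc α β u * A).det ≠ 0 := by
    rw [hdetM]
    positivity
  have hM1 : |(sc α β u * A).det| < 1 := by
    rw [hdetM, abs_mul, abs_of_pos (by positivity), hβ]
    have h1 : α ^ (n - 1) * (1 / (α ^ (n - 1) * (Real.sqrt D + 1))) = 1 / (Real.sqrt D + 1) := by
      field_simp
    rw [h1]
    rw [one_div, inv_mul_lt_one₀ (by positivity)]
    linarith
  obtain ⟨l, hl0, hlM⟩ := minkowski_forms (sc α β u * A) hM0 hM1
  have hlt : (sc α β u *ᵥ (A *ᵥ rv l)) ⬝ᵥ (sc α β u *ᵥ (A *ᵥ rv l)) < n := by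
    rw [Matrix.mulVec_mulVec]
    unfold dotProduct
    calc ∑ i, ((sc α β u * A) *ᵥ rv l) i * ((sc α β u * A) *ᵥ rv l) i
        < ∑ _i : Fin n, (1 : ℝ) := by
          apply Finset.sum_lt_sum_of_nonempty
          · exact Finset.univ_nonempty_iff.mpr ⟨⟨0, hn⟩⟩
          · intro i _
            have := hlM i
            rw [abs_lt] at this
            nlinarith
      _ = n := by simp
  have hQl : qf Q (rv l) = (A *ᵥ rv l) ⬝ᵥ (A *ᵥ rv l) := by
    rw [hA, qf_transpose_mul]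
  refine ⟨l, ?_, ?_⟩
  · intro hlV
    have h1 : f (rv l) = 0 := hf hlV
    rw [hfa, hu'A] at h1
    have h2 : u ⬝ᵥ (A *ᵥ rv l) = 0 := by
      rw [hu, smul_dotProduct, h1, smul_zero]
    rw [sc_norm α β hα0.ne' u _ hu1, h2, ← hQl] at hlt
    have h3 := hl l hl0
    have h4 : α ^ 2 = n / c := Real.sq_sqrt (by positivity)
    rw [h4] at hlt
    have h5 : (n : ℝ) / c * c ≤ n / c * qf Q (rv l) := by gcongr
    rw [div_mul_cancel₀ _ hc.ne'] at h5
    linarith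
  · have h1 := sc_norm_ge α β hα0 hβ0 u (A *ᵥ rv l) hu1
    rw [← hQl] at h1
    rw [le_div_iff₀ (by positivity)]
    linarith

end Pool.Agent.Helper75.SH
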