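import Pool.Agent.Helper75.SH.D1

/-! Block D1 of project ALLQ: compactness modulo a congruence group.  Part 2. -/

open Matrix Module

namespace Pool.Agent.Helper75.SH

variable {n : ℕ}

/-- The real matrix of an integer matrix. -/
abbrev rM (M : Matrix (Fin n) (Fin n) ℤ) : Matrix (Fin n) (Fin n) ℝ :=
  (Int.castRingHom ℝ).mapMatrix M

/-- A positive complex structure for the alternating form `Om`, commuting with `Z0`. -/
structure IsCplx (Om Z0 : Matrix (Fin n) (Fin n) ℤ) (J : Matrix (Fin n) (Fin n) ℝ) : Prop where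
  sq : J * J = -1
  sym : Jᵀ * rM Om * J = rM Om
  pos : (rM Om * J).PosDef
  comm : J * rM Z0 = rM Z0 * J

theorem rM_apply (M : Matrix (Fin n) (Fin n) ℤ) (i j : Fin n) : rM M i j = (M i j : ℝ) := rfl

theorem rM_transpose (M : Matrix (Fin n) (Fin n) ℤ) : rM Mᵀ = (rM M)ᵀ := rfl

theorem rM_det (M : Matrix (Fin n) (Fin n) ℤ) : (rM M).det = (M.det : ℝ) := by
  rw [← RingHom.map_det]
  rfl

theorem rM_injective : Function.Injective (rM (n := n)) := by
  intro A B h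
  ext i j
  have := congrFun (congrFun h i) j
  rw [rM_apply, rM_apply] at this
  exact_mod_cast this

theorem rv_mulVec (M : Matrix (Fin n) (Fin n) ℤ) (x : Fin n → ℤ) :
    rv (M *ᵥ x) = rM M *ᵥ rv x := by
  ext i
  simp [rv, mulVec, dotProduct]

theorem cancelR {B X Y : Matrix (Fin n) (Fin n) ℤ} (hB : B.det ≠ 0) (h : X * B = Y * B) :
    X = Y := by
  have h1 : X * B * B.adjugate = Y * B * B.adjugate := by rw [h]
  rw [Matrix.mul_assoc, Matrix.mul_assoc, Matrix.mul_adjugate, Matrix.mul_smul, Matrix.mul_smul,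
    Matrix.mul_one, Matrix.mul_one] at h1
  exact smul_right_injective _ hB h1

theorem cancelL {B X Y : Matrix (Fin n) (Fin n) ℤ} (hB : B.det ≠ 0) (h : B * X = B * Y) :
    X = Y := by
  have h1 : B.adjugate * (B * X) = B.adjugate * (B * Y) := by rw [h]
  rw [← Matrix.mul_assoc, ← Matrix.mul_assoc, Matrix.adjugate_mul, Matrix.smul_mul,
    Matrix.smul_mul, Matrix.one_mul, Matrix.one_mul] at h1
  exact smul_right_injective _ hB h1

/-- Cauchy-Schwarz for a positive definite matrix. -/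
theorem cs_pos {Q : Matrix (Fin n) (Fin n) ℝ} (hQ : Q.PosDef) (x y : Fin n → ℝ) :
    (x ⬝ᵥ (Q *ᵥ y)) ^ 2 ≤ qf Q x * qf Q y := by
  obtain ⟨A, rfl⟩ := exists_root hQ
  rw [qf_transpose_mul, qf_transpose_mul, ← Matrix.mulVec_mulVec, Matrix.dotProduct_mulVec,
    Matrix.vecMul_transpose]
  have h := Finset.sum_mul_sq_le_sq_mul_sq Finset.univ (A *ᵥ x) (A *ᵥ y)
  simpa [dotProduct, sq] using h

theorem qf_nonneg {Q : Matrix (Fin n) (Fin n) ℝ} (hQ : Q.PosDef) (x : Fin n → ℝ) :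
    0 ≤ qf Q x := by
  obtain ⟨A, rfl⟩ := exists_root hQ
  rw [qf_transpose_mul]
  exact Finset.sum_nonneg fun i _ => mul_self_nonneg _

theorem abs_le_of_qf {Q : Matrix (Fin n) (Fin n) ℝ} (hQ : Q.PosDef) {x y : Fin n → ℝ} {C : ℝ}
    (hC : 0 ≤ C) (hx : qf Q x ≤ C) (hy : qf Q y ≤ C) : |x ⬝ᵥ (Q *ᵥ y)| ≤ C := by
  apply abs_le_of_sq_le_sq _ hC
  calc (x ⬝ᵥ (Q *ᵥ y)) ^ 2 ≤ qf Q x * qf Q y := cs_pos hQ x y
    _ ≤ C * C := mul_le_mul hx hy (qf_nonneg hQ y) hC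
    _ = C ^ 2 := (sq C).symm

theorem qf_mulVec (Q P : Matrix (Fin n) (Fin n) ℝ) (x : Fin n → ℝ) :
    qf Q (P *ᵥ x) = qf (Pᵀ * Q * P) x := by
  unfold qf
  rw [← Matrix.mulVec_mulVec, ← Matrix.mulVec_mulVec, Matrix.dotProduct_mulVec x,
    Matrix.vecMul_transpose]

namespace IsCplx

variable {Om Z0 : Matrix (Fin n) (Fin n) ℤ} {J : Matrix (Fin n) (Fin n) ℝ}

theorem qf_J (h : IsCplx Om Z0 J) (x : Fin n → ℝ) :
    qf (rM Om * J) (J *ᵥ x) = qf (rM Om * J) x := by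
  rw [qf_mulVec]
  congr 1
  rw [← Matrix.mul_assoc, h.sym]

theorem qf_Z (h : IsCplx Om Z0 J) (hZ : Z0ᵀ * Om * Z0 = Om) (x : Fin n → ℝ) :
    qf (rM Om * J) (rM Z0 *ᵥ x) = qf (rM Om * J) x := by
  rw [qf_mulVec]
  congr 1
  have h1 : (rM Z0)ᵀ * rM Om * rM Z0 = rM Om := by
    rw [← rM_transpose, ← map_mul, ← map_mul, hZ]
  calc (rM Z0)ᵀ * (rM Om * J) * rM Z0 = (rM Z0)ᵀ * rM Om * (J * rM Z0) := by
        simp only [Matrix.mul_assoc]
    _ = (rM Z0)ᵀ * rM Om * rM Z0 * J := by rw [h.comm]; simp only [Matrix.mul_assoc]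
    _ = rM Om * J := by rw [h1]

theorem abs_E_le (h : IsCplx Om Z0 J) {x y : Fin n → ℝ} {C : ℝ}
    (hC : 0 ≤ C) (hx : qf (rM Om * J) x ≤ C) (hy : qf (rM Om * J) y ≤ C) :
    |x ⬝ᵥ (rM Om *ᵥ y)| ≤ C := by
  have h1 := abs_le_of_qf h.pos hC hx (by rw [h.qf_J]; exact hy : qf (rM Om * J) (J *ᵥ y) ≤ C)
  rw [Matrix.mulVec_mulVec, Matrix.mul_assoc, h.sq, Matrix.mul_neg, Matrix.mul_one,
    Matrix.neg_mulVec, dotProduct_neg, abs_neg] at h1
  exact h1

theorem det_le (h : IsCplx Om Z0 J) : (rM Om * J).det ≤ |(Om.det : ℝ)| := by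
  have h1 : J.det ^ 2 = 1 ∨ J.det ^ 2 = -1 := by
    have : J.det * J.det = (-1) ^ n := by
      rw [← Matrix.det_mul, h.sq, Matrix.det_neg, Matrix.det_one, mul_one, Fintype.card_fin]
    rw [pow_two, this]
    exact neg_one_pow_eq_or ℝ n
  have h2 : J.det ^ 2 = 1 := by
    rcases h1 with h1 | h1
    · exact h1
    · nlinarith [sq_nonneg J.det]
  have h3 : |J.det| = 1 := by
    rw [← sq_abs] at h2
    nlinarith [abs_nonneg J.det]
  rw [Matrix.det_mul, rM_det]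
  calc (Om.det : ℝ) * J.det ≤ |(Om.det : ℝ) * J.det| := le_abs_self _
    _ = |(Om.det : ℝ)| := by rw [abs_mul, h3, mul_one]

/-- Conjugation by an isometry. -/
theorem conj (h : IsCplx Om Z0 J) {d d' : Matrix (Fin n) (Fin n) ℤ} (h1 : d * d' = 1)
    (h2 : d' * d = 1) (h3 : dᵀ * Om * d = Om) (h4 : d * Z0 = Z0 * d) :
    IsCplx Om Z0 (rM d' * J * rM d) := by
  have e1 : rM d * rM d' = 1 := by rw [← map_mul, h1, map_one]
  have e2 : rM d' * rM d = 1 := by rw [← map_mul, h2, map_one]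
  have e3 : (rM d)ᵀ * rM Om * rM d = rM Om := by
    rw [← rM_transpose, ← map_mul, ← map_mul, h3]
  have e4 : rM d * rM Z0 = rM Z0 * rM d := by rw [← map_mul, ← map_mul, h4]
  have e5 : rM Om * rM d' = (rM d)ᵀ * rM Om := by
    calc rM Om * rM d' = (rM d)ᵀ * rM Om * rM d * rM d' := by rw [e3]
      _ = (rM d)ᵀ * rM Om := by rw [Matrix.mul_assoc, e1, Matrix.mul_one]
  have e6 : rM d' * rM Z0 = rM Z0 * rM d' := by
    calc rM d' * rM Z0 = rM d' * rM Z0 * (rM d * rM d') := by rw [e1, Matrix.mul_one]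
      _ = rM d' * (rM Z0 * rM d) * rM d' := by simp only [Matrix.mul_assoc]
      _ = rM d' * (rM d * rM Z0) * rM d' := by rw [e4]
      _ = (rM d' * rM d) * rM Z0 * rM d' := by simp only [Matrix.mul_assoc]
      _ = rM Z0 * rM d' := by rw [e2, Matrix.one_mul]
  have e7 : (rM d')ᵀ * (rM d)ᵀ = 1 := by rw [← Matrix.transpose_mul, e1, Matrix.transpose_one]
  have e8 : rM Om * (rM d' * J * rM d) = (rM d)ᵀ * (rM Om * J) * rM d := by
    calc rM Om * (rM d' * J * rM d) = (rM Om * rM d') * J * rM d := by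
          simp only [Matrix.mul_assoc]
      _ = _ := by rw [e5]; simp only [Matrix.mul_assoc]
  have hinj : Function.Injective (rM d).mulVec := by
    intro x y hxy
    have : rM d' *ᵥ (rM d *ᵥ x) = rM d' *ᵥ (rM d *ᵥ y) := by
      exact congrArg (fun v => rM d' *ᵥ v) hxy
    rwa [Matrix.mulVec_mulVec, Matrix.mulVec_mulVec, e2, Matrix.one_mulVec,
      Matrix.one_mulVec] at this
  refine ⟨?_, ?_, ?_, ?_⟩
  · calc rM d' * J * rM d * (rM d' * J * rM d) = rM d' * J * (rM d * rM d') * J * rM d := by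
          simp only [Matrix.mul_assoc]
      _ = rM d' * (J * J) * rM d := by rw [e1, Matrix.mul_one]; simp only [Matrix.mul_assoc]
      _ = -1 := by rw [h.sq, Matrix.mul_neg, Matrix.mul_one, Matrix.neg_mul, e2]
  · calc (rM d' * J * rM d)ᵀ * rM Om * (rM d' * J * rM d)
        = (rM d' * J * rM d)ᵀ * (rM Om * (rM d' * J * rM d)) := by rw [Matrix.mul_assoc]
      _ = (rM d)ᵀ * Jᵀ * ((rM d')ᵀ * (rM d)ᵀ) * (rM Om * J) * rM d := by
          rw [e8, Matrix.transpose_mul, Matrix.transpose_mul]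
          simp only [Matrix.mul_assoc]
      _ = (rM d)ᵀ * (Jᵀ * rM Om * J) * rM d := by
          rw [e7, Matrix.mul_one]
          simp only [Matrix.mul_assoc]
      _ = rM Om := by rw [h.sym, e3]
  · rw [e8]
    have := h.pos.conjTranspose_mul_mul_same (B := rM d) hinj
    rwa [Matrix.conjTranspose_eq_transpose_of_trivial] at this
  · calc rM d' * J * rM d * rM Z0 = rM d' * J * (rM d * rM Z0) := by
          simp only [Matrix.mul_assoc]
      _ = rM d' * (J * rM Z0) * rM d := by rw [e4]; simp only [Matrix.mul_assoc]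
      _ = (rM d' * rM Z0) * J * rM d := by rw [h.comm]; simp only [Matrix.mul_assoc]
      _ = rM Z0 * (rM d' * J * rM d) := by rw [e6]; simp only [Matrix.mul_assoc]

end IsCplx

/-- `n` independent integer vectors of bounded length. -/
theorem exists_indep {Q : Matrix (Fin n) (Fin n) ℝ} {C : ℝ}
    (h : ∀ V : Submodule ℝ (Fin n → ℝ), V ≠ ⊤ → ∃ l : Fin n → ℤ, rv l ∉ V ∧ qf Q (rv l) ≤ C)
    (k : ℕ) (hk : k ≤ n) : ∃ b : Fin k → (Fin n → ℤ), LinearIndependent ℝ (fun i => rv (b i)) ∧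
      ∀ i, qf Q (rv (b i)) ≤ C := by
  induction k with
  | zero => exact ⟨fun i => i.elim0, linearIndependent_empty_type, fun i => i.elim0⟩
  | succ k ih =>
    obtain ⟨b, hb, hq⟩ := ih (by omega)
    have hV : Submodule.span ℝ (Set.range fun i => rv (b i)) ≠ ⊤ := by
      intro hV
      have h1 := finrank_span_eq_card hb
      rw [hV, finrank_top, finrank_fin_fun, Fintype.card_fin] at h1
      omega
    obtain ⟨l, hl, hlq⟩ := h _ hV
    refine ⟨Fin.cons l b, ?_, ?_⟩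
    · have h2 : (fun i => rv ((Fin.cons l b : Fin (k + 1) → Fin n → ℤ) i)) =
          Fin.cons (rv l) (fun i => rv (b i)) := by
        ext i : 1
        refine Fin.cases ?_ (fun j => ?_) i <;> simp
      rw [h2, linearIndependent_finCons]
      exact ⟨hb, hl⟩
    · intro i
      refine Fin.cases ?_ (fun j => ?_) i
      · simpa using hlq
      · simpa using hq j

theorem exists_basis_matrix {Q : Matrix (Fin n) (Fin n) ℝ} {C : ℝ}
    (h : ∀ V : Submodule ℝ (Fin n → ℝ), V ≠ ⊤ → ∃ l : Fin n → ℤ, rv l ∉ V ∧ qf Q (rv l) ≤ C) :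
    ∃ B : Matrix (Fin n) (Fin n) ℤ, B.det ≠ 0 ∧ ∀ j, qf Q (rv (fun i => B i j)) ≤ C := by
  obtain ⟨b, hb, hq⟩ := exists_indep h n le_rfl
  refine ⟨Matrix.of (fun i j => b j i), ?_, ?_⟩
  · intro h0
    have h1 : LinearIndependent ℝ (rM (Matrix.of (fun i j => b i j))).row := hb
    rw [Matrix.linearIndependent_rows_iff_isUnit, Matrix.isUnit_iff_isUnit_det, rM_det] at h1
    apply h1.ne_zero
    have h2 : (Matrix.of (fun i j => b j i)).det = (Matrix.of (fun i j => b i j)).det := by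
      rw [← Matrix.det_transpose]
      rfl
    rw [h2] at h0
    exact_mod_cast h0
  · intro j
    exact hq j

theorem gram_entry (B X : Matrix (Fin n) (Fin n) ℤ) (i j : Fin n) :
    (((Bᵀ * X * B) i j : ℤ) : ℝ) =
      rv (fun k => B k i) ⬝ᵥ (rM X *ᵥ rv (fun k => B k j)) := by
  rw [Matrix.mul_assoc, Matrix.mul_apply]
  simp only [Matrix.transpose_apply, Matrix.mul_apply, Int.cast_sum, Int.cast_mul]
  rfl

/-- The set of integer matrices with bounded entries is finite. -/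
theorem finite_box (K : ℤ) : {G : Matrix (Fin n) (Fin n) ℤ | ∀ i j, |G i j| ≤ K}.Finite := by
  refine Set.Finite.subset (Set.finite_Icc (α := Fin n → Fin n → ℤ) (fun _ _ => -K)
    (fun _ _ => K)) ?_
  intro G hG
  exact ⟨fun i j => (abs_le.mp (hG i j)).1, fun i j => (abs_le.mp (hG i j)).2⟩

/-- The data of a basis matrix: two Gram matrices and the class modulo `M`. -/
def cls (Om Z0 : Matrix (Fin n) (Fin n) ℤ) (M : ℕ) (B : Matrix (Fin n) (Fin n) ℤ) :
    Matrix (Fin n) (Fin n) ℤ × Matrix (Fin n) (Fin n) ℤ × Matrix (Fin n) (Fin n) (ZMod M) :=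
  (Bᵀ * Om * B, Bᵀ * (Om * Z0) * B, B.map (fun x => (x : ZMod M)))

/-- Two bases with the same data differ by an isometry congruent to one. -/
theorem exists_isometry {Om Z0 : Matrix (Fin n) (Fin n) ℤ} (hOm : Om.det ≠ 0) {M : ℕ} {N : ℤ}
    {B B₀ : Matrix (Fin n) (Fin n) ℤ} (hB₀ : B₀.det ≠ 0)
    (hM : N * B₀.det ∣ (M : ℤ)) (hcls : cls Om Z0 M B = cls Om Z0 M B₀) :
    ∃ d d' : Matrix (Fin n) (Fin n) ℤ, d * d' = 1 ∧ d' * d = 1 ∧ (∃ X, d = 1 + N • X) ∧
      dᵀ * Om * d = Om ∧ d * Z0 = Z0 * d ∧ d * B₀ = B := by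
  simp only [cls, Prod.mk.injEq] at hcls
  obtain ⟨h1, h2, h3⟩ := hcls
  have h4 : ∀ i j, (M : ℤ) ∣ B i j - B₀ i j := by
    intro i j
    have := congrFun (congrFun h3 i) j
    simp only [Matrix.map_apply] at this
    rw [← ZMod.intCast_zmod_eq_zero_iff_dvd] at *
    push_cast
    rw [this, sub_self]
  choose Y hY using h4
  obtain ⟨w, hw⟩ := hM
  have hY' : B = B₀ + (M : ℤ) • Matrix.of Y := by
    ext i j
    have := hY i j
    simp only [Matrix.add_apply, Matrix.smul_apply, Matrix.of_apply, smul_eq_mul]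
    linarith
  set d : Matrix (Fin n) (Fin n) ℤ := 1 + N • (w • (Matrix.of Y * B₀.adjugate)) with hd
  have hdB : d * B₀ = B := by
    rw [hd, Matrix.add_mul, Matrix.one_mul, Matrix.smul_mul, Matrix.smul_mul, Matrix.mul_assoc,
      Matrix.adjugate_mul, Matrix.mul_smul, Matrix.mul_one, hY', hw, smul_smul, smul_smul]
    congr 2
    ring
  have hOmd : dᵀ * Om * d = Om := by
    apply cancelR hB₀
    apply cancelL (B := B₀ᵀ) (by rwa [Matrix.det_transpose])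
    rw [← hdB, Matrix.transpose_mul] at h1
    calc B₀ᵀ * (dᵀ * Om * d * B₀) = B₀ᵀ * dᵀ * Om * (d * B₀) := by
          simp only [Matrix.mul_assoc]
      _ = B₀ᵀ * Om * B₀ := h1
      _ = B₀ᵀ * (Om * B₀) := by rw [Matrix.mul_assoc]
  have hdet : d.det * d.det = 1 := by
    have h5 := congrArg Matrix.det hOmd
    rw [Matrix.det_mul, Matrix.det_mul, Matrix.det_transpose] at h5
    apply mul_right_cancel₀ hOm
    linarith
  have hu : IsUnit d.det := IsUnit.of_mul_eq_one _ hdet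
  have hZd : dᵀ * (Om * Z0) * d = Om * Z0 := by
    apply cancelR hB₀
    apply cancelL (B := B₀ᵀ) (by rwa [Matrix.det_transpose])
    rw [← hdB, Matrix.transpose_mul] at h2
    calc B₀ᵀ * (dᵀ * (Om * Z0) * d * B₀) = B₀ᵀ * dᵀ * (Om * Z0) * (d * B₀) := by
          simp only [Matrix.mul_assoc]
      _ = B₀ᵀ * (Om * Z0) * B₀ := h2
      _ = B₀ᵀ * (Om * Z0 * B₀) := by rw [Matrix.mul_assoc]
  refine ⟨d, d⁻¹, Matrix.mul_nonsing_inv d hu, Matrix.nonsing_inv_mul d hu, ⟨_, hd⟩, hOmd, ?_, hdB⟩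
  apply cancelL (B := dᵀ * Om)
  · rw [Matrix.det_mul, Matrix.det_transpose]
    exact mul_ne_zero hu.ne_zero hOm
  · calc dᵀ * Om * (d * Z0) = dᵀ * Om * d * Z0 := by simp only [Matrix.mul_assoc]
      _ = Om * Z0 := by rw [hOmd]
      _ = dᵀ * (Om * Z0) * d := hZd.symm
      _ = dᵀ * Om * (Z0 * d) := by simp only [Matrix.mul_assoc]

theorem entry_bound (P R S : Matrix (Fin n) (Fin n) ℝ) {C : ℝ} (hR : ∀ i j, |R i j| ≤ C)
    (i j : Fin n) :
    |(P * R * S) i j| ≤ (∑ i, ∑ k, |P i k|) * C * (∑ l, ∑ j, |S l j|) := by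
  have hC : 0 ≤ C := (abs_nonneg _).trans (hR i j)
  have h1 : ∀ l, |(P * R) i l| ≤ (∑ i, ∑ k, |P i k|) * C := by
    intro l
    rw [Matrix.mul_apply]
    calc |∑ k, P i k * R k l| ≤ ∑ k, |P i k * R k l| := Finset.abs_sum_le_sum_abs _ _
      _ ≤ ∑ k, |P i k| * C := by
          refine Finset.sum_le_sum fun k _ => ?_
          rw [abs_mul]
          exact mul_le_mul_of_nonneg_left (hR k l) (abs_nonneg _)
      _ = (∑ k, |P i k|) * C := by rw [Finset.sum_mul]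
      _ ≤ (∑ i, ∑ k, |P i k|) * C := by
          refine mul_le_mul_of_nonneg_right ?_ hC
          exact Finset.single_le_sum (f := fun i => ∑ k, |P i k|)
            (fun i _ => Finset.sum_nonneg fun k _ => abs_nonneg _) (Finset.mem_univ i)
  have h2 : 0 ≤ (∑ i, ∑ k, |P i k|) * C := (abs_nonneg _).trans (h1 i)
  rw [Matrix.mul_apply]
  calc |∑ l, (P * R) i l * S l j| ≤ ∑ l, |(P * R) i l * S l j| := Finset.abs_sum_le_sum_abs _ _
    _ ≤ ∑ l, (∑ i, ∑ k, |P i k|) * C * |S l j| := by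
        refine Finset.sum_le_sum fun l _ => ?_
        rw [abs_mul]
        exact mul_le_mul_of_nonneg_right (h1 l) (abs_nonneg _)
    _ = (∑ i, ∑ k, |P i k|) * C * ∑ l, |S l j| := by rw [Finset.mul_sum]
    _ ≤ (∑ i, ∑ k, |P i k|) * C * (∑ l, ∑ j, |S l j|) := by
        refine mul_le_mul_of_nonneg_left ?_ h2
        refine Finset.sum_le_sum fun l _ => ?_
        exact Finset.single_le_sum (f := fun j => |S l j|) (fun j _ => abs_nonneg _)
          (Finset.mem_univ j)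

theorem gram_entry_real (B : Matrix (Fin n) (Fin n) ℤ) (X : Matrix (Fin n) (Fin n) ℝ)
    (i j : Fin n) :
    ((rM B)ᵀ * X * rM B) i j =
      rv (fun k => B k i) ⬝ᵥ (X *ᵥ rv (fun k => B k j)) := by
  rw [Matrix.mul_assoc, Matrix.mul_apply]
  simp only [Matrix.mul_apply]
  rfl

/-- The bounded conjugate for one class. -/
theorem class_bound {Om Z0 : Matrix (Fin n) (Fin n) ℤ} (hOm : Om.det ≠ 0) {M : ℕ} {N : ℤ}
    {B₀ : Matrix (Fin n) (Fin n) ℤ} (hB₀ : B₀.det ≠ 0)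
    (hM : N * B₀.det ∣ (M : ℤ)) {C : ℝ} (hC : 0 ≤ C) :
    ∃ K : ℝ, ∀ J B, IsCplx Om Z0 J → (∀ j, qf (rM Om * J) (rv (fun i => B i j)) ≤ C) →
      cls Om Z0 M B = cls Om Z0 M B₀ →
      ∃ d d' : Matrix (Fin n) (Fin n) ℤ, d * d' = 1 ∧ d' * d = 1 ∧ (∃ X, d = 1 + N • X) ∧
      dᵀ * Om * d = Om ∧ d * Z0 = Z0 * d ∧ IsCplx Om Z0 (rM d' * J * rM d) ∧
      ∀ i j, |(rM d' * J * rM d) i j| ≤ K := by
  have hdO : IsUnit (rM Om).det := by
    rw [rM_det]
    exact isUnit_iff_ne_zero.mpr (by exact_mod_cast hOm)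
  have hdB : IsUnit (rM B₀).det := by
    rw [rM_det]
    exact isUnit_iff_ne_zero.mpr (by exact_mod_cast hB₀)
  have hdBt : IsUnit ((rM B₀)ᵀ).det := by rwa [Matrix.det_transpose]
  refine ⟨(∑ i, ∑ k, |((rM Om)⁻¹ * ((rM B₀)ᵀ)⁻¹) i k|) * C *
    (∑ l, ∑ j, |((rM B₀)⁻¹) l j|), fun J B hJ hq hcls => ?_⟩
  · obtain ⟨d, d', h1, h2, h3, h4, h5, h6⟩ := exists_isometry hOm hB₀ hM hcls
    have hJ' := hJ.conj h1 h2 h4 h5
    refine ⟨d, d', h1, h2, h3, h4, h5, hJ', ?_⟩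
    have hq' : ∀ j, qf (rM Om * (rM d' * J * rM d)) (rv (fun i => B₀ i j)) ≤ C := by
      intro j
      have e1 : rM Om * (rM d' * J * rM d) = (rM d)ᵀ * (rM Om * J) * rM d := by
        have e2 : (rM d)ᵀ * rM Om * rM d = rM Om := by
          rw [← rM_transpose, ← map_mul, ← map_mul, h4]
        calc rM Om * (rM d' * J * rM d) = (rM d)ᵀ * rM Om * (rM d * rM d') * J * rM d := by
              conv_lhs => rw [← e2]
              simp only [Matrix.mul_assoc]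
          _ = (rM d)ᵀ * (rM Om * J) * rM d := by
              rw [← map_mul, h1, map_one, Matrix.mul_one]
              simp only [Matrix.mul_assoc]
      rw [e1, ← qf_mulVec, ← rv_mulVec]
      have e3 : d *ᵥ (fun i => B₀ i j) = fun i => B i j := by
        rw [← h6]
        ext i
        rfl
      rw [e3]
      exact hq j
    have hR : ∀ i j, |((rM B₀)ᵀ * (rM Om * (rM d' * J * rM d)) * rM B₀) i j| ≤ C := by
      intro i j
      rw [gram_entry_real]
      exact abs_le_of_qf hJ'.pos hC (hq' i) (hq' j)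
    intro i j
    have e4 : rM d' * J * rM d = ((rM Om)⁻¹ * ((rM B₀)ᵀ)⁻¹) *
        ((rM B₀)ᵀ * (rM Om * (rM d' * J * rM d)) * rM B₀) * (rM B₀)⁻¹ := by
      generalize rM d' * J * rM d = J'
      calc J' = (rM Om)⁻¹ * rM Om * J' := by
            rw [Matrix.nonsing_inv_mul _ hdO, Matrix.one_mul]
        _ = (rM Om)⁻¹ * (((rM B₀)ᵀ)⁻¹ * (rM B₀)ᵀ) * rM Om * J' * (rM B₀ * (rM B₀)⁻¹) := by
            rw [Matrix.nonsing_inv_mul _ hdBt, Matrix.mul_nonsing_inv _ hdB, Matrix.mul_one,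
              Matrix.mul_one]
        _ = _ := by simp only [Matrix.mul_assoc]
    rw [e4]
    exact entry_bound _ _ _ hR i j

/-- **Block D1.**  Compactness of the space of positive complex structures modulo the
congruence subgroup of level `N` of the isometries commuting with `Z0`. -/
theorem compactness {Om Z0 : Matrix (Fin n) (Fin n) ℤ} (hOm : Om.det ≠ 0)
    (hZ : Z0ᵀ * Om * Z0 = Om) {c : ℝ} (hc : 0 < c)
    (anis : ∀ J, IsCplx Om Z0 J → ∀ l : Fin n → ℤ, l ≠ 0 → c ≤ qf (rM Om * J) (rv l))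
    {N : ℤ} (hN : N ≠ 0) :
    ∃ C : ℝ, ∀ J, IsCplx Om Z0 J →
      ∃ d d' : Matrix (Fin n) (Fin n) ℤ, d * d' = 1 ∧ d' * d = 1 ∧ (∃ X, d = 1 + N • X) ∧
      dᵀ * Om * d = Om ∧ d * Z0 = Z0 * d ∧ IsCplx Om Z0 (rM d' * J * rM d) ∧
      ∀ i j, |(rM d' * J * rM d) i j| ≤ C := by
  obtain ⟨C0, hC0, hMink⟩ := minkowski_outside n c |(Om.det : ℝ)| hc
  set K : ℤ := ⌈C0⌉ with hK
  have hbox := finite_box (n := n) K
  obtain ⟨K1, hK1⟩ : ∃ K1 : ℕ, ∀ G : Matrix (Fin n) (Fin n) ℤ, (∀ i j, |G i j| ≤ K) →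
      G.det.natAbs ≤ K1 := by
    have h1 := (hbox.image fun G => G.det.natAbs).bddAbove
    obtain ⟨K1, hK1⟩ := h1
    exact ⟨K1, fun G hG => hK1 ⟨G, hG, rfl⟩⟩
  set M : ℕ := N.natAbs * K1.factorial with hM
  have hM0 : M ≠ 0 := by
    rw [hM]
    exact mul_ne_zero (Int.natAbs_ne_zero.mpr hN) (Nat.factorial_ne_zero _)
  have : NeZero M := ⟨hM0⟩
  -- the data of a good basis
  have key : ∀ J, IsCplx Om Z0 J → ∀ B : Matrix (Fin n) (Fin n) ℤ, B.det ≠ 0 →
      (∀ j, qf (rM Om * J) (rv (fun i => B i j)) ≤ C0) →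
      N * B.det ∣ (M : ℤ) ∧ (∀ i j, |(Bᵀ * Om * B) i j| ≤ K) ∧
        ∀ i j, |(Bᵀ * (Om * Z0) * B) i j| ≤ K := by
    intro J hJ B hB hq
    have h1 : ∀ i j, |(Bᵀ * Om * B) i j| ≤ K := by
      intro i j
      have h2 := hJ.abs_E_le hC0.le (hq i) (hq j)
      rw [← gram_entry] at h2
      have h3 : ((|(Bᵀ * Om * B) i j| : ℤ) : ℝ) ≤ (K : ℝ) := by
        push_cast
        exact h2.trans (Int.le_ceil C0)
      exact_mod_cast h3
    have h1' : ∀ i j, |(Bᵀ * (Om * Z0) * B) i j| ≤ K := by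
      intro i j
      have h2 := hJ.abs_E_le hC0.le (hq i)
        (by rw [hJ.qf_Z hZ]; exact hq j :
          qf (rM Om * J) (rM Z0 *ᵥ rv (fun k => B k j)) ≤ C0)
      rw [Matrix.mulVec_mulVec, ← map_mul, ← gram_entry] at h2
      have h3 : ((|(Bᵀ * (Om * Z0) * B) i j| : ℤ) : ℝ) ≤ (K : ℝ) := by
        push_cast
        exact h2.trans (Int.le_ceil C0)
      exact_mod_cast h3
    refine ⟨?_, h1, h1'⟩
    have h4 := hK1 _ h1
    rw [Matrix.det_mul, Matrix.det_mul, Matrix.det_transpose, Int.natAbs_mul, Int.natAbs_mul] at h4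
    have h5 : 1 ≤ B.det.natAbs := Nat.one_le_iff_ne_zero.mpr (Int.natAbs_ne_zero.mpr hB)
    have h6 : 1 ≤ Om.det.natAbs := Nat.one_le_iff_ne_zero.mpr (Int.natAbs_ne_zero.mpr hOm)
    have h7 : B.det.natAbs ≤ K1 := by
      calc B.det.natAbs = B.det.natAbs * 1 * 1 := by ring
        _ ≤ B.det.natAbs * Om.det.natAbs * B.det.natAbs := by gcongr
        _ ≤ K1 := h4
    have h8 : B.det.natAbs ∣ K1.factorial := Nat.dvd_factorial (by omega) h7
    rw [hM]
    push_cast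
    apply mul_dvd_mul
    · exact (Int.dvd_natAbs).mpr (dvd_refl N) |>.trans (by simp)
    · rw [← Int.natAbs_dvd]
      exact_mod_cast h8
  have per : ∀ t, ∃ Kt : ℝ, ∀ J B, IsCplx Om Z0 J → B.det ≠ 0 →
      (∀ j, qf (rM Om * J) (rv (fun i => B i j)) ≤ C0) → cls Om Z0 M B = t →
      ∃ d d' : Matrix (Fin n) (Fin n) ℤ, d * d' = 1 ∧ d' * d = 1 ∧ (∃ X, d = 1 + N • X) ∧
      dᵀ * Om * d = Om ∧ d * Z0 = Z0 * d ∧ IsCplx Om Z0 (rM d' * J * rM d) ∧
      ∀ i j, |(rM d' * J * rM d) i j| ≤ Kt := by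
    intro t
    by_cases h : ∃ J B, IsCplx Om Z0 J ∧ B.det ≠ 0 ∧
      (∀ j, qf (rM Om * J) (rv (fun i => B i j)) ≤ C0) ∧ cls Om Z0 M B = t
    · obtain ⟨J1, B0, hJ1, hB0, hq1, ht⟩ := h
      obtain ⟨Kt, hKt⟩ := class_bound (Z0 := Z0) hOm hB0 (key J1 hJ1 B0 hB0 hq1).1 hC0.le
      exact ⟨Kt, fun J B hJ hB hq hc => hKt J B hJ hq (hc.trans ht.symm)⟩
    · exact ⟨0, fun J B hJ hB hq hc => absurd ⟨J, B, hJ, hB, hq, hc⟩ h⟩
  choose Kt hKt using per
  have Tf : ({G : Matrix (Fin n) (Fin n) ℤ | ∀ i j, |G i j| ≤ K} ×ˢ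
      ({G : Matrix (Fin n) (Fin n) ℤ | ∀ i j, |G i j| ≤ K} ×ˢ
        (Set.univ : Set (Matrix (Fin n) (Fin n) (ZMod M))))).Finite :=
    hbox.prod (hbox.prod Set.finite_univ)
  refine ⟨∑ t ∈ Tf.toFinset, |Kt t|, fun J hJ => ?_⟩
  obtain ⟨B, hB, hq⟩ := exists_basis_matrix (hMink (rM Om * J) hJ.pos hJ.det_le (anis J hJ))
  obtain ⟨d, d', h1, h2, h3, h4, h5, h6, h7⟩ := hKt _ J B hJ hB hq rfl
  refine ⟨d, d', h1, h2, h3, h4, h5, h6, fun i j => (h7 i j).trans ?_⟩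
  have hmem : cls Om Z0 M B ∈ Tf.toFinset := by
    rw [Set.Finite.mem_toFinset]
    have := key J hJ B hB hq
    exact ⟨this.2.1, this.2.2, Set.mem_univ _⟩
  calc Kt (cls Om Z0 M B) ≤ |Kt (cls Om Z0 M B)| := le_abs_self _
    _ ≤ _ := Finset.single_le_sum (f := fun t => |Kt t|) (fun t _ => abs_nonneg _) hmem

end Pool.Agent.Helper75.SH
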