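import Pool.Agent.Helper94.SH.Qd

/-! Block D1 of project ALLQ in quaternion form.  Part 1: Minkowski for `O_K^2`. -/

open Module MeasureTheory NumberField

namespace Pool.Agent.Helper75.SH

open Pool.Agent.Helper94.SH

/-- Minkowski for a lattice spanned by a basis, uniformly in maps of determinant one. -/
theorem minkowski_basis {E : Type*} [NormedAddCommGroup E] [NormedSpace ℝ E] [MeasurableSpace E]
    [BorelSpace E] [FiniteDimensional ℝ E] [Nontrivial E] (μ : Measure E) [μ.IsAddHaarMeasure]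
    {J : Type*} [Finite J] (b : Basis J ℝ E) :
    ∃ M0 : ℝ, 0 < M0 ∧ ∀ G : E →ₗ[ℝ] E, |LinearMap.det G| = 1 →
      ∃ x ∈ Submodule.span ℤ (Set.range b), x ≠ 0 ∧ ‖G x‖ < M0 := by
  classical
  have fund := ZSpan.isAddFundamentalDomain' b μ
  have hF : μ (ZSpan.fundamentalDomain b) ≠ ⊤ :=
    (ZSpan.fundamentalDomain_isBounded b).measure_lt_top.ne
  have hB : μ (Metric.ball (0 : E) 1) ≠ ⊤ := Metric.isBounded_ball.measure_lt_top.ne
  have hB0 : 0 < μ (Metric.ball (0 : E) 1) := Metric.measure_ball_pos μ 0 one_pos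
  set f : ℝ := (μ (ZSpan.fundamentalDomain b)).toReal with hf
  set β : ℝ := (μ (Metric.ball (0 : E) 1)).toReal with hβ
  have hβ0 : 0 < β := ENNReal.toReal_pos hB0.ne' hB
  have hf0 : 0 ≤ f := ENNReal.toReal_nonneg
  set M0 : ℝ := 2 * (1 + f / β) with hM0
  have hr0 : 0 ≤ f / β := by positivity
  refine ⟨M0, by positivity, fun G hG => ?_⟩
  have hG0 : LinearMap.det G ≠ 0 := by
    intro h
    rw [h, abs_zero] at hG
    exact zero_ne_one hG
  have hn : 1 ≤ finrank ℝ E := finrank_pos
  have hlt : μ (ZSpan.fundamentalDomain b) * 2 ^ finrank ℝ E <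
      μ (G ⁻¹' (Metric.ball 0 M0)) := by
    rw [Measure.addHaar_preimage_linearMap μ hG0, abs_inv, hG, inv_one, ENNReal.ofReal_one,
      one_mul, Measure.addHaar_ball μ _ (by positivity), ← ENNReal.ofReal_toReal hF,
      ← ENNReal.ofReal_toReal hB, ← hf, ← hβ]
    have h2 : (2 : ENNReal) ^ finrank ℝ E = ENNReal.ofReal ((2 : ℝ) ^ finrank ℝ E) := by
      rw [ENNReal.ofReal_pow (by norm_num)]
      norm_num
    rw [h2, ← ENNReal.ofReal_mul hf0, ← ENNReal.ofReal_mul (by positivity),
      ENNReal.ofReal_lt_ofReal_iff (by positivity)]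
    have h3 : M0 ^ finrank ℝ E = 2 ^ finrank ℝ E * (1 + f / β) ^ finrank ℝ E := by
      rw [hM0, mul_pow]
    have h4 : 1 + f / β ≤ (1 + f / β) ^ finrank ℝ E :=
      le_self_pow₀ (by linarith) (by omega)
    have h5 : (0 : ℝ) < 2 ^ finrank ℝ E := by positivity
    have h6 : f = f / β * β := by field_simp
    have h7 : f < (1 + f / β) ^ finrank ℝ E * β := by
      calc f = f / β * β := h6
        _ < (1 + f / β) * β := by nlinarith
        _ ≤ (1 + f / β) ^ finrank ℝ E * β := by gcongr
    rw [h3]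
    nlinarith
  have hcount : Countable (Submodule.span ℤ (Set.range b)).toAddSubgroup := by
    change Countable (Submodule.span ℤ (Set.range b))
    infer_instance
  obtain ⟨x, hx0, hxs⟩ := exists_ne_zero_mem_lattice_of_measure_mul_two_pow_lt_measure
    (μ := μ) (s := G ⁻¹' (Metric.ball 0 M0)) fund (by
      intro x hx
      simpa using hx) (by
      exact (convex_ball _ _).linear_preimage _) hlt
  refine ⟨x, x.2, fun h => hx0 (Subtype.ext h), ?_⟩
  simpa using hxs

variable {K : Type*} [Field K] [NumberField K] {ι : Type*} [Fintype ι]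

/-- The real coordinates of a number given by one embedding of each conjugate pair. -/
theorem exists_real_basis (s : ι → (K →+* ℂ))
    (hs : ∀ φ : K →+* ℂ, ∃ v, φ = s v ∨ φ = cc.comp (s v))
    (hcard : 2 * Fintype.card ι = finrank ℚ K) :
    ∃ b : Basis (Free.ChooseBasisIndex ℤ (𝓞 K)) ℝ (ι → ℂ),
      ∀ j, b j = fun v => s v (integralBasis K j) := by
  classical
  have hli : LinearIndependent ℝ
      (fun j : Free.ChooseBasisIndex ℤ (𝓞 K) => fun v => s v (integralBasis K j)) := by
    rw [Fintype.linearIndependent_iff]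
    intro g hg j
    have h1 := (canonicalEmbedding.latticeBasis K).linearIndependent
    rw [Fintype.linearIndependent_iff] at h1
    have h2 := h1 (fun j => (g j : ℂ)) (by
      ext φ
      simp only [canonicalEmbedding.latticeBasis_apply, Finset.sum_apply, Pi.smul_apply,
        canonicalEmbedding.apply_at, smul_eq_mul, Pi.zero_apply]
      obtain ⟨v, rfl | rfl⟩ := hs φ
      · have := congrFun hg v
        simpa using this
      · have := congrFun hg v
        have h3 := congrArg cc this
        simpa using h3) j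
    exact_mod_cast h2
  have hc : Fintype.card (Free.ChooseBasisIndex ℤ (𝓞 K)) = finrank ℝ (ι → ℂ) := by
    rw [Module.finrank_pi_fintype]
    simp only [Complex.finrank_real_complex, Finset.sum_const, Finset.card_univ, smul_eq_mul]
    rw [mul_comm, hcard, finrank_eq_card_basis (integralBasis K)]
  have : Nonempty (Free.ChooseBasisIndex ℤ (𝓞 K)) := by
    rw [← Fintype.card_pos_iff, ← finrank_eq_card_basis (integralBasis K)]
    exact finrank_pos
  refine ⟨basisOfLinearIndependentOfCardEqFinrank hli hc, fun j => ?_⟩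
  simp

/-- Pairs of functions and functions to pairs. -/
def pairEquiv (ι : Type*) : ((ι → ℂ) × (ι → ℂ)) ≃ₗ[ℝ] (ι → ℂ × ℂ) where
  toFun x := fun v => (x.1 v, x.2 v)
  invFun x := (fun v => (x v).1, fun v => (x v).2)
  map_add' _ _ := rfl
  map_smul' _ _ := rfl
  left_inv _ := rfl
  right_inv _ := rfl

/-- **Minkowski for `O_K^2`**, uniformly in the real linear maps of determinant `± 1`. -/
theorem minkowski_OK (s : ι → (K →+* ℂ))
    (hs : ∀ φ : K →+* ℂ, ∃ v, φ = s v ∨ φ = cc.comp (s v))
    (hcard : 2 * Fintype.card ι = finrank ℚ K) :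
    ∃ M0 : ℝ, 0 < M0 ∧ ∀ G : (ι → ℂ × ℂ) →ₗ[ℝ] (ι → ℂ × ℂ), |LinearMap.det G| = 1 →
      ∃ l : 𝓞 K × 𝓞 K, l ≠ 0 ∧ ∀ v, ‖G (fun w => (s w l.1, s w l.2)) v‖ < M0 := by
  classical
  obtain ⟨e, he⟩ := exists_real_basis s hs hcard
  set b := (e.prod e).map (pairEquiv ι) with hb
  have hne : Nonempty ι := by
    rw [← Fintype.card_pos_iff]
    have : 0 < finrank ℚ K := finrank_pos
    omega
  obtain ⟨M0, hM0, h⟩ := minkowski_basis (Measure.addHaar : Measure (ι → ℂ × ℂ)) b
  refine ⟨M0, hM0, fun G hG => ?_⟩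
  obtain ⟨x, hx, hx0, hxG⟩ := h G hG
  have hmem : ∀ x ∈ Submodule.span ℤ (Set.range b), ∃ l : 𝓞 K × 𝓞 K,
      x = fun w => (s w l.1, s w l.2) := by
    intro x hx
    induction hx using Submodule.span_induction with
    | mem x hx =>
      obtain ⟨j, rfl⟩ := hx
      rcases j with j | j
      · refine ⟨(RingOfIntegers.basis K j, 0), ?_⟩
        ext w
        · simp [hb, pairEquiv, he, integralBasis_apply]
        · simp [hb, pairEquiv, he, integralBasis_apply]
      · refine ⟨(0, RingOfIntegers.basis K j), ?_⟩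
        ext w
        · simp [hb, pairEquiv, he, integralBasis_apply]
        · simp [hb, pairEquiv, he, integralBasis_apply]
    | zero => exact ⟨0, by ext w <;> simp⟩
    | add x y _ _ hx hy =>
      obtain ⟨l, rfl⟩ := hx
      obtain ⟨m, rfl⟩ := hy
      exact ⟨l + m, by ext w <;> simp⟩
    | smul a x _ hx =>
      obtain ⟨l, rfl⟩ := hx
      exact ⟨a • l, by ext w <;> simp⟩
  obtain ⟨l, rfl⟩ := hmem x hx
  refine ⟨l, ?_, fun v => ?_⟩
  · rintro rfl
    apply hx0
    ext w <;> simp
  · exact (norm_le_pi_norm _ v).trans_lt hxG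

end Pool.Agent.Helper75.SH
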