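import Pool.Agent.Helper75.SH.D3

/-! Block D1 of project ALLQ in quaternion form.  Part 2: algebra and the compactness theorem. -/

open Module MeasureTheory NumberField

namespace Pool.Agent.Helper75.SH

open Pool.Agent.Helper94.SH

section ring

variable {A : Type*} [CommRing A] (c : A →+* A) (κ : A)

/-- The adjoint vector. -/
def ad (b : A × A) : A × A := (c b.1, -b.2)

theorem act_gam_ad (b : A × A) : act (gam c κ b) (ad c b) = (nrd c κ b, 0) := by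
  refine Prod.ext ?_ ?_
  · simp only [act, gam_00, gam_01, ad, nrd]
    ring
  · simp only [act, gam_10, gam_11, ad]
    ring

theorem gam_ad_mul (hc : ∀ x, c (c x) = x) (b : A × A) :
    gam c κ (ad c b) * gam c κ b = nrd c κ b • 1 := by
  ext i j
  fin_cases i <;> fin_cases j <;>
    simp [Matrix.mul_apply, Fin.sum_univ_two, ad, hc, nrd] <;> ring

theorem gam_mul_ad (hc : ∀ x, c (c x) = x) (b : A × A) :
    gam c κ b * gam c κ (ad c b) = nrd c κ b • 1 := by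
  ext i j
  fin_cases i <;> fin_cases j <;>
    simp [Matrix.mul_apply, Fin.sum_univ_two, ad, hc, nrd] <;> ring

theorem nrd_ad (hc : ∀ x, c (c x) = x) (b : A × A) : nrd c κ (ad c b) = nrd c κ b := by
  simp only [nrd, ad, hc, map_neg]
  ring

theorem act_smul_one (t : A) (x : A × A) : act (t • (1 : Matrix (Fin 2) (Fin 2) A)) x = t • x := by
  refine Prod.ext ?_ ?_ <;> simp [act]

theorem act_one (x : A × A) : act (1 : Matrix (Fin 2) (Fin 2) A) x = x := by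
  refine Prod.ext ?_ ?_ <;> simp [act]

theorem act_smul (M : Matrix (Fin 2) (Fin 2) A) (t : A) (x : A × A) :
    act M (t • x) = t • act M x := by
  refine Prod.ext ?_ ?_ <;> simp [act] <;> ring

theorem smul_act (M : Matrix (Fin 2) (Fin 2) A) (t : A) (x : A × A) :
    act (t • M) x = t • act M x := by
  refine Prod.ext ?_ ?_ <;> simp [act] <;> ring

theorem gam_smul {t : A} (ht : c t = t) (b : A × A) : gam c κ (t • b) = t • gam c κ b := by
  ext i j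
  fin_cases i <;> fin_cases j <;> simp [ht]
  ring

theorem nrd_smul {t : A} (ht : c t = t) (b : A × A) : nrd c κ (t • b) = t ^ 2 * nrd c κ b := by
  simp only [nrd, Prod.smul_fst, Prod.smul_snd, smul_eq_mul, map_mul, ht]
  ring

theorem act_add (M : Matrix (Fin 2) (Fin 2) A) (x y : A × A) :
    act M (x + y) = act M x + act M y := by
  refine Prod.ext ?_ ?_ <;> simp [act] <;> ring

/-- The vector of the quotient `gam l * (gam l0)⁻¹` sends `(gam l0)(ad x)/β` to `b`. -/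
theorem act_quot {F : Type*} [Field F] (c : F →+* F) (κ : F) (hc : ∀ x, c (c x) = x)
    (hκ : c κ = κ) {β : F} (hβ : β ≠ 0) (hcβ : c β = β) {l l0 x b : F × F}
    (hl0 : nrd c κ l0 = β) (hl : l = act (gam c κ b) x) (hx : nrd c κ x = β) :
    act (gam c κ (β⁻¹ • act (gam c κ l) (ad c l0))) (β⁻¹ • act (gam c κ l0) (ad c x)) = b := by
  have hcβ' : c β⁻¹ = β⁻¹ := by rw [map_inv₀, hcβ]
  rw [gam_smul c κ hcβ', smul_act, act_smul, ← gam_mul c κ hc hκ, act_mul, ← act_mul _ _ (ad c x),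
    gam_ad_mul c κ hc, act_smul_one, act_smul, hl0, hl, ← gam_mul c κ hc hκ, act_mul, act_gam_ad,
    hx]
  have h1 : act (gam c κ b) (β, 0) = β • b := by
    refine Prod.ext ?_ ?_ <;> simp [act] <;> ring
  rw [h1, smul_smul, smul_smul, smul_smul]
  have : β⁻¹ * β⁻¹ * β * β = 1 := by field_simp
  rw [this, one_smul]

end ring

section real

/-- The real linear map of a complex matrix. -/
noncomputable def actR (M : Matrix (Fin 2) (Fin 2) ℂ) : (ℂ × ℂ) →ₗ[ℝ] (ℂ × ℂ) :=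
  (Matrix.toLin (Basis.finTwoProd ℂ) (Basis.finTwoProd ℂ) M).restrictScalars ℝ

theorem actR_apply (M : Matrix (Fin 2) (Fin 2) ℂ) (x : ℂ × ℂ) : actR M x = act M x := by
  rw [actR, LinearMap.restrictScalars_apply, Matrix.eta_fin_two M, Matrix.toLin_finTwoProd_apply]
  rfl

theorem det_actR (M : Matrix (Fin 2) (Fin 2) ℂ) :
    LinearMap.det (actR M) = Algebra.norm ℝ M.det := by
  rw [actR, LinearMap.det_restrictScalars, LinearMap.det_toLin]

variable {ι : Type*} [Fintype ι]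

theorem det_block (M : ι → Matrix (Fin 2) (Fin 2) ℂ) (hM : ∀ v, (M v).det = 1) :
    LinearMap.det (LinearMap.pi (fun v => (actR (M v)).comp (LinearMap.proj v)) :
      (ι → ℂ × ℂ) →ₗ[ℝ] (ι → ℂ × ℂ)) = 1 := by
  rw [LinearMap.det_pi]
  simp [det_actR, hM]

end real

section main

variable {K : Type*} [Field K] [NumberField K] {ι : Type*} [Fintype ι]

/-- A short vector of `O_K^2` seen from the point `b`. -/
theorem exists_short (s : ι → (K →+* ℂ))
    (hs : ∀ φ : K →+* ℂ, ∃ v, φ = s v ∨ φ = cc.comp (s v))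
    (hcard : 2 * Fintype.card ι = finrank ℚ K) (κ : K) :
    ∃ M0 : ℝ, 0 < M0 ∧ ∀ b : ι → ℂ × ℂ, (∀ v, nrd cc (s v κ) (b v) = 1) →
      ∃ l : 𝓞 K × 𝓞 K, l ≠ 0 ∧ ∃ x : ι → ℂ × ℂ, (∀ v, ‖x v‖ < M0) ∧
        ∀ v, (s v l.1, s v l.2) = act (gam cc (s v κ) (b v)) (x v) := by
  obtain ⟨M0, hM0, h⟩ := minkowski_OK s hs hcard
  refine ⟨M0, hM0, fun b hb => ?_⟩
  have hcc : ∀ x : ℂ, cc (cc x) = x := Complex.conj_conj
  obtain ⟨l, hl, hx⟩ := h (LinearMap.pi (fun v =>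
    (actR (gam cc (s v κ) (ad cc (b v)))).comp (LinearMap.proj v))) (by
      rw [det_block _ (fun v => by rw [det_gam, nrd_ad cc _ hcc, hb v]), abs_one])
  refine ⟨l, hl, fun v => act (gam cc (s v κ) (ad cc (b v))) (s v l.1, s v l.2), ?_, ?_⟩
  · intro v
    have := hx v
    simpa [actR_apply] using this
  · intro v
    rw [← act_mul, gam_mul_ad cc _ hcc, hb v, one_smul, act_one]

theorem exists_den (x : K) : ∃ m : ℤ, m ≠ 0 ∧ IsIntegral ℤ ((m : K) * x) := by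
  have h1 : IsAlgebraic ℤ x :=
    (IsFractionRing.isAlgebraic_iff ℤ ℚ K).mpr (Algebra.IsAlgebraic.isAlgebraic x)
  obtain ⟨y, hy, h⟩ := h1.exists_integral_multiple
  exact ⟨y, hy, by simpa [zsmul_eq_mul] using h⟩

/-- The vector of an element of `O_K^2`. -/
def vK (l : 𝓞 K × 𝓞 K) : K × K := ((l.1 : K), (l.2 : K))

omit [NumberField K] in
theorem isIntegral_coe (x : 𝓞 K) : IsIntegral ℤ (x : K) := x.2

/-- Two short vectors with the same norm and the same class. -/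
theorem quot_integral (cj : K →+* K) (hcj2 : ∀ x, cj (cj x) = x) {κ : K} (hκ : cj κ = κ)
    {β : K} (hβ : β ≠ 0) {N m : ℤ} (hm1 : IsIntegral ℤ ((m : K) * β⁻¹))
    (hm2 : IsIntegral ℤ ((m : K) * (κ * β⁻¹))) {l l0 t : 𝓞 K × 𝓞 K}
    (ht : l = l0 + (N * m) • t) (hl : nrd cj κ (vK l) = β) (hl0 : nrd cj κ (vK l0) = β) :
    nrd cj κ (β⁻¹ • act (gam cj κ (vK l)) (ad cj (vK l0))) = 1 ∧
    (∃ a : 𝓞 K, (β⁻¹ • act (gam cj κ (vK l)) (ad cj (vK l0))).1 - 1 = N * a) ∧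
    (∃ a : 𝓞 K, (β⁻¹ • act (gam cj κ (vK l)) (ad cj (vK l0))).2 = N * a) ∧
    ∃ a : 𝓞 K, κ * cj (β⁻¹ • act (gam cj κ (vK l)) (ad cj (vK l0))).2 = N * a := by
  have hcβ : cj β = β := by
    rw [← hl0]
    simp only [nrd, map_sub, map_mul, hcj2, hκ]
    ring
  have hcβ' : cj β⁻¹ = β⁻¹ := by rw [map_inv₀, hcβ]
  have e1 : (l.1 : K) = l0.1 + (N * m) * t.1 := by
    rw [ht]
    simp
  have e2 : (l.2 : K) = l0.2 + (N * m) * t.2 := by
    rw [ht]
    simp
  have hi : ∀ x : 𝓞 K, IsIntegral ℤ (cj (x : K)) := fun x => map_isIntegral_int cj x.2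
  have hl0' : (l0.1 : K) * cj l0.1 - κ * (l0.2 * cj l0.2) = β := hl0
  refine ⟨?_, ?_, ?_, ?_⟩
  · rw [nrd_smul cj κ hcβ', nrd_act cj κ hcj2 hκ, nrd_ad cj κ hcj2, hl, hl0]
    field_simp
  · have h1 : IsIntegral ℤ ((m : K) * β⁻¹ * ((t.1 : K) * cj l0.1) -
        (m : K) * (κ * β⁻¹) * (cj t.2 * (l0.2 : K))) :=
      (hm1.mul ((isIntegral_coe t.1).mul (hi l0.1))).sub
        (hm2.mul ((hi t.2).mul (isIntegral_coe l0.2)))
    refine ⟨⟨_, h1⟩, ?_⟩
    change _ = (N : K) * ((m : K) * β⁻¹ * ((t.1 : K) * cj l0.1) -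
        (m : K) * (κ * β⁻¹) * (cj t.2 * (l0.2 : K)))
    simp only [Prod.smul_fst, act, gam_00, gam_01, ad, vK, smul_eq_mul, e1, e2, map_add, map_mul,
      map_intCast]
    have h2 : β⁻¹ * ((l0.1 : K) * cj l0.1 - κ * (l0.2 * cj l0.2)) = 1 := by
      rw [hl0']
      field_simp
    linear_combination h2
  · have h1 : IsIntegral ℤ ((m : K) * β⁻¹ * ((t.2 : K) * cj l0.1 - cj t.1 * l0.2)) :=
      hm1.mul (((isIntegral_coe t.2).mul (hi l0.1)).sub ((hi t.1).mul (isIntegral_coe l0.2)))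
    refine ⟨⟨_, h1⟩, ?_⟩
    change _ = (N : K) * ((m : K) * β⁻¹ * ((t.2 : K) * cj l0.1 - cj t.1 * l0.2))
    simp only [Prod.smul_snd, act, gam_10, gam_11, ad, vK, smul_eq_mul, e1, e2, map_add, map_mul,
      map_intCast]
    ring
  · have h1 : IsIntegral ℤ ((m : K) * (κ * β⁻¹) * (cj t.2 * l0.1 - t.1 * cj l0.2)) :=
      hm2.mul (((hi t.2).mul (isIntegral_coe l0.1)).sub ((isIntegral_coe t.1).mul (hi l0.2)))
    refine ⟨⟨_, h1⟩, ?_⟩
    change _ = (N : K) * ((m : K) * (κ * β⁻¹) * (cj t.2 * l0.1 - t.1 * cj l0.2))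
    simp only [Prod.smul_snd, act, gam_10, gam_11, ad, vK, smul_eq_mul, e1, e2, map_add, map_mul,
      map_intCast, map_neg, hcj2, hcβ']
    ring

/-- A bound for the action of a matrix. -/
noncomputable def nb (M : Matrix (Fin 2) (Fin 2) ℂ) : ℝ := ‖M 0 0‖ + ‖M 0 1‖ + ‖M 1 0‖ + ‖M 1 1‖

theorem norm_act_le (M : Matrix (Fin 2) (Fin 2) ℂ) (x : ℂ × ℂ) : ‖act M x‖ ≤ nb M * ‖x‖ := by
  have h1 : ‖x.1‖ ≤ ‖x‖ := norm_fst_le x
  have h2 : ‖x.2‖ ≤ ‖x‖ := norm_snd_le x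
  have key : ∀ a b : ℂ, ‖a * x.1 + b * x.2‖ ≤ (‖a‖ + ‖b‖) * ‖x‖ := by
    intro a b
    calc ‖a * x.1 + b * x.2‖ ≤ ‖a * x.1‖ + ‖b * x.2‖ := norm_add_le _ _
      _ = ‖a‖ * ‖x.1‖ + ‖b‖ * ‖x.2‖ := by rw [norm_mul, norm_mul]
      _ ≤ ‖a‖ * ‖x‖ + ‖b‖ * ‖x‖ := by gcongr
      _ = (‖a‖ + ‖b‖) * ‖x‖ := by ring
  refine norm_prod_le_iff.mpr ⟨?_, ?_⟩
  · refine (key _ _).trans (mul_le_mul_of_nonneg_right ?_ (norm_nonneg _))
    unfold nb
    have := norm_nonneg (M 1 0)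
    have := norm_nonneg (M 1 1)
    linarith
  · refine (key _ _).trans (mul_le_mul_of_nonneg_right ?_ (norm_nonneg _))
    unfold nb
    have := norm_nonneg (M 0 0)
    have := norm_nonneg (M 0 1)
    linarith

theorem norm_ad_cc (x : ℂ × ℂ) : ‖ad cc x‖ = ‖x‖ := by
  rw [Prod.norm_def, Prod.norm_def]
  simp [ad]

end main

end Pool.Agent.Helper75.SH
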