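import Pool.Agent.Helper75.SH.D4

/-! Block D1 of project ALLQ in quaternion form.  Part 3: the compactness theorem. -/

open Module MeasureTheory NumberField

namespace Pool.Agent.Helper75.SH

open Pool.Agent.Helper94.SH

variable {K : Type*} [Field K] [NumberField K] {ι : Type*} [Fintype ι]

/-- What compactness gives: the point `b` is the image under a congruence element `gam d` of a
bounded vector. -/
def Conc (cj : K →+* K) (s : ι → (K →+* ℂ)) (κ : K) (N : ℤ) (C : ℝ) (b : ι → ℂ × ℂ) : Prop :=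
  ∃ d : K × K, nrd cj κ d = 1 ∧ (∃ a : 𝓞 K, d.1 - 1 = N * a) ∧ (∃ a : 𝓞 K, d.2 = N * a) ∧
    (∃ a : 𝓞 K, κ * cj d.2 = N * a) ∧
    ∃ c : ι → ℂ × ℂ, ∀ v, act (gam cc (s v κ) (pmap (s v) d)) (c v) = b v ∧
      nrd cc (s v κ) (c v) = 1 ∧ ‖c v‖ ≤ C

omit [NumberField K] [Fintype ι] in
theorem Conc.mono {cj : K →+* K} {s : ι → (K →+* ℂ)} {κ : K} {N : ℤ} {C C' : ℝ}
    {b : ι → ℂ × ℂ} (h : Conc cj s κ N C b) (hC : C ≤ C') : Conc cj s κ N C' b := by
  obtain ⟨d, h1, h2, h3, h4, c, hc⟩ := h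
  exact ⟨d, h1, h2, h3, h4, c, fun v => ⟨(hc v).1, (hc v).2.1, (hc v).2.2.trans hC⟩⟩

/-- One class: `l` and `l0` have the same norm and the same class. -/
theorem conc_of_class (cj : K →+* K) (s : ι → (K →+* ℂ))
    (hcj2 : ∀ x, cj (cj x) = x) (hcj : ∀ v x, s v (cj x) = cc (s v x)) {κ : K} (hκ : cj κ = κ)
    {β : K} (hβ : β ≠ 0) {N m : ℤ} (hm1 : IsIntegral ℤ ((m : K) * β⁻¹))
    (hm2 : IsIntegral ℤ ((m : K) * (κ * β⁻¹))) {l l0 t : 𝓞 K × 𝓞 K}
    (ht : l = l0 + (N * m) • t) (hl : nrd cj κ (vK l) = β) (hl0 : nrd cj κ (vK l0) = β)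
    {M0 : ℝ} {b x : ι → ℂ × ℂ} (hb : ∀ v, nrd cc (s v κ) (b v) = 1)
    (hx : ∀ v, ‖x v‖ < M0) (hlx : ∀ v, (s v l.1, s v l.2) = act (gam cc (s v κ) (b v)) (x v)) :
    Conc cj s κ N (∑ v, ‖(s v β)⁻¹‖ * (nb (gam cc (s v κ) (pmap (s v) (vK l0))) * M0)) b := by
  obtain ⟨h1, h2, h3, h4⟩ := quot_integral cj hcj2 hκ hβ hm1 hm2 ht hl hl0
  have hcc : ∀ x : ℂ, cc (cc x) = x := Complex.conj_conj
  have hκv : ∀ v, cc (s v κ) = s v κ := fun v => by rw [← hcj, hκ]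
  have hcβ : cj β = β := by
    rw [← hl0]
    simp only [nrd, map_sub, map_mul, hcj2, hκ]
    ring
  have hβv : ∀ v, s v β ≠ 0 := fun v => (map_ne_zero _).mpr hβ
  have hcβv : ∀ v, cc (s v β) = s v β := fun v => by rw [← hcj, hcβ]
  have hl0v : ∀ v, nrd cc (s v κ) (pmap (s v) (vK l0)) = s v β := fun v => by
    rw [← nrd_map (s v) cj cc (hcj v), hl0]
  have hlv : ∀ v, nrd cc (s v κ) (pmap (s v) (vK l)) = s v β := fun v => by
    rw [← nrd_map (s v) cj cc (hcj v), hl]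
  have hlx' : ∀ v, pmap (s v) (vK l) = act (gam cc (s v κ) (b v)) (x v) := hlx
  have hxv : ∀ v, nrd cc (s v κ) (x v) = s v β := fun v => by
    have := hlv v
    rw [hlx', nrd_act cc _ hcc (hκv v), hb v, one_mul] at this
    exact this
  have hnb : ∀ v, 0 ≤ nb (gam cc (s v κ) (pmap (s v) (vK l0))) := fun v => by
    unfold nb
    positivity
  refine ⟨_, h1, h2, h3, h4,
    fun v => (s v β)⁻¹ • act (gam cc (s v κ) (pmap (s v) (vK l0))) (ad cc (x v)), fun v => ?_⟩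
  have hd : pmap (s v) (β⁻¹ • act (gam cj κ (vK l)) (ad cj (vK l0))) =
      (s v β)⁻¹ • act (gam cc (s v κ) (pmap (s v) (vK l))) (ad cc (pmap (s v) (vK l0))) := by
    refine Prod.ext ?_ ?_ <;> simp [pmap, act, ad, hcj]
  have hcβv' : cc (s v β)⁻¹ = (s v β)⁻¹ := by rw [map_inv₀, hcβv]
  refine ⟨?_, ?_, ?_⟩
  · rw [hd]
    exact act_quot cc (s v κ) hcc (hκv v) (hβv v) (hcβv v) (hl0v v) (hlx' v) (hxv v)
  · rw [nrd_smul cc _ hcβv', nrd_act cc _ hcc (hκv v), nrd_ad cc _ hcc, hl0v, hxv]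
    have := hβv v
    field_simp
  · have e1 : ‖(s v β)⁻¹ • act (gam cc (s v κ) (pmap (s v) (vK l0))) (ad cc (x v))‖ ≤
        ‖(s v β)⁻¹‖ * (nb (gam cc (s v κ) (pmap (s v) (vK l0))) * M0) := by
      rw [norm_smul]
      refine mul_le_mul_of_nonneg_left ?_ (norm_nonneg _)
      refine (norm_act_le _ _).trans ?_
      rw [norm_ad_cc]
      exact mul_le_mul_of_nonneg_left (hx v).le (hnb v)
    refine e1.trans ?_
    refine Finset.single_le_sum
      (f := fun v => ‖(s v β)⁻¹‖ * (nb (gam cc (s v κ) (pmap (s v) (vK l0))) * M0))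
      (fun w _ => ?_) (Finset.mem_univ v)
    have hM0 : 0 ≤ M0 := (norm_nonneg _).trans (hx w).le
    exact mul_nonneg (norm_nonneg _) (mul_nonneg (hnb w) hM0)

/-- All vectors of one norm. -/
theorem conc_of_beta (cj : K →+* K) (s : ι → (K →+* ℂ))
    (hcj2 : ∀ x, cj (cj x) = x) (hcj : ∀ v x, s v (cj x) = cc (s v x)) {κ : K} (hκ : cj κ = κ)
    {N : ℤ} (hN : N ≠ 0) (M0 : ℝ) {β : K} (hβ : β ≠ 0) :
    ∃ C : ℝ, ∀ (l : 𝓞 K × 𝓞 K) (b x : ι → ℂ × ℂ), nrd cj κ (vK l) = β →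
      (∀ v, nrd cc (s v κ) (b v) = 1) → (∀ v, ‖x v‖ < M0) →
      (∀ v, (s v l.1, s v l.2) = act (gam cc (s v κ) (b v)) (x v)) → Conc cj s κ N C b := by
  obtain ⟨m1, hm1, hi1⟩ := exists_den β⁻¹
  obtain ⟨m2, hm2, hi2⟩ := exists_den (κ * β⁻¹)
  set m : ℤ := m1 * m2 with hm
  have hm0 : m ≠ 0 := mul_ne_zero hm1 hm2
  have hi1' : IsIntegral ℤ ((m : K) * β⁻¹) := by
    have : (m : K) * β⁻¹ = (m2 : K) * ((m1 : K) * β⁻¹) := by
      rw [hm]
      push_cast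
      ring
    rw [this]
    exact (isIntegral_algebraMap (x := m2) : IsIntegral ℤ ((m2 : ℤ) : K)).mul hi1
  have hi2' : IsIntegral ℤ ((m : K) * (κ * β⁻¹)) := by
    have : (m : K) * (κ * β⁻¹) = (m1 : K) * ((m2 : K) * (κ * β⁻¹)) := by
      rw [hm]
      push_cast
      ring
    rw [this]
    exact (isIntegral_algebraMap (x := m1) : IsIntegral ℤ ((m1 : ℤ) : K)).mul hi2
  set I : Ideal (𝓞 K) := Ideal.span {((N * m : ℤ) : 𝓞 K)} with hI
  have hI0 : I ≠ ⊥ := by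
    rw [hI, Ne, Ideal.span_singleton_eq_bot]
    exact_mod_cast mul_ne_zero hN hm0
  have hfin : Finite (𝓞 K ⧸ I) := Ideal.finiteQuotientOfFreeOfNeBot I hI0
  have hft := Fintype.ofFinite (𝓞 K ⧸ I)
  have per : ∀ q : (𝓞 K ⧸ I) × (𝓞 K ⧸ I), ∃ C : ℝ, ∀ (l : 𝓞 K × 𝓞 K) (b x : ι → ℂ × ℂ),
      nrd cj κ (vK l) = β → (Ideal.Quotient.mk I l.1, Ideal.Quotient.mk I l.2) = q →
      (∀ v, nrd cc (s v κ) (b v) = 1) → (∀ v, ‖x v‖ < M0) →
      (∀ v, (s v l.1, s v l.2) = act (gam cc (s v κ) (b v)) (x v)) → Conc cj s κ N C b := by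
    intro q
    by_cases h : ∃ l0 : 𝓞 K × 𝓞 K, nrd cj κ (vK l0) = β ∧
      (Ideal.Quotient.mk I l0.1, Ideal.Quotient.mk I l0.2) = q
    · obtain ⟨l0, h0, hq⟩ := h
      refine ⟨∑ v, ‖(s v β)⁻¹‖ * (nb (gam cc (s v κ) (pmap (s v) (vK l0))) * M0),
        fun l b x hl hlq hb hx hlx => ?_⟩
      · have e := hlq.trans hq.symm
        rw [Prod.mk.injEq, Ideal.Quotient.eq, Ideal.Quotient.eq, hI, Ideal.mem_span_singleton',
          Ideal.mem_span_singleton'] at e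
        obtain ⟨⟨t1, ht1⟩, ⟨t2, ht2⟩⟩ := e
        refine conc_of_class cj s hcj2 hcj hκ hβ hi1' hi2' (l0 := l0) (t := (t1, t2)) ?_ hl h0 hb
          hx hlx
        refine Prod.ext ?_ ?_
        · change l.1 = l0.1 + (N * m) • t1
          rw [zsmul_eq_mul, mul_comm, ht1]
          ring
        · change l.2 = l0.2 + (N * m) • t2
          rw [zsmul_eq_mul, mul_comm, ht2]
          ring
    · exact ⟨0, fun l b x hl hlq _ _ _ => absurd ⟨l, hl, hlq⟩ h⟩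
  choose C hC using per
  refine ⟨∑ q, |C q|, fun l b x hl hb hx hlx => ?_⟩
  refine (hC _ l b x hl rfl hb hx hlx).mono ((le_abs_self _).trans ?_)
  exact Finset.single_le_sum (f := fun q => |C q|) (fun _ _ => abs_nonneg _) (Finset.mem_univ _)

theorem norm_nrd_le (κ : ℂ) (x : ℂ × ℂ) : ‖nrd cc κ x‖ ≤ ‖x‖ ^ 2 * (1 + ‖κ‖) := by
  have h1 : ‖x.1‖ ≤ ‖x‖ := norm_fst_le x
  have h2 : ‖x.2‖ ≤ ‖x‖ := norm_snd_le x
  unfold nrd
  calc ‖x.1 * cc x.1 - κ * (x.2 * cc x.2)‖ ≤ ‖x.1 * cc x.1‖ + ‖κ * (x.2 * cc x.2)‖ :=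
        norm_sub_le _ _
    _ = ‖x.1‖ * ‖x.1‖ + ‖κ‖ * (‖x.2‖ * ‖x.2‖) := by
        rw [norm_mul, norm_mul, norm_mul, RCLike.norm_conj, RCLike.norm_conj]
    _ ≤ ‖x‖ * ‖x‖ + ‖κ‖ * (‖x‖ * ‖x‖) := by gcongr
    _ = ‖x‖ ^ 2 * (1 + ‖κ‖) := by ring

/-- **Compactness, vector form.** -/
theorem compact_vec (cj : K →+* K) (s : ι → (K →+* ℂ))
    (hs : ∀ φ : K →+* ℂ, ∃ v, φ = s v ∨ φ = cc.comp (s v))
    (hcard : 2 * Fintype.card ι = finrank ℚ K)
    (hcj2 : ∀ x, cj (cj x) = x) (hcj : ∀ v x, s v (cj x) = cc (s v x)) {κ : K} (hκ : cj κ = κ)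
    (aniso : ∃ v, (s v κ).re < 0) {N : ℤ} (hN : N ≠ 0) :
    ∃ C : ℝ, ∀ b : ι → ℂ × ℂ, (∀ v, nrd cc (s v κ) (b v) = 1) → Conc cj s κ N C b := by
  obtain ⟨M0, hM0, hshort⟩ := exists_short s hs hcard κ
  -- the norms of the short vectors form a finite set
  set B0 : ℝ := ∑ v, M0 ^ 2 * (1 + ‖s v κ‖) with hB0
  obtain ⟨D, hD, hDi⟩ := exists_den κ
  have hκre : ∀ v, s v κ = ((s v κ).re : ℂ) := fun v => by
    have h1 : cc (s v κ) = s v κ := by rw [← hcj, hκ]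
    exact (Complex.conj_eq_iff_re.mp h1).symm
  have hnz : ∀ l : 𝓞 K × 𝓞 K, l ≠ 0 → nrd cj κ (vK l) ≠ 0 := by
    intro l hl h0
    obtain ⟨v, hv⟩ := aniso
    have h1 : nrd cc (s v κ) (pmap (s v) (vK l)) = 0 := by
      rw [← nrd_map (s v) cj cc (hcj v), h0, map_zero]
    rw [hκre v, nrd_cc] at h1
    have h2 : ‖s v (l.1 : K)‖ ^ 2 - (s v κ).re * ‖s v (l.2 : K)‖ ^ 2 = 0 := by
      exact_mod_cast h1
    have h3 : ‖s v (l.1 : K)‖ ^ 2 = 0 := by
      nlinarith [sq_nonneg ‖s v (l.1 : K)‖, sq_nonneg ‖s v (l.2 : K)‖]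
    have h4 : ‖s v (l.2 : K)‖ ^ 2 = 0 := by
      nlinarith [sq_nonneg ‖s v (l.1 : K)‖, sq_nonneg ‖s v (l.2 : K)‖]
    apply hl
    refine Prod.ext ?_ ?_
    · simpa using h3
    · simpa using h4
  have hfinS : {x : K | IsIntegral ℤ x ∧ ∀ φ : K →+* ℂ, ‖φ x‖ ≤ ‖(D : ℂ)‖ * B0}.Finite :=
    Embeddings.finite_of_norm_le K ℂ _
  have hDK : (D : K) ≠ 0 := by exact_mod_cast hD
  have hfin : ((fun β : K => (D : K) * β) ⁻¹'
      {x : K | IsIntegral ℤ x ∧ ∀ φ : K →+* ℂ, ‖φ x‖ ≤ ‖(D : ℂ)‖ * B0}).Finite :=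
    hfinS.preimage (fun x _ y _ h => mul_left_cancel₀ hDK h)
  have per : ∀ β : K, ∃ C : ℝ, ∀ (l : 𝓞 K × 𝓞 K) (b x : ι → ℂ × ℂ), l ≠ 0 →
      nrd cj κ (vK l) = β →
      (∀ v, nrd cc (s v κ) (b v) = 1) → (∀ v, ‖x v‖ < M0) →
      (∀ v, (s v l.1, s v l.2) = act (gam cc (s v κ) (b v)) (x v)) → Conc cj s κ N C b := by
    intro β
    by_cases hβ : β = 0
    · exact ⟨0, fun l b x hl hn _ _ _ => absurd (hn.trans hβ) (hnz l hl)⟩
    · obtain ⟨C, hC⟩ := conc_of_beta cj s hcj2 hcj hκ hN M0 hβ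
      exact ⟨C, fun l b x _ hn hb hx hlx => hC l b x hn hb hx hlx⟩
  choose C hC using per
  refine ⟨∑ β ∈ hfin.toFinset, |C β|, fun b hb => ?_⟩
  obtain ⟨l, hl, x, hx, hlx⟩ := hshort b hb
  have hmem : nrd cj κ (vK l) ∈ hfin.toFinset := by
    rw [Set.Finite.mem_toFinset]
    have hi : ∀ x : 𝓞 K, IsIntegral ℤ (cj (x : K)) := fun x => map_isIntegral_int cj x.2
    refine ⟨?_, ?_⟩
    · have e1 : (D : K) * nrd cj κ (vK l) =
          (D : K) * ((l.1 : K) * cj l.1) - (D : K) * κ * ((l.2 : K) * cj l.2) := by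
        simp only [nrd, vK]
        ring
      change IsIntegral ℤ ((D : K) * nrd cj κ (vK l))
      rw [e1]
      exact ((isIntegral_algebraMap (x := D) : IsIntegral ℤ ((D : ℤ) : K)).mul
        ((isIntegral_coe l.1).mul (hi l.1))).sub (hDi.mul ((isIntegral_coe l.2).mul (hi l.2)))
    · have key : ∀ v, ‖s v (nrd cj κ (vK l))‖ ≤ B0 := by
        intro v
        have hcc : ∀ x : ℂ, cc (cc x) = x := Complex.conj_conj
        have hκv : cc (s v κ) = s v κ := by rw [← hcj, hκ]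
        have e2 : s v (nrd cj κ (vK l)) = nrd cc (s v κ) (x v) := by
          rw [nrd_map (s v) cj cc (hcj v)]
          have : pmap (s v) (vK l) = act (gam cc (s v κ) (b v)) (x v) := hlx v
          rw [this, nrd_act cc _ hcc hκv, hb v, one_mul]
        rw [e2]
        calc ‖nrd cc (s v κ) (x v)‖ ≤ ‖x v‖ ^ 2 * (1 + ‖s v κ‖) := norm_nrd_le _ _
          _ ≤ M0 ^ 2 * (1 + ‖s v κ‖) := by
              have := (hx v).le
              gcongr
          _ ≤ B0 := Finset.single_le_sum (f := fun v => M0 ^ 2 * (1 + ‖s v κ‖))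
              (fun _ _ => by positivity) (Finset.mem_univ v)
      intro φ
      change ‖φ ((D : K) * nrd cj κ (vK l))‖ ≤ _
      rw [map_mul, map_intCast, norm_mul]
      refine mul_le_mul_of_nonneg_left ?_ (norm_nonneg _)
      obtain ⟨v, rfl | rfl⟩ := hs φ
      · exact key v
      · rw [RingHom.comp_apply, RCLike.norm_conj]
        exact key v
  refine (hC _ l b x hl rfl hb hx hlx).mono ((le_abs_self _).trans ?_)
  exact Finset.single_le_sum (f := fun β => |C β|) (fun _ _ => abs_nonneg _) hmem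

theorem mob_of_act {M : Matrix (Fin 2) (Fin 2) ℂ} {c b : ℂ × ℂ} (hc : c.1 ≠ 0)
    (h : act M c = b) : mob M (c.2 / c.1) = b.2 / b.1 := by
  rw [← h]
  unfold mob act
  have h1 : M 1 0 + M 1 1 * (c.2 / c.1) = (M 1 0 * c.1 + M 1 1 * c.2) / c.1 := by
    field_simp
  have h2 : M 0 0 + M 0 1 * (c.2 / c.1) = (M 0 0 * c.1 + M 0 1 * c.2) / c.1 := by
    field_simp
  rw [h1, h2, div_div_div_cancel_right₀ hc]

/-- **Block D1 in quaternion form.**  For every `N` there is `ρ < 1` such that every point `z` of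
the product of the discs is the image, under the Moebius action of an element `b` of
`SU(h)(K)` congruent to one modulo `N`, of a point `z'` of the compact product of smaller discs. -/
theorem compact_quaternion (cj : K →+* K) (s : ι → (K →+* ℂ))
    (hs : ∀ φ : K →+* ℂ, ∃ v, φ = s v ∨ φ = cc.comp (s v))
    (hcard : 2 * Fintype.card ι = finrank ℚ K)
    (hcj2 : ∀ x, cj (cj x) = x) (hcj : ∀ v x, s v (cj x) = cc (s v x)) {κ : K} (hκ : cj κ = κ)
    (aniso : ∃ v, (s v κ).re < 0) {N : ℤ} (hN : N ≠ 0) :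
    ∃ ρ : ℝ, 0 ≤ ρ ∧ ρ < 1 ∧ ∀ z : ι → ℂ,
      (∀ v, 0 < (s v κ).re → (s v κ).re * ‖z v‖ ^ 2 < 1) →
      ∃ b : K × K, nrd cj κ b = 1 ∧ (∃ a : 𝓞 K, b.1 - 1 = N * a) ∧ (∃ a : 𝓞 K, b.2 = N * a) ∧
        (∃ a : 𝓞 K, κ * cj b.2 = N * a) ∧
        ∃ z' : ι → ℂ, (∀ v, 0 < (s v κ).re → (s v κ).re * ‖z' v‖ ^ 2 ≤ ρ ∧
          z v = mob (gam cc (s v κ) (pmap (s v) b)) (z' v)) ∧
          ∀ v, (s v κ).re ≤ 0 → z' v = 0 := by
  classical
  obtain ⟨C, hC⟩ := compact_vec cj s hs hcard hcj2 hcj hκ aniso hN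
  have hκre : ∀ v, s v κ = ((s v κ).re : ℂ) := fun v => by
    have h1 : cc (s v κ) = s v κ := by rw [← hcj, hκ]
    exact (Complex.conj_eq_iff_re.mp h1).symm
  set C' : ℝ := |C| + 1 with hC'
  have hC'1 : 1 ≤ C' := by
    have := abs_nonneg C
    linarith
  refine ⟨1 - 1 / C' ^ 2, ?_, ?_, fun z hz => ?_⟩
  · rw [sub_nonneg, div_le_one (by positivity)]
    exact one_le_pow₀ hC'1
  · have : 0 < 1 / C' ^ 2 := by positivity
    linarith
  · set b0 : ι → ℂ × ℂ := fun v => if 0 < (s v κ).re then bz (s v κ).re (z v) else (1, 0) with hb0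
    have hb0' : ∀ v, nrd cc (s v κ) (b0 v) = 1 := by
      intro v
      rw [hκre v, nrd_cc]
      by_cases h : 0 < (s v κ).re
      · have := bz_norm (hz v h)
        simp only [hb0, h, if_true]
        rw [this]
        simp
      · simp [hb0, h]
    obtain ⟨d, h1, h2, h3, h4, c, hc⟩ := hC b0 hb0'
    refine ⟨d, h1, h2, h3, h4,
      fun v => if 0 < (s v κ).re then (c v).2 / (c v).1 else 0, fun v hv => ?_, fun v hv => ?_⟩
    · simp only [hv, if_true]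
      obtain ⟨hc1, hc2, hc3⟩ := hc v
      have hn : ‖(c v).1‖ ^ 2 - (s v κ).re * ‖(c v).2‖ ^ 2 = 1 := by
        rw [hκre v, nrd_cc] at hc2
        exact_mod_cast hc2
      have hge : 1 ≤ ‖(c v).1‖ ^ 2 := by
        nlinarith [mul_nonneg hv.le (sq_nonneg ‖(c v).2‖)]
      have hne : (c v).1 ≠ 0 := by
        intro h
        rw [h, norm_zero] at hge
        norm_num at hge
      have hle : ‖(c v).1‖ ≤ C' := by
        have := norm_fst_le (c v)
        have := le_abs_self C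
        linarith
      refine ⟨?_, ?_⟩
      · have e1 : (s v κ).re * ‖(c v).2 / (c v).1‖ ^ 2 = 1 - 1 / ‖(c v).1‖ ^ 2 := by
          rw [norm_div, div_pow]
          have : ‖(c v).1‖ ^ 2 ≠ 0 := by positivity
          field_simp
          linarith
        rw [e1]
        have e2 : 1 / C' ^ 2 ≤ 1 / ‖(c v).1‖ ^ 2 := by
          apply one_div_le_one_div_of_le (by positivity)
          gcongr
        linarith
      · have e3 := mob_of_act hne hc1
        have e4 : b0 v = bz (s v κ).re (z v) := by simp [hb0, hv]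
        have hz' := hz v hv
        have h5 : 0 < Real.sqrt (1 - (s v κ).re * ‖z v‖ ^ 2) := Real.sqrt_pos.2 (by linarith)
        have h6 : ((Real.sqrt (1 - (s v κ).re * ‖z v‖ ^ 2) : ℝ) : ℂ) ≠ 0 := by
          exact_mod_cast h5.ne'
        rw [e3, e4]
        simp only [bz]
        push_cast
        field_simp
    · simp [not_lt.mpr hv]

end Pool.Agent.Helper75.SH
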