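import Pool.Agent.Helper75.SH.D5

/-! Block D4 of project ALLQ: coordinates of `K^2` for a number field `K`.  Density of `K`. -/

open Module NumberField

namespace Pool.Agent.Helper75.SH

open Pool.Agent.Helper94.SH

variable {K : Type*} [Field K] [NumberField K] {ι : Type*} [Fintype ι]

/-- `K` is dense in the product of its complex completions (hypothesis `hd` of block D2). -/
theorem denseRange_K (s : ι → (K →+* ℂ))
    (hs : ∀ φ : K →+* ℂ, ∃ v, φ = s v ∨ φ = cc.comp (s v))
    (hcard : 2 * Fintype.card ι = finrank ℚ K) :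
    DenseRange fun (x : K) (v : ι) => s v x := by
  classical
  obtain ⟨e, he⟩ := exists_real_basis s hs hcard
  have h1 : DenseRange (fun (q : Free.ChooseBasisIndex ℤ (𝓞 K) → ℚ) j => ((q j : ℚ) : ℝ)) :=
    DenseRange.piMap (fun _ => Rat.denseRange_cast)
  have h2 : Continuous e.equivFun.symm := LinearMap.continuous_of_finiteDimensional
    (e.equivFun.symm : (Free.ChooseBasisIndex ℤ (𝓞 K) → ℝ) →ₗ[ℝ] (ι → ℂ))
  have h3 : DenseRange (e.equivFun.symm) := e.equivFun.symm.surjective.denseRange
  have h4 := h3.comp h1 h2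
  refine h4.mono ?_
  rintro _ ⟨q, rfl⟩
  refine ⟨∑ j, (q j : K) * integralBasis K j, ?_⟩
  ext v
  simp only [Function.comp_apply, Basis.equivFun_symm_apply, Finset.sum_apply, Pi.smul_apply, he,
    map_sum, map_mul, map_ratCast]
  refine Finset.sum_congr rfl fun j _ => ?_
  rw [Complex.real_smul]
  simp

end Pool.Agent.Helper75.SH
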