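import Pool.Agent.Helper75.SH.K1

/-!
Block X of project ALLQ (MP_274814_nt): rational coordinates of `K^2`.  The complexification of
`K^2` is the product over ALL embeddings of `ℂ^2`; matrices over `K` act by rational matrices; the
trace form of a skew hermitian form is a rational alternating matrix.
-/

set_option autoImplicit false

open Module NumberField Matrix

namespace Pool.Agent.Helper75.SH

open Pool.Agent.Helper94.SH

noncomputable section

section defs

variable (K : Type*) [Field K] [NumberField K]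

/-- index set of an integral basis -/
abbrev JB := Free.ChooseBasisIndex ℤ (𝓞 K)

/-- index set of the coordinates of `K^2` -/
abbrev I2 := Fin 2 × JB K

/-- The coordinates at the embeddings. -/
def cd : (I2 K → ℂ) →ₗ[ℂ] ((K →+* ℂ) → ℂ × ℂ) where
  toFun w := fun φ => (∑ j, w (0, j) * φ (integralBasis K j), ∑ j, w (1, j) * φ (integralBasis K j))
  map_add' x y := by
    ext φ <;> simp [add_mul, Finset.sum_add_distrib]
  map_smul' a x := by
    ext φ <;> simp [Finset.mul_sum, mul_assoc]

theorem cd_apply (w : I2 K → ℂ) (φ : K →+* ℂ) :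
    cd K w φ = (∑ j, w (0, j) * φ (integralBasis K j), ∑ j, w (1, j) * φ (integralBasis K j)) := rfl

theorem cd_injective : Function.Injective (cd K) := by
  rw [← LinearMap.ker_eq_bot, LinearMap.ker_eq_bot']
  intro w hw
  have h1 := (canonicalEmbedding.latticeBasis K).linearIndependent
  rw [Fintype.linearIndependent_iff] at h1
  have key : ∀ g : JB K → ℂ, (∀ φ : K →+* ℂ, ∑ j, g j * φ (integralBasis K j) = 0) →
      ∀ j, g j = 0 := by
    intro g hg
    apply h1
    ext φ
    simp only [canonicalEmbedding.latticeBasis_apply, Finset.sum_apply, Pi.smul_apply,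
      canonicalEmbedding.apply_at, smul_eq_mul, Pi.zero_apply]
    exact hg φ
  have h2 := fun φ => congrFun hw φ
  ext ⟨k, j⟩
  fin_cases k
  · exact key (fun j => w (0, j)) (fun φ => congrArg Prod.fst (h2 φ)) j
  · exact key (fun j => w (1, j)) (fun φ => congrArg Prod.snd (h2 φ)) j

theorem cd_surjective : Function.Surjective (cd K) := by
  intro y
  set e := canonicalEmbedding.latticeBasis K with he
  have key : ∀ y : (K →+* ℂ) → ℂ, ∃ g : JB K → ℂ, ∀ φ, ∑ j, g j * φ (integralBasis K j) = y φ := by
    intro y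
    refine ⟨fun j => e.repr y j, fun φ => ?_⟩
    have h := congrFun (e.sum_repr y) φ
    simpa [he, canonicalEmbedding.latticeBasis_apply, canonicalEmbedding.apply_at] using h
  obtain ⟨g0, h0⟩ := key (fun φ => (y φ).1)
  obtain ⟨g1, h1⟩ := key (fun φ => (y φ).2)
  refine ⟨fun a => if a.1 = 0 then g0 a.2 else g1 a.2, ?_⟩
  ext φ
  · simpa [cd_apply] using h0 φ
  · simpa [cd_apply] using h1 φ

/-- The coordinates at the embeddings, as an equivalence. -/
def cdE : (I2 K → ℂ) ≃ₗ[ℂ] ((K →+* ℂ) → ℂ × ℂ) :=
  LinearEquiv.ofBijective (cd K) ⟨cd_injective K, cd_surjective K⟩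

theorem cdE_apply (w : I2 K → ℂ) : cdE K w = cd K w := rfl

variable {K}

/-- The rational coordinates of a vector of `K^2`. -/
def co (x : K × K) : I2 K → ℚ :=
  fun a => if a.1 = 0 then (integralBasis K).repr x.1 a.2 else (integralBasis K).repr x.2 a.2

theorem cd_co (x : K × K) (φ : K →+* ℂ) : cd K (fun a => ((co x a : ℚ) : ℂ)) φ = pmap φ x := by
  have key : ∀ y : K, ∑ j, (((integralBasis K).repr y j : ℚ) : ℂ) * φ (integralBasis K j) = φ y := by
    intro y
    conv_rhs => rw [← (integralBasis K).sum_repr y]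
    rw [map_sum]
    refine Finset.sum_congr rfl fun j _ => ?_
    rw [Algebra.smul_def, map_mul]
    simp
  rw [cd_apply]
  refine Prod.ext ?_ ?_
  · simpa [co, pmap] using key x.1
  · simpa [co, pmap] using key x.2

/-- The rational matrix of a matrix over `K`. -/
def RM (M : Matrix (Fin 2) (Fin 2) K) : Matrix (I2 K) (I2 K) ℚ :=
  fun a b => Algebra.leftMulMatrix (integralBasis K) (M a.1 b.1) a.2 b.2

theorem RM_one : RM (1 : Matrix (Fin 2) (Fin 2) K) = 1 := by
  ext ⟨k, i⟩ ⟨l, j⟩
  by_cases h : k = l
  · subst h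
    simp only [RM, Matrix.one_apply_eq, map_one]
    by_cases h2 : i = j
    · subst h2
      simp
    · rw [Matrix.one_apply_ne h2, Matrix.one_apply_ne (by simpa using h2)]
  · simp only [RM, Matrix.one_apply_ne h, map_zero, Matrix.zero_apply]
    rw [Matrix.one_apply_ne (by simp [h])]

theorem RM_add (M N : Matrix (Fin 2) (Fin 2) K) : RM (M + N) = RM M + RM N := by
  ext a b
  simp [RM]

theorem RM_mul (M N : Matrix (Fin 2) (Fin 2) K) : RM (M * N) = RM M * RM N := by
  ext a b
  rw [Matrix.mul_apply, Fintype.sum_prod_type]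
  simp only [RM, Matrix.mul_apply, map_sum, map_mul, Matrix.sum_apply]

theorem RM_smul_int (n : ℤ) (M : Matrix (Fin 2) (Fin 2) K) : RM ((n : K) • M) = (n : ℚ) • RM M := by
  ext a b
  simp only [RM, Matrix.smul_apply, smul_eq_mul]
  have h : (n : K) * M a.1 b.1 = (n : ℚ) • M a.1 b.1 := by
    rw [Algebra.smul_def]
    simp
  rw [h, map_smul]
  simp

/-- **The action at the embeddings.** -/
theorem cd_RM (M : Matrix (Fin 2) (Fin 2) K) (w : I2 K → ℂ) (φ : K →+* ℂ) :
    cd K ((RM M).map (fun x : ℚ => (x : ℂ)) *ᵥ w) φ = act (M.map φ) (cd K w φ) := by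
  have key : ∀ (x : K) (j : JB K), ∑ i, ((Algebra.leftMulMatrix (integralBasis K) x i j : ℚ) : ℂ) *
      φ (integralBasis K i) = φ x * φ (integralBasis K j) := by
    intro x j
    have h1 := (integralBasis K).sum_repr (x * integralBasis K j)
    have h2 := congrArg φ h1
    rw [map_sum, RingHom.map_mul φ x] at h2
    rw [← h2]
    refine Finset.sum_congr rfl fun i _ => ?_
    rw [Algebra.leftMulMatrix_eq_repr_mul, Algebra.smul_def, RingHom.map_mul]
    simp
  have key2 : ∀ k : Fin 2, ∑ i, ((RM M).map (fun x : ℚ => (x : ℂ)) *ᵥ w) (k, i) *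
      φ (integralBasis K i) =
      φ (M k 0) * (∑ j, w (0, j) * φ (integralBasis K j)) +
      φ (M k 1) * (∑ j, w (1, j) * φ (integralBasis K j)) := by
    intro k
    simp only [Matrix.mulVec, dotProduct, Matrix.map_apply, RM]
    calc ∑ i, (∑ b : I2 K, ((Algebra.leftMulMatrix (integralBasis K) (M k b.1) i b.2 : ℚ) : ℂ) *
          w b) * φ (integralBasis K i)
        = ∑ b : I2 K, w b * ∑ i, ((Algebra.leftMulMatrix (integralBasis K) (M k b.1) i b.2 : ℚ) : ℂ) *
          φ (integralBasis K i) := by
          simp only [Finset.sum_mul, Finset.mul_sum]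
          rw [Finset.sum_comm]
          refine Finset.sum_congr rfl fun b _ => Finset.sum_congr rfl fun i _ => ?_
          ring
      _ = ∑ b : I2 K, w b * (φ (M k b.1) * φ (integralBasis K b.2)) := by
          refine Finset.sum_congr rfl fun b _ => ?_
          rw [key]
      _ = _ := by
          rw [Fintype.sum_prod_type, Fin.sum_univ_two, Finset.mul_sum, Finset.mul_sum]
          congr 1 <;> refine Finset.sum_congr rfl fun j _ => ?_ <;> ring
  rw [cd_apply, key2, key2]
  rfl

end defs

end

end Pool.Agent.Helper75.SH
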