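import Pool.Agent.Helper75.SH.K2

/-!
Block X of project ALLQ (MP_274814_nt): the trace form of a skew hermitian form on `K^2` in
rational coordinates; integral matrices and isometries.
-/

set_option autoImplicit false

open Module NumberField Matrix

namespace Pool.Agent.Helper75.SH

open Pool.Agent.Helper94.SH

noncomputable section

variable {K : Type*} [Field K] [NumberField K]

/-- the basis vectors of `K^2` -/
def ev (a : I2 K) : K × K := if a.1 = 0 then (integralBasis K a.2, 0) else (0, integralBasis K a.2)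

theorem sum_ev {F : Type*} [AddCommMonoid F] (g : I2 K → K × K → F) :
    ∑ a, g a (ev a) = (∑ j, g (0, j) (integralBasis K j, 0)) +
      ∑ j, g (1, j) (0, integralBasis K j) := by
  rw [Fintype.sum_prod_type, Fin.sum_univ_two]
  simp [ev]

/-- the vector with given rational coordinates -/
def vc (t : I2 K → ℚ) : K × K := ∑ a, t a • ev a

theorem vc_co (x : K × K) : vc (co x) = x := by
  unfold vc
  rw [sum_ev (fun a y => co x a • y)]
  have h1 := (integralBasis K).sum_repr x.1
  have h2 := (integralBasis K).sum_repr x.2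
  refine Prod.ext ?_ ?_
  · simp only [Prod.fst_add, Prod.fst_sum, Prod.smul_fst, smul_zero, Finset.sum_const_zero,
      add_zero]
    simpa [co] using h1
  · simp only [Prod.snd_add, Prod.snd_sum, Prod.smul_snd, smul_zero, Finset.sum_const_zero,
      zero_add]
    simpa [co] using h2

theorem co_add (x y : K × K) : co (x + y) = co x + co y := by
  ext a
  simp only [co, Prod.fst_add, Prod.snd_add, map_add, Finsupp.add_apply, Pi.add_apply]
  split_ifs <;> rfl

theorem co_smul (t : ℚ) (x : K × K) : co (t • x) = t • co x := by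
  ext a
  simp only [co, Prod.smul_fst, Prod.smul_snd, map_smul, Finsupp.smul_apply, Pi.smul_apply]
  split_ifs <;> rfl

/-- `co` as a linear map -/
def coL : (K × K) →ₗ[ℚ] (I2 K → ℚ) where
  toFun := co
  map_add' := co_add
  map_smul' := co_smul

theorem co_ev (a : I2 K) : co (ev a) = Pi.single a 1 := by
  classical
  obtain ⟨k, i⟩ := a
  ext ⟨l, j⟩
  fin_cases k <;> fin_cases l <;>
    simp [co, ev, Pi.single_apply, Finsupp.single_apply, eq_comm]

theorem co_vc (t : I2 K → ℚ) : co (vc t) = t := by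
  classical
  have h : coL (vc t) = ∑ a, t a • coL (ev a) := by
    unfold vc
    rw [map_sum]
    simp
  change coL (vc t) = t
  rw [h]
  ext b
  have h2 : ∀ a : I2 K, coL (ev a) = Pi.single a 1 := co_ev
  simp [h2, Finset.sum_apply, Pi.single_apply]

theorem RM_col (M : Matrix (Fin 2) (Fin 2) K) (b : I2 K) :
    (fun a => RM M a b) = co (act M (ev b)) := by
  obtain ⟨l, j⟩ := b
  ext ⟨k, i⟩
  fin_cases l <;> fin_cases k <;>
    simp [RM, co, act, ev, Algebra.leftMulMatrix_eq_repr_mul]

theorem act_sum {A : Type*} [CommRing A] {J : Type*} (s : Finset J) (M : Matrix (Fin 2) (Fin 2) A)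
    (f : J → A × A) : act M (∑ a ∈ s, f a) = ∑ a ∈ s, act M (f a) := by
  classical
  induction s using Finset.induction_on with
  | empty => simp [act]
  | insert a s ha ih => rw [Finset.sum_insert ha, Finset.sum_insert ha, act_add, ih]

theorem act_rat_smul (M : Matrix (Fin 2) (Fin 2) K) (t : ℚ) (x : K × K) :
    act M (t • x) = t • act M x := by
  refine Prod.ext ?_ ?_ <;> simp [act]

/-- **The rational matrix acts on `K^2`.** -/
theorem RM_co (M : Matrix (Fin 2) (Fin 2) K) (x : K × K) : RM M *ᵥ co x = co (act M x) := by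
  have h1 : act M x = ∑ a, co x a • act M (ev a) := by
    conv_lhs => rw [← vc_co x]
    unfold vc
    rw [act_sum]
    exact Finset.sum_congr rfl fun a _ => act_rat_smul M _ _
  have h2 : co (act M x) = ∑ a, co x a • co (act M (ev a)) := by
    change coL (act M x) = ∑ a, co x a • coL (act M (ev a))
    rw [h1, map_sum]
    simp
  rw [h2]
  ext b
  rw [Finset.sum_apply, Matrix.mulVec, dotProduct]
  refine Finset.sum_congr rfl fun a _ => ?_
  rw [← RM_col, Pi.smul_apply, smul_eq_mul, mul_comm]

/-! ### the form -/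

theorem cj_rat (cj : K →+* K) (t : ℚ) (x : K) : cj (t • x) = t • cj x := by
  rw [Algebra.smul_def, Algebra.smul_def, map_mul]
  simp

/-- the form `Tr (ξ (x1 c y1 - κ x2 c y2))` in coordinates -/
def EK (cj : K →+* K) (ξ κ : K) : Matrix (I2 K) (I2 K) ℚ :=
  fun a b => Algebra.trace ℚ K (ξ * frm cj κ (ev a) (ev b))

theorem frm_sum_left (cj : K →+* K) (κ : K) (t : I2 K → ℚ) (y : K × K) :
    frm cj κ (vc t) y = ∑ a, t a • frm cj κ (ev a) y := by
  simp only [frm, vc, Prod.fst_sum, Prod.snd_sum, Prod.smul_fst, Prod.smul_snd, Finset.sum_mul,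
    Finset.mul_sum, ← Finset.sum_sub_distrib]
  refine Finset.sum_congr rfl fun a _ => ?_
  rw [smul_sub, smul_mul_assoc, smul_mul_assoc, mul_smul_comm]

theorem frm_sum_right (cj : K →+* K) (κ : K) (x : K × K) (t : I2 K → ℚ) :
    frm cj κ x (vc t) = ∑ b, t b • frm cj κ x (ev b) := by
  simp only [frm, vc, Prod.fst_sum, Prod.snd_sum, Prod.smul_fst, Prod.smul_snd, map_sum,
    cj_rat, Finset.mul_sum, ← Finset.sum_sub_distrib]
  refine Finset.sum_congr rfl fun a _ => ?_
  rw [smul_sub, mul_smul_comm, mul_smul_comm, mul_smul_comm]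

/-- **The form on rational vectors.** -/
theorem EK_co (cj : K →+* K) (ξ κ : K) (x y : K × K) :
    co x ⬝ᵥ (EK cj ξ κ *ᵥ co y) = Algebra.trace ℚ K (ξ * frm cj κ x y) := by
  have h1 : ξ * frm cj κ x y = ∑ a, ∑ b, (co x a * co y b) • (ξ * frm cj κ (ev a) (ev b)) := by
    conv_lhs => rw [← vc_co x, ← vc_co y]
    rw [frm_sum_left, Finset.mul_sum]
    refine Finset.sum_congr rfl fun a _ => ?_
    rw [frm_sum_right, Finset.smul_sum, Finset.mul_sum]
    refine Finset.sum_congr rfl fun b _ => ?_
    rw [smul_smul, mul_smul_comm]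
  rw [h1, map_sum]
  simp only [map_sum, map_smul, smul_eq_mul]
  simp only [dotProduct, Matrix.mulVec, EK, Finset.mul_sum]
  refine Finset.sum_congr rfl fun a _ => Finset.sum_congr rfl fun b _ => ?_
  ring

/-- **Isometries.** -/
theorem EK_isom (cj : K →+* K) (ξ κ : K) (M : Matrix (Fin 2) (Fin 2) K)
    (hM : ∀ x y : K × K, frm cj κ (act M x) (act M y) = frm cj κ x y) :
    (RM M)ᵀ * EK cj ξ κ * RM M = EK cj ξ κ := by
  ext a b
  have h1 : ((RM M)ᵀ * EK cj ξ κ * RM M) a b =
      (fun i => RM M i a) ⬝ᵥ (EK cj ξ κ *ᵥ fun i => RM M i b) := by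
    rw [Matrix.mul_assoc, Matrix.mul_apply]
    simp only [Matrix.mul_apply]
    rfl
  rw [h1, RM_col, RM_col, EK_co, hM]
  rfl

end

end Pool.Agent.Helper75.SH
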