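import Pool.Agent.Helper75.SH.K3

/-!
Block X of project ALLQ (MP_274814_nt): the form at the embeddings, nondegeneracy, integrality.
-/

set_option autoImplicit false

open Module NumberField Matrix

namespace Pool.Agent.Helper75.SH

open Pool.Agent.Helper94.SH

noncomputable section

variable {K : Type*} [Field K] [NumberField K]

theorem trace_sum (x : K) : ((Algebra.trace ℚ K x : ℚ) : ℂ) = ∑ φ : K →+* ℂ, φ x := by
  have h := trace_eq_sum_embeddings (K := ℚ) (L := K) ℂ (x := x)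
  rw [eq_ratCast] at h
  rw [h]
  exact Fintype.sum_equiv (RingHom.equivRatAlgHom K ℂ).symm _ _ (fun σ => rfl)

theorem cd_eq (w : I2 K → ℂ) (φ : K →+* ℂ) :
    cd K w φ = (∑ a, w a * φ (ev a).1, ∑ a, w a * φ (ev a).2) := by
  rw [sum_ev (fun a y => w a * φ y.1), sum_ev (fun a y => w a * φ y.2), cd_apply]
  simp

/-- the form on complex vectors -/
def EC (cj : K →+* K) (ξ κ : K) (w w' : I2 K → ℂ) : ℂ :=
  w ⬝ᵥ ((EK cj ξ κ).map (fun x : ℚ => (x : ℂ)) *ᵥ w')

/-- **The form at the embeddings.** -/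
theorem EC_eq (cj : K →+* K) (ξ κ : K) (w w' : I2 K → ℂ) :
    EC cj ξ κ w w' = ∑ φ : K →+* ℂ, φ ξ * ((cd K w φ).1 * (cd K w' (φ.comp cj)).1 -
      φ κ * ((cd K w φ).2 * (cd K w' (φ.comp cj)).2)) := by
  have h1 : EC cj ξ κ w w' = ∑ a, ∑ b, w a * w' b * ((EK cj ξ κ a b : ℚ) : ℂ) := by
    simp only [EC, dotProduct, Matrix.mulVec, Matrix.map_apply, Finset.mul_sum]
    refine Finset.sum_congr rfl fun a _ => Finset.sum_congr rfl fun b _ => ?_
    ring
  have h2 : ∀ a b, ((EK cj ξ κ a b : ℚ) : ℂ) = ∑ φ : K →+* ℂ,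
      φ ξ * (φ (ev a).1 * φ (cj (ev b).1) - φ κ * (φ (ev a).2 * φ (cj (ev b).2))) := by
    intro a b
    rw [EK, trace_sum]
    refine Finset.sum_congr rfl fun φ _ => ?_
    simp only [frm, map_mul, map_sub]
  have h3 : ∀ φ : K →+* ℂ, φ ξ * ((cd K w φ).1 * (cd K w' (φ.comp cj)).1 -
      φ κ * ((cd K w φ).2 * (cd K w' (φ.comp cj)).2)) = ∑ a, ∑ b, w a * w' b *
        (φ ξ * (φ (ev a).1 * φ (cj (ev b).1) - φ κ * (φ (ev a).2 * φ (cj (ev b).2)))) := by
    intro φ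
    rw [cd_eq, cd_eq, Finset.sum_mul_sum, Finset.sum_mul_sum, Finset.mul_sum,
      ← Finset.sum_sub_distrib, Finset.mul_sum]
    refine Finset.sum_congr rfl fun a _ => ?_
    rw [Finset.mul_sum, ← Finset.sum_sub_distrib, Finset.mul_sum]
    refine Finset.sum_congr rfl fun b _ => ?_
    simp only [RingHom.comp_apply]
    ring
  rw [h1]
  simp only [h2, h3, Finset.mul_sum]
  rw [Finset.sum_comm' (t' := Finset.univ) (s' := fun _ => Finset.univ) (by simp)]
  conv_rhs =>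
    rw [Finset.sum_comm]
    enter [2, a]
    rw [Finset.sum_comm]
  rw [Finset.sum_comm]

/-- conjugation of the embeddings is an involution -/
theorem comp_comp {cj : K →+* K} (hcj2 : ∀ x, cj (cj x) = x) (φ : K →+* ℂ) :
    (φ.comp cj).comp cj = φ := by
  ext x
  simp [hcj2]

theorem trace_cj {cj : K →+* K} (hcj2 : ∀ x, cj (cj x) = x) (x : K) :
    Algebra.trace ℚ K (cj x) = Algebra.trace ℚ K x := by
  have h : ((Algebra.trace ℚ K (cj x) : ℚ) : ℂ) = ((Algebra.trace ℚ K x : ℚ) : ℂ) := by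
    rw [trace_sum, trace_sum]
    refine Finset.sum_bij' (fun φ _ => φ.comp cj) (fun φ _ => φ.comp cj) ?_ ?_ ?_ ?_ ?_
    · simp
    · simp
    · exact fun φ _ => comp_comp hcj2 φ
    · exact fun φ _ => comp_comp hcj2 φ
    · intro φ _
      rfl
  exact_mod_cast h

/-- the form is alternating -/
theorem EK_transpose {cj : K →+* K} (hcj2 : ∀ x, cj (cj x) = x) {ξ κ : K} (hξ : cj ξ = -ξ)
    (hκ : cj κ = κ) (a b : I2 K) : EK cj ξ κ a b = -EK cj ξ κ b a := by
  rw [EK, EK, ← trace_cj hcj2, ← map_neg]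
  congr 1
  simp only [frm, map_mul, map_sub, hξ, hκ, hcj2]
  ring

theorem EK_alt {cj : K →+* K} (hcj2 : ∀ x, cj (cj x) = x) {ξ κ : K} (hξ : cj ξ = -ξ)
    (hκ : cj κ = κ) (w : I2 K → ℚ) : w ⬝ᵥ (EK cj ξ κ *ᵥ w) = 0 := by
  have h1 : w ⬝ᵥ (EK cj ξ κ *ᵥ w) = ∑ a, ∑ b, w a * (EK cj ξ κ a b * w b) := by
    simp only [dotProduct, Matrix.mulVec, Finset.mul_sum]
  have h2 : ∑ a, ∑ b, w a * (EK cj ξ κ a b * w b) = ∑ a, ∑ b, w b * (EK cj ξ κ b a * w a) :=
    Finset.sum_comm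
  have h3 : ∑ a, ∑ b, w b * (EK cj ξ κ b a * w a) = -∑ a, ∑ b, w a * (EK cj ξ κ a b * w b) := by
    rw [← Finset.sum_neg_distrib]
    refine Finset.sum_congr rfl fun a _ => ?_
    rw [← Finset.sum_neg_distrib]
    refine Finset.sum_congr rfl fun b _ => ?_
    rw [EK_transpose hcj2 hξ hκ b a]
    ring
  rw [h1]
  linarith

/-- the form is nondegenerate -/
theorem EK_det {cj : K →+* K} (hcj2 : ∀ x, cj (cj x) = x) {ξ κ : K} (hξ : ξ ≠ 0) (hκ : κ ≠ 0) :
    (EK cj ξ κ).det ≠ 0 := by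
  classical
  intro h0
  have h1 : ((EK cj ξ κ).map (fun x : ℚ => (x : ℂ))).det = 0 := by
    have : ((EK cj ξ κ).map (fun x : ℚ => (x : ℂ))).det = (((EK cj ξ κ).det : ℚ) : ℂ) := by
      exact (RingHom.map_det (Rat.castHom ℂ) (EK cj ξ κ)).symm
    rw [this, h0]
    simp
  obtain ⟨w', hw', hw0⟩ := Matrix.exists_mulVec_eq_zero_iff.2 h1
  apply hw'
  apply cd_injective K
  rw [map_zero]
  have h2 : ∀ w, EC cj ξ κ w w' = 0 := by
    intro w
    rw [EC, hw0, dotProduct_zero]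
  ext φ
  · obtain ⟨w, hw⟩ := cd_surjective K (Pi.single (φ.comp cj) (1, 0))
    have h3 := h2 w
    rw [EC_eq, hw, Finset.sum_eq_single (φ.comp cj)] at h3
    · rw [Pi.single_eq_same, comp_comp hcj2] at h3
      have h4 : (φ.comp cj) ξ ≠ 0 := (map_ne_zero _).2 hξ
      simpa [h4, hξ] using h3
    · intro ψ _ hψ
      rw [Pi.single_eq_of_ne hψ]
      simp
    · intro h
      exact absurd (Finset.mem_univ _) h
  · obtain ⟨w, hw⟩ := cd_surjective K (Pi.single (φ.comp cj) (0, 1))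
    have h3 := h2 w
    rw [EC_eq, hw, Finset.sum_eq_single (φ.comp cj)] at h3
    · rw [Pi.single_eq_same, comp_comp hcj2] at h3
      have h4 : (φ.comp cj) ξ ≠ 0 := (map_ne_zero _).2 hξ
      have h5 : (φ.comp cj) κ ≠ 0 := (map_ne_zero _).2 hκ
      simpa [h4, h5, hξ, hκ] using h3
    · intro ψ _ hψ
      rw [Pi.single_eq_of_ne hψ]
      simp
    · intro h
      exact absurd (Finset.mem_univ _) h

/-! ### integrality -/

theorem lmul_int (x : 𝓞 K) (i j : JB K) :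
    ∃ n : ℤ, Algebra.leftMulMatrix (integralBasis K) (x : K) i j = (n : ℚ) := by
  rw [Algebra.leftMulMatrix_eq_repr_mul]
  refine ⟨(RingOfIntegers.basis K).repr (x * RingOfIntegers.basis K j) i, ?_⟩
  have h : (x : K) * integralBasis K j = algebraMap (𝓞 K) K (x * RingOfIntegers.basis K j) := by
    rw [map_mul, integralBasis_apply]
  rw [h, integralBasis_repr_apply]
  rfl

theorem RM_int (M : Matrix (Fin 2) (Fin 2) (𝓞 K)) :
    ∃ M' : Matrix (I2 K) (I2 K) ℤ, RM (M.map (fun x => (x : K))) = M'.map (fun n => (n : ℚ)) := by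
  choose f hf using fun (x : 𝓞 K) i j => lmul_int x i j
  refine ⟨fun a b => f (M a.1 b.1) a.2 b.2, ?_⟩
  ext a b
  simp only [RM, Matrix.map_apply]
  exact hf _ _ _

/-- **The congruence subgroup.** -/
theorem RM_cong (M : Matrix (Fin 2) (Fin 2) K) (N : ℤ)
    (h : ∀ i j, ∃ a : 𝓞 K, M i j - (1 : Matrix (Fin 2) (Fin 2) K) i j = N * a) :
    ∃ M' : Matrix (I2 K) (I2 K) ℤ, RM M = 1 + (N : ℚ) • M'.map (fun n => (n : ℚ)) := by
  choose A hA using h
  obtain ⟨M', hM'⟩ := RM_int (Matrix.of A)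
  refine ⟨M', ?_⟩
  have h1 : M = 1 + (N : K) • (Matrix.of A).map (fun x => (x : K)) := by
    ext i j
    have := hA i j
    simp only [Matrix.add_apply, Matrix.smul_apply, Matrix.map_apply, Matrix.of_apply, smul_eq_mul]
    rw [← this]
    ring
  rw [h1, RM_add, RM_one, RM_smul_int, hM']

end

end Pool.Agent.Helper75.SH
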