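import Mathlib

/-!
Block X of project ALLQ (MP_274814_nt): a nondegenerate alternating matrix over a field is
equivalent to the standard one.
-/

set_option autoImplicit false

open Module Matrix

namespace Pool.Agent.Helper75.SH

section abstract

variable {F V : Type*} [Field F] [AddCommGroup V] [Module F V] (B : LinearMap.BilinForm F V)

/-- partial symplectic family -/
structure SymF {k : ℕ} (p q : Fin k → V) : Prop where
  pp : ∀ i j, B (p i) (p j) = 0
  qq : ∀ i j, B (q i) (q j) = 0
  pq : ∀ i j, B (p i) (q j) = if i = j then 1 else 0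

/-- projection to the orthogonal complement -/
noncomputable def prj {k : ℕ} (p q : Fin k → V) (v : V) : V :=
  v - ∑ i, B v (q i) • p i + ∑ i, B v (p i) • q i

variable {B}

theorem SymF.qp (hB : B.IsAlt) {k : ℕ} {p q : Fin k → V} (h : SymF B p q) (i j : Fin k) :
    B (q i) (p j) = if i = j then -1 else 0 := by
  rw [← LinearMap.BilinForm.IsAlt.neg_eq hB, h.pq]
  by_cases hij : i = j
  · simp [hij]
  · simp [hij, Ne.symm hij]

theorem prj_q {k : ℕ} {p q : Fin k → V} (h : SymF B p q) (v : V) (j : Fin k) :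
    B (prj B p q v) (q j) = 0 := by
  simp only [prj, map_add, map_sub, map_sum, map_smul, LinearMap.add_apply, LinearMap.sub_apply,
    LinearMap.sum_apply, LinearMap.smul_apply, h.pq, h.qq, smul_eq_mul, mul_ite, mul_one, mul_zero]
  simp

theorem prj_p (hB : B.IsAlt) {k : ℕ} {p q : Fin k → V} (h : SymF B p q) (v : V) (j : Fin k) :
    B (prj B p q v) (p j) = 0 := by
  simp only [prj, map_add, map_sub, map_sum, map_smul, LinearMap.add_apply, LinearMap.sub_apply,
    LinearMap.sum_apply, LinearMap.smul_apply, h.pp, h.qp hB, smul_eq_mul, mul_ite, mul_neg,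
    mul_one, mul_zero]
  simp

theorem SymF.succ (hB : B.IsAlt) (hN : B.Nondegenerate) [FiniteDimensional F V] {k : ℕ}
    {p q : Fin k → V} (h : SymF B p q) (hk : 2 * k < finrank F V) :
    ∃ p' q' : Fin (k + 1) → V, SymF B p' q' := by
  classical
  set U : Submodule F V := Submodule.span F (Set.range p ∪ Set.range q) with hU
  have hp : ∀ i, p i ∈ U := fun i => Submodule.subset_span (Or.inl ⟨i, rfl⟩)
  have hq : ∀ i, q i ∈ U := fun i => Submodule.subset_span (Or.inr ⟨i, rfl⟩)
  have hUlt : finrank F U < finrank F V := by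
    have h1 : finrank F U ≤ (Finset.univ.image p ∪ Finset.univ.image q).card := by
      have := finrank_span_finset_le_card (R := F) (Finset.univ.image p ∪ Finset.univ.image q)
      have h2 : ((Finset.univ.image p ∪ Finset.univ.image q : Finset V) : Set V) =
          Set.range p ∪ Set.range q := by
        simp
      rw [h2] at this
      exact this
    have h3 : (Finset.univ.image p ∪ Finset.univ.image q).card ≤ k + k := by
      refine (Finset.card_union_le _ _).trans (add_le_add ?_ ?_)
      · exact Finset.card_image_le.trans (by simp)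
      · exact Finset.card_image_le.trans (by simp)
    omega
  obtain ⟨v, hv⟩ : ∃ v, v ∉ U := by
    by_contra hcon
    push Not at hcon
    have : U = ⊤ := by
      rw [eq_top_iff]
      exact fun x _ => hcon x
    rw [this, finrank_top] at hUlt
    exact lt_irrefl _ hUlt
  set v' := prj B p q v with hv'
  have hv'0 : v' ≠ 0 := by
    intro h0
    apply hv
    have h1 : v = v' + ∑ i, B v (q i) • p i - ∑ i, B v (p i) • q i := by
      rw [hv', prj]
      abel
    rw [h1, h0, zero_add]
    exact U.sub_mem (U.sum_mem fun i _ => U.smul_mem _ (hp i))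
      (U.sum_mem fun i _ => U.smul_mem _ (hq i))
  obtain ⟨w, hw⟩ : ∃ w, B v' w ≠ 0 := by
    by_contra hcon
    push Not at hcon
    exact hv'0 (hN.1 v' hcon)
  set w1 := (B v' w)⁻¹ • w with hw1
  have hvw1 : B v' w1 = 1 := by
    rw [hw1, map_smul, smul_eq_mul, inv_mul_cancel₀ hw]
  set w' := prj B p q w1 with hw'
  have hv'q : ∀ i, B v' (q i) = 0 := fun i => prj_q h v i
  have hv'p : ∀ i, B v' (p i) = 0 := fun i => prj_p hB h v i
  have hw'q : ∀ i, B w' (q i) = 0 := fun i => prj_q h w1 i
  have hw'p : ∀ i, B w' (p i) = 0 := fun i => prj_p hB h w1 i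
  have hvw : B v' w' = 1 := by
    rw [hw', prj]
    simp only [map_add, map_sub, map_sum, map_smul, smul_eq_mul, hv'q, hv'p, mul_zero,
      Finset.sum_const_zero, sub_zero, add_zero]
    exact hvw1
  have hn : ∀ x y, B x y = 0 → B y x = 0 := fun x y hxy => by
    rw [← LinearMap.BilinForm.IsAlt.neg_eq hB, hxy, neg_zero]
  refine ⟨Fin.cons v' p, Fin.cons w' q, ?_, ?_, ?_⟩
  · intro i j
    refine Fin.cases ?_ (fun i => ?_) i <;> refine Fin.cases ?_ (fun j => ?_) j
    · simpa using hB v'
    · simpa using hv'p j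
    · simpa using hn _ _ (hv'p i)
    · simpa using h.pp i j
  · intro i j
    refine Fin.cases ?_ (fun i => ?_) i <;> refine Fin.cases ?_ (fun j => ?_) j
    · simpa using hB w'
    · simpa using hw'q j
    · simpa using hn _ _ (hw'q i)
    · simpa using h.qq i j
  · intro i j
    refine Fin.cases ?_ (fun i => ?_) i <;> refine Fin.cases ?_ (fun j => ?_) j
    · simpa using hvw
    · simpa [Ne.symm (Fin.succ_ne_zero j)] using hv'q j
    · simpa [Fin.succ_ne_zero i] using hn _ _ (hw'p i)
    · simpa using h.pq i j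

theorem exists_SymF (hB : B.IsAlt) (hN : B.Nondegenerate) [FiniteDimensional F V] {m : ℕ}
    (hm : finrank F V = 2 * m) : ∃ p q : Fin m → V, SymF B p q := by
  have key : ∀ k ≤ m, ∃ p q : Fin k → V, SymF B p q := by
    intro k
    induction k with
    | zero => exact fun _ => ⟨Fin.elim0, Fin.elim0, fun i => i.elim0, fun i => i.elim0,
        fun i => i.elim0⟩
    | succ k ih =>
      intro hk
      obtain ⟨p, q, h⟩ := ih (by omega)
      exact h.succ hB hN (by omega)
  exact key m le_rfl

end abstract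

section matrix

variable {F I μ : Type*} [Field F] [Fintype I] [DecidableEq I] [Fintype μ] [DecidableEq μ]

/-- **Symplectic basis.** -/
theorem exists_symplectic (E : Matrix I I F) (halt : ∀ w : I → F, w ⬝ᵥ (E *ᵥ w) = 0)
    (hdet : E.det ≠ 0) (hc : Fintype.card I = 2 * Fintype.card μ) :
    ∃ (S : Matrix I (μ ⊕ μ) F) (S' : Matrix (μ ⊕ μ) I F), S * S' = 1 ∧ S' * S = 1 ∧
      Sᵀ * E * S = fromBlocks 0 1 (-1) 0 := by
  classical
  set B : LinearMap.BilinForm F (I → F) := Matrix.toLinearMap₂' F E with hBdef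
  have hBa : ∀ x y, B x y = x ⬝ᵥ (E *ᵥ y) := fun x y => Matrix.toLinearMap₂'_apply' E x y
  have hB : B.IsAlt := fun w => by
    rw [hBa]
    exact halt w
  have hN : B.Nondegenerate := by
    rw [hBdef]
    exact (Matrix.nondegenerate_of_det_ne_zero hdet).toLinearMap₂'
  obtain ⟨p, q, h⟩ := exists_SymF (m := Fintype.card μ) hB hN (by
    rw [Module.finrank_fintype_fun_eq_card, hc])
  set e := Fintype.equivFin μ with he
  set S : Matrix I (μ ⊕ μ) F := Matrix.of fun i => Sum.elim (fun j => p (e j) i) (fun j => q (e j) i)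
    with hS
  have hcol : ∀ a b : μ ⊕ μ, (Sᵀ * E * S) a b = (fun i => S i a) ⬝ᵥ (E *ᵥ fun i => S i b) := by
    intro a b
    rw [Matrix.mul_assoc, Matrix.mul_apply]
    simp only [Matrix.mul_apply]
    rfl
  have hSS : Sᵀ * E * S = fromBlocks 0 1 (-1) 0 := by
    ext a b
    rw [hcol, ← hBa]
    rcases a with a | a <;> rcases b with b | b
    · simpa [hS] using h.pp (e a) (e b)
    · have := h.pq (e a) (e b)
      simp only [e.apply_eq_iff_eq] at this
      simpa [hS, Matrix.one_apply] using this
    · have := h.qp hB (e a) (e b)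
      simp only [e.apply_eq_iff_eq] at this
      have h2 : B (fun i => S i (Sum.inr a)) (fun i => S i (Sum.inl b)) = B (q (e a)) (p (e b)) := rfl
      rw [h2, this, fromBlocks_apply₂₁, Matrix.neg_apply, Matrix.one_apply]
      split_ifs <;> simp
    · simpa [hS] using h.qq (e a) (e b)
  have hJ : (fromBlocks 0 1 (-1) 0 : Matrix (μ ⊕ μ) (μ ⊕ μ) F) * fromBlocks 0 (-1) 1 0 = 1 := by
    rw [fromBlocks_multiply]
    simp [fromBlocks_one]
  have hJ' : (fromBlocks 0 (-1) 1 0 : Matrix (μ ⊕ μ) (μ ⊕ μ) F) * fromBlocks 0 1 (-1) 0 = 1 := by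
    rw [fromBlocks_multiply]
    simp [fromBlocks_one]
  set T : Matrix (μ ⊕ μ) I F :=
    (fromBlocks 0 (-1) 1 0 : Matrix (μ ⊕ μ) (μ ⊕ μ) F) * (Sᵀ * E) with hT
  have h1 : T * S = (1 : Matrix (μ ⊕ μ) (μ ⊕ μ) F) := by
    rw [hT, Matrix.mul_assoc, hSS, hJ']
  have hcard : Fintype.card (μ ⊕ μ) = Fintype.card I := by
    rw [Fintype.card_sum, hc]
    ring
  exact ⟨S, T, (Matrix.mul_eq_one_comm_of_card_eq _ _ _ hcard).1 h1, h1, hSS⟩

end matrix

end Pool.Agent.Helper75.SH
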