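import Pool.Agent.Helper75.SH.K4
import Pool.Agent.Helper75.SH.Sy
import Pool.Agent.Helper94.SX.Xc

/-!
Block X of project ALLQ (MP_274814_nt): the symplectic coordinate system of `K^2` and the rational
matrices of the isometries.
-/

set_option autoImplicit false

open Module NumberField Matrix

namespace Pool.Agent.Helper75.SH

open Pool.Agent.Helper94.SH Pool.Agent.Helper94.SX Pool.Agent.Helper16.SH

noncomputable section

section emb

variable {K : Type*} [Field K] [NumberField K] {ι : Type} [Fintype ι]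

/-- all embeddings from one of each pair -/
theorem emb_bij (cj' : K →+* K) (s : ι → (K →+* ℂ))
    (hs : ∀ φ : K →+* ℂ, ∃ v, φ = s v ∨ φ = cc.comp (s v))
    (hcard : 2 * Fintype.card ι = finrank ℚ K) (hcj : ∀ v x, s v (cj' x) = cc (s v x)) :
    Function.Bijective (Sum.elim s (fun v => (s v).comp cj') : ι ⊕ ι → (K →+* ℂ)) := by
  rw [Fintype.bijective_iff_surjective_and_card]
  constructor
  · intro φ
    obtain ⟨v, h | h⟩ := hs φ
    · exact ⟨Sum.inl v, h.symm⟩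
    · refine ⟨Sum.inr v, ?_⟩
      rw [h, Sum.elim_inr]
      ext x
      simp [hcj]
  · rw [Fintype.card_sum, Embeddings.card K ℂ, ← hcard]
    ring

theorem emb_sum {F : Type*} [AddCommMonoid F] (cj' : K →+* K) (s : ι → (K →+* ℂ))
    (hs : ∀ φ : K →+* ℂ, ∃ v, φ = s v ∨ φ = cc.comp (s v))
    (hcard : 2 * Fintype.card ι = finrank ℚ K) (hcj : ∀ v x, s v (cj' x) = cc (s v x))
    (f : (K →+* ℂ) → F) : ∑ φ, f φ = ∑ v, (f (s v) + f ((s v).comp cj')) := by
  rw [← (emb_bij cj' s hs hcard hcj).sum_comp, Fintype.sum_sum_type, ← Finset.sum_add_distrib]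
  rfl

/-- both components at the places -/
def T0 (cj' : K →+* K) (s : ι → (K →+* ℂ)) : (I2 K → ℂ) →ₗ[ℂ] (ι → PC) where
  toFun w := fun v => (cd K w (s v), cd K w ((s v).comp cj'))
  map_add' x y := by
    ext v <;> simp
  map_smul' a x := by
    ext v <;> simp

theorem T0_bij (cj' : K →+* K) (s : ι → (K →+* ℂ))
    (hs : ∀ φ : K →+* ℂ, ∃ v, φ = s v ∨ φ = cc.comp (s v))
    (hcard : 2 * Fintype.card ι = finrank ℚ K) (hcj : ∀ v x, s v (cj' x) = cc (s v x)) :
    Function.Bijective (T0 cj' s) := by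
  have hb := emb_bij cj' s hs hcard hcj
  constructor
  · intro x y hxy
    apply cd_injective K
    funext φ
    obtain ⟨t, rfl⟩ := hb.2 φ
    rcases t with v | v
    · exact congrArg Prod.fst (congrFun hxy v)
    · exact congrArg Prod.snd (congrFun hxy v)
  · intro y
    set e := Equiv.ofBijective _ hb with he
    obtain ⟨w, hw⟩ := cd_surjective K (fun φ => Sum.elim (fun v => (y v).1) (fun v => (y v).2)
      (e.symm φ))
    refine ⟨w, ?_⟩
    funext v
    refine Prod.ext ?_ ?_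
    · change cd K w (s v) = (y v).1
      rw [hw]
      have : e.symm (s v) = Sum.inl v := by
        rw [Equiv.symm_apply_eq]
        rfl
      simp [this]
    · change cd K w ((s v).comp cj') = (y v).2
      rw [hw]
      have : e.symm ((s v).comp cj') = Sum.inr v := by
        rw [Equiv.symm_apply_eq]
        rfl
      simp [this]

theorem EC_EP (cj' : K →+* K) (s : ι → (K →+* ℂ))
    (hs : ∀ φ : K →+* ℂ, ∃ v, φ = s v ∨ φ = cc.comp (s v))
    (hcard : 2 * Fintype.card ι = finrank ℚ K) (hcj2 : ∀ x, cj' (cj' x) = x)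
    (hcj : ∀ v x, s v (cj' x) = cc (s v x)) {ξ κ : K} (hξ : cj' ξ = -ξ) (hκ : cj' κ = κ)
    (w w' : I2 K → ℂ) :
    EC cj' ξ κ w w' = EP (fun v => (s v ξ).im) (fun v => (s v κ).re) (T0 cj' s w)
      (T0 cj' s w') := by
  rw [EC_eq, emb_sum cj' s hs hcard hcj, EP]
  refine Finset.sum_congr rfl fun v _ => ?_
  have h1 : s v ξ = Complex.I * ((s v ξ).im : ℂ) := by
    have h2 : cc (s v ξ) = -(s v ξ) := by rw [← hcj, hξ, map_neg]
    have h3 : (s v ξ).re = 0 := by
      have := congrArg Complex.re h2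
      simp at this
      linarith
    apply Complex.ext
    · simp [h3]
    · simp
  have h4 : s v κ = ((s v κ).re : ℂ) := by
    have h1 : cc (s v κ) = s v κ := by rw [← hcj, hκ]
    exact (Complex.conj_eq_iff_re.mp h1).symm
  have h5 : ((s v).comp cj') ξ = -(s v ξ) := by
    rw [RingHom.comp_apply, hξ, map_neg]
  have h6 : ((s v).comp cj') κ = s v κ := by
    rw [RingHom.comp_apply, hκ]
  rw [comp_comp hcj2, h5, h6]
  simp only [e1, T0, LinearMap.coe_mk, AddHom.coe_mk]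
  rw [← h4]
  conv_lhs => rw [h1]
  ring

theorem cd_conj (cj' : K →+* K) (w : I2 K → ℂ) (φ : K →+* ℂ) (h : ∀ x, φ (cj' x) = cc (φ x)) :
    cd K (fun a => cc (w a)) φ =
      (cc (cd K w (φ.comp cj')).1, cc (cd K w (φ.comp cj')).2) := by
  rw [cd_apply, cd_apply]
  simp only [RingHom.comp_apply, h, map_sum, map_mul, Complex.conj_conj]

/-- complex matrix of a rational matrix -/
def cM {I J : Type*} (M : Matrix I J ℚ) : Matrix I J ℂ := M.map (fun x : ℚ => (x : ℂ))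

theorem cM_mul {I J L : Type*} [Fintype J] (M : Matrix I J ℚ) (N : Matrix J L ℚ) :
    cM (M * N) = cM M * cM N := by
  ext i j
  simp [cM, Matrix.mul_apply]

theorem cM_one {I : Type*} [DecidableEq I] : cM (1 : Matrix I I ℚ) = 1 := by
  ext i j
  by_cases h : i = j
  · subst h
    simp [cM]
  · simp [cM, h]

theorem cM_transpose {I J : Type*} (M : Matrix I J ℚ) : cM Mᵀ = (cM M)ᵀ := rfl

theorem cM_conj {I J : Type*} [Fintype J] (M : Matrix I J ℚ) (w : J → ℂ) :
    cM M *ᵥ (fun j => cc (w j)) = fun i => cc ((cM M *ᵥ w) i) := by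
  funext i
  simp [cM, Matrix.mulVec, dotProduct]

/-- a rational matrix has a denominator -/
theorem exists_den_matrix {I J : Type*} [Finite I] [Finite J] (M : Matrix I J ℚ) :
    ∃ (d : ℤ) (M' : Matrix I J ℤ), d ≠ 0 ∧ ∀ i j, ((M' i j : ℤ) : ℚ) = d * M i j := by
  have := Fintype.ofFinite I
  have := Fintype.ofFinite J
  classical
  set d : ℤ := ∏ p : I × J, ((M p.1 p.2).den : ℤ) with hd
  have hd0 : d ≠ 0 := by
    rw [hd, Finset.prod_ne_zero_iff]
    intro p _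
    exact_mod_cast (M p.1 p.2).den_nz
  have h : ∀ i j, ∃ n : ℤ, ((n : ℤ) : ℚ) = d * M i j := by
    intro i j
    obtain ⟨e, he⟩ : ((M i j).den : ℤ) ∣ d :=
      Finset.dvd_prod_of_mem (fun p : I × J => ((M p.1 p.2).den : ℤ)) (Finset.mem_univ (i, j))
    refine ⟨(M i j).num * e, ?_⟩
    have h2 : (M i j) * ((M i j).den : ℚ) = ((M i j).num : ℚ) := Rat.mul_den_eq_num _
    rw [he]
    push_cast
    rw [← h2]
    ring
  choose M' hM' using h
  exact ⟨d, Matrix.of M', hd0, hM'⟩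

/-- **Block X, arithmetic part.** -/
theorem exists_Coo [DecidableEq ι] (cj' : K →+* K) (s : ι → (K →+* ℂ))
    (hs : ∀ φ : K →+* ℂ, ∃ v, φ = s v ∨ φ = cc.comp (s v))
    (hcard : 2 * Fintype.card ι = finrank ℚ K) (hcj2 : ∀ x, cj' (cj' x) = x)
    (hcj : ∀ v x, s v (cj' x) = cc (s v x)) {ξ κ : K} (hξ : cj' ξ = -ξ) (hκ : cj' κ = κ)
    (hξ0 : ξ ≠ 0) (hκ0 : κ ≠ 0) :
    ∃ (T : (((ι × Fin 2) ⊕ (ι × Fin 2)) → ℂ) ≃ₗ[ℂ] (ι → PC))
      (R : Matrix (Fin 2) (Fin 2) K →
        Matrix ((ι × Fin 2) ⊕ (ι × Fin 2)) ((ι × Fin 2) ⊕ (ι × Fin 2)) ℚ)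
      (S : Matrix (I2 K) ((ι × Fin 2) ⊕ (ι × Fin 2)) ℚ)
      (S' : Matrix ((ι × Fin 2) ⊕ (ι × Fin 2)) (I2 K) ℚ),
      Coo (fun v => (s v ξ).im) (fun v => (s v κ).re) T ∧
      (∀ M w, T (mQ (R M) w) = AP (fun v => M.map (s v)) (T w)) ∧
      (∀ n : ℕ, 1 ≤ n → ∃ N : ℤ, N ≠ 0 ∧ ∀ b : K × K, (∃ a : 𝓞 K, b.1 - 1 = N * a) →
        (∃ a : 𝓞 K, b.2 = N * a) → (∃ a : 𝓞 K, κ * cj' b.2 = N * a) →
        ∃ M : Matrix ((ι × Fin 2) ⊕ (ι × Fin 2)) ((ι × Fin 2) ⊕ (ι × Fin 2)) ℤ,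
          ∀ i j, ((M i j : ℤ) : ℚ) = R (gam cj' κ b) i j ∧
            (n : ℤ) ∣ M i j - (1 : Matrix _ _ ℤ) i j) ∧
      S * S' = 1 ∧ S' * S = 1 ∧ (∀ w, T w = T0 cj' s (cM S *ᵥ w)) ∧
      (∀ M, R M = S' * RM M * S) ∧ Sᵀ * EK cj' ξ κ * S = fromBlocks 0 1 (-1) 0 := by
  classical
  obtain ⟨S, S', hSS', hS'S, hform⟩ := exists_symplectic (μ := ι × Fin 2) (EK cj' ξ κ)
    (EK_alt hcj2 hξ hκ) (EK_det hcj2 hξ0 hκ0) (by
      rw [Fintype.card_prod, Fintype.card_prod, Fintype.card_fin,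
        ← finrank_eq_card_basis (integralBasis K), ← hcard]
      ring)
  have hc1 : cM S * cM S' = 1 := by rw [← cM_mul, hSS', cM_one]
  have hc2 : cM S' * cM S = 1 := by rw [← cM_mul, hS'S, cM_one]
  set e1 : (((ι × Fin 2) ⊕ (ι × Fin 2)) → ℂ) ≃ₗ[ℂ] (I2 K → ℂ) :=
    { toFun := fun w => cM S *ᵥ w
      map_add' := fun x y => Matrix.mulVec_add _ x y
      map_smul' := fun a x => Matrix.mulVec_smul _ a x
      invFun := fun w => cM S' *ᵥ w
      left_inv := fun w => by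
        change cM S' *ᵥ (cM S *ᵥ w) = w
        rw [Matrix.mulVec_mulVec, hc2, Matrix.one_mulVec]
      right_inv := fun w => by
        change cM S *ᵥ (cM S' *ᵥ w) = w
        rw [Matrix.mulVec_mulVec, hc1, Matrix.one_mulVec] } with he1
  set T := e1.trans (LinearEquiv.ofBijective (T0 cj' s) (T0_bij cj' s hs hcard hcj)) with hT
  have hTw : ∀ w, T w = T0 cj' s (cM S *ᵥ w) := fun w => rfl
  refine ⟨T, fun M => S' * RM M * S, S, S', ⟨?_, ?_⟩, ?_, ?_, hSS', hS'S, hTw, fun _ => rfl, hform⟩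
  · intro w w'
    rw [hTw, hTw, ← EC_EP cj' s hs hcard hcj2 hcj hξ hκ]
    have h1 : EC cj' ξ κ (cM S *ᵥ w) (cM S *ᵥ w') =
        w ⬝ᵥ (cM (Sᵀ * EK cj' ξ κ * S) *ᵥ w') := by
      rw [EC, cM_mul, cM_mul, cM_transpose, ← Matrix.mulVec_mulVec, ← Matrix.mulVec_mulVec,
        Matrix.dotProduct_mulVec w, Matrix.vecMul_transpose]
      rfl
    rw [h1, hform, E0, dotProduct, Fintype.sum_sum_type, ← Finset.sum_add_distrib]
    refine Finset.sum_congr rfl fun i _ => ?_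
    have h2 : ∀ j, (cM (fromBlocks 0 1 (-1) 0 :
        Matrix ((ι × Fin 2) ⊕ (ι × Fin 2)) ((ι × Fin 2) ⊕ (ι × Fin 2)) ℚ) *ᵥ w') (Sum.inl j) =
        w' (Sum.inr j) := by
      intro j
      simp [cM, Matrix.mulVec, dotProduct, Fintype.sum_sum_type, Matrix.one_apply, apply_ite]
    have h3 : ∀ j, (cM (fromBlocks 0 1 (-1) 0 :
        Matrix ((ι × Fin 2) ⊕ (ι × Fin 2)) ((ι × Fin 2) ⊕ (ι × Fin 2)) ℚ) *ᵥ w') (Sum.inr j) =
        -w' (Sum.inl j) := by
      intro j
      simp [cM, Matrix.mulVec, dotProduct, Fintype.sum_sum_type, Matrix.one_apply, Matrix.neg_apply,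
        apply_ite]
    rw [h2, h3]
    ring
  · intro w
    rw [hTw]
    have h1 : cM S *ᵥ (Pool.Agent.Helper94.SX.cj w) = fun i => cc ((cM S *ᵥ w) i) := cM_conj S w
    rw [h1]
    funext v
    have h2 : ∀ x, ((s v).comp cj') (cj' x) = cc (((s v).comp cj') x) := by
      intro x
      rw [RingHom.comp_apply, RingHom.comp_apply, hcj v (cj' x)]
    have h3 := cd_conj cj' (cM S *ᵥ w) (s v) (hcj v)
    have h4 := cd_conj cj' (cM S *ᵥ w) ((s v).comp cj') h2
    rw [comp_comp hcj2] at h4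
    simp only [CP, c1, T0, LinearMap.coe_mk, AddHom.coe_mk, hTw]
    rw [h3, h4]
  · intro M w
    rw [hTw, hTw]
    have h1 : cM S *ᵥ (mQ (S' * RM M * S) w) = cM (RM M) *ᵥ (cM S *ᵥ w) := by
      have h2 : mQ (S' * RM M * S) w = cM (S' * RM M * S) *ᵥ w := rfl
      rw [h2, Matrix.mulVec_mulVec, Matrix.mulVec_mulVec, ← cM_mul, ← cM_mul, ← Matrix.mul_assoc,
        ← Matrix.mul_assoc, hSS', Matrix.one_mul]
    rw [h1]
    funext v
    have h3 := cd_RM M (cM S *ᵥ w) (s v)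
    have h4 := cd_RM M (cM S *ᵥ w) ((s v).comp cj')
    simp only [AP, a1, T0, LinearMap.coe_mk, AddHom.coe_mk]
    refine Prod.ext h3 ?_
    refine h4.trans ?_
    congr 1
    ext i j
    simp [Matrix.map_apply, hcj]
  · intro n hn
    obtain ⟨d, Sd, hd, hSd⟩ := exists_den_matrix S
    obtain ⟨d', Sd', hd', hSd'⟩ := exists_den_matrix S'
    refine ⟨n * d * d', mul_ne_zero (mul_ne_zero (by exact_mod_cast (by omega : n ≠ 0)) hd) hd', ?_⟩
    intro b hb1 hb2 hb3
    obtain ⟨M', hM'⟩ := RM_cong (gam cj' κ b) (n * d * d') (by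
      intro i j
      fin_cases i <;> fin_cases j
      · simpa using hb1
      · simpa using hb3
      · simpa using hb2
      · obtain ⟨a, ha⟩ := hb1
        obtain ⟨a', ha'⟩ : ∃ a' : 𝓞 K, (a' : K) = cj' (a : K) :=
          ⟨⟨cj' (a : K), map_isIntegral_int cj' a.2⟩, rfl⟩
        refine ⟨a', ?_⟩
        have h1 := congrArg cj' ha
        rw [map_sub, map_one, map_mul, map_intCast, ← ha'] at h1
        simpa using h1)
    refine ⟨1 + (n : ℤ) • (Sd' * M' * Sd), fun i j => ⟨?_, ?_⟩⟩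
    · have h1 : S' * RM (gam cj' κ b) * S = 1 + (n : ℚ) •
          (((d' : ℚ) • S') * M'.map (fun n => (n : ℚ)) * ((d : ℚ) • S)) := by
        rw [hM', Matrix.mul_add, Matrix.add_mul, Matrix.mul_one, hS'S]
        congr 1
        simp only [Matrix.mul_smul, Matrix.smul_mul, smul_smul]
        congr 1
        push_cast
        ring
      have h2 : ((d' : ℚ) • S') = Sd'.map (fun n => (n : ℚ)) := by
        ext i j
        simp [hSd']
      have h3 : ((d : ℚ) • S) = Sd.map (fun n => (n : ℚ)) := by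
        ext i j
        simp [hSd]
      change (((1 + (n : ℤ) • (Sd' * M' * Sd) : Matrix ((ι × Fin 2) ⊕ (ι × Fin 2))
        ((ι × Fin 2) ⊕ (ι × Fin 2)) ℤ) i j : ℤ) : ℚ) = (S' * RM (gam cj' κ b) * S) i j
      rw [h1, h2, h3]
      simp only [Matrix.add_apply, Matrix.smul_apply, Matrix.mul_apply, Matrix.map_apply,
        smul_eq_mul, Int.cast_add, Int.cast_mul, Int.cast_sum]
      congr 1
      by_cases hij : i = j
      · subst hij
        simp
      · simp [hij]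
    · refine ⟨(Sd' * M' * Sd) i j, ?_⟩
      rw [Matrix.add_apply, Matrix.smul_apply, smul_eq_mul]
      ring

end emb

end

end Pool.Agent.Helper75.SH
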