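import Pool.Agent.Helper75.SH.K6

/-!
Block X of project ALLQ (MP_274814_nt): the arithmetic input for the family, for the field of the
`q`-th roots of unity.
-/

set_option autoImplicit false

open Module NumberField Matrix

namespace Pool.Agent.Helper75.SH

open Pool.Agent.Helper94.SH Pool.Agent.Helper34.LT Pool.Agent.Helper34.LU Pool.Agent.Helper49.SH LTG
open Pool.Agent.Helper94.SX Pool.Agent.Helper16.SH

noncomputable section

/-- the complementary half system -/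
theorem HS_compl {q : ℕ} {s1 : Finset ℕ} (h : HS q s1) : HS q (UU q \ s1) := by
  refine ⟨h.three, fun u hu => ?_, fun u h1 h2 hc => ?_⟩
  · obtain ⟨⟨h1, h2⟩, hc⟩ := mem_UU.1 (Finset.mem_sdiff.1 hu).1
    exact ⟨h1, by have := h.three; omega, hc⟩
  · have hu : u ∈ UU q := mem_UU.2 ⟨⟨h1, by omega⟩, hc⟩
    have hc' : Nat.Coprime (q - u) q := (Nat.coprime_self_sub_left (by omega)).2 hc
    have hu' : q - u ∈ UU q := mem_UU.2 ⟨⟨by omega, by omega⟩, hc'⟩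
    rw [Finset.mem_sdiff, Finset.mem_sdiff]
    have h3 := h.half u h1 h2 hc
    tauto

/-- **The arithmetic input of the family.** -/
theorem exists_cyc (q : ℕ) (h3 : 3 ≤ q) (s1 : Finset ℕ) (hs1 : HS q s1) :
    ∃ (c : CyclotomicField q ℚ →+* CyclotomicField q ℚ)
      (s : ↥(UU q \ s1) → (CyclotomicField q ℚ →+* ℂ)) (ζ : CyclotomicField q ℚ),
      (∀ φ : CyclotomicField q ℚ →+* ℂ, ∃ v, φ = s v ∨ φ = cc.comp (s v)) ∧
      2 * Fintype.card ↥(UU q \ s1) = finrank ℚ (CyclotomicField q ℚ) ∧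
      (∀ x, c (c x) = x) ∧ (∀ v x, s v (c x) = cc (s v x)) ∧
      (∀ v : ↥(UU q \ s1), s v ζ = zt q ^ (v : ℕ)) ∧
      (∀ x : CyclotomicField q ℚ, ∃ P : Polynomial ℚ, x = Polynomial.aeval ζ P) ∧
      ∀ ξ κ : CyclotomicField q ℚ, c ξ = -ξ → c κ = κ → ξ ≠ 0 → κ ≠ 0 →
        ∃ (T : (((↥(UU q \ s1) × Fin 2) ⊕ (↥(UU q \ s1) × Fin 2)) → ℂ) ≃ₗ[ℂ]
            (↥(UU q \ s1) → PC))
          (R : Matrix (Fin 2) (Fin 2) (CyclotomicField q ℚ) →
            Matrix ((↥(UU q \ s1) × Fin 2) ⊕ (↥(UU q \ s1) × Fin 2))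
              ((↥(UU q \ s1) × Fin 2) ⊕ (↥(UU q \ s1) × Fin 2)) ℚ)
          (S : Iq q ⊕ Iq q → (↥(UU q \ s1) × Fin 2) ⊕ (↥(UU q \ s1) × Fin 2) → ℚ)
          (S' : (↥(UU q \ s1) × Fin 2) ⊕ (↥(UU q \ s1) × Fin 2) → Iq q ⊕ Iq q → ℚ),
          Coo (fun v => (s v ξ).im) (fun v => (s v κ).re) T ∧
          (∀ M w, T (mQ (R M) w) = AP (fun v => M.map (s v)) (T w)) ∧
          (∀ n : ℕ, 1 ≤ n → ∃ N : ℤ, N ≠ 0 ∧ ∀ b : CyclotomicField q ℚ × CyclotomicField q ℚ,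
            (∃ a : 𝓞 (CyclotomicField q ℚ), b.1 - 1 = N * a) →
            (∃ a : 𝓞 (CyclotomicField q ℚ), b.2 = N * a) →
            (∃ a : 𝓞 (CyclotomicField q ℚ), κ * c b.2 = N * a) →
            ∃ M : Matrix ((↥(UU q \ s1) × Fin 2) ⊕ (↥(UU q \ s1) × Fin 2))
              ((↥(UU q \ s1) × Fin 2) ⊕ (↥(UU q \ s1) × Fin 2)) ℤ,
              (∀ i j, ((M i j : ℤ) : ℚ) = R (gam c κ b) i j) ∧
              ∀ i j, (n : ℤ) ∣ M i j - (1 : Matrix _ _ ℤ) i j) ∧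
          (∀ w (v : ↥(UU q \ s1)), T w v =
            ((em q v (fun i => Pool.Agent.Helper49.SH.mv S w (Sum.inl i)),
              em q v (fun i => Pool.Agent.Helper49.SH.mv S w (Sum.inr i))),
             (em q (q - v) (fun i => Pool.Agent.Helper49.SH.mv S w (Sum.inl i)),
              em q (q - v) (fun i => Pool.Agent.Helper49.SH.mv S w (Sum.inr i))))) ∧
          (∀ w, Pool.Agent.Helper49.SH.mv S (Pool.Agent.Helper49.SH.mv S' w) = w) ∧
          (∀ w, Pool.Agent.Helper49.SH.mv S' (Pool.Agent.Helper49.SH.mv S w) = w) := by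
  have hne : NeZero q := ⟨by omega⟩
  have hs := HS_compl hs1
  have hU : ∀ v : ↥(UU q \ s1), (v : ℕ) ∈ UU q := fun v => (Finset.mem_sdiff.1 v.2).1
  have hc : ∀ v : ↥(UU q \ s1), Nat.Coprime (v : ℕ) q := fun v => (mem_UU.1 (hU v)).2
  refine ⟨cjq q, fun v => ph q v, zq q, half_hs q hs, half_card q hs, cjq_cjq q,
    fun v x => hom_cjq q _ x, fun v => ph_zq q (hc v), ?_, ?_⟩
  · intro x
    refine ⟨∑ i : Iq q, Polynomial.C ((pbq q).repr x i) * Polynomial.X ^ (i : ℕ), ?_⟩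
    conv_lhs => rw [← (pbq q).sum_repr x]
    rw [map_sum]
    refine Finset.sum_congr rfl fun i _ => ?_
    rw [map_mul, Polynomial.aeval_C, map_pow, Polynomial.aeval_X, pbq_apply, Algebra.smul_def]
  · intro ξ κ hξ hκ hξ0 hκ0
    obtain ⟨T, R, S, S', h1, h2, h4, h5, h6, h7, -, -⟩ := exists_Coo (cjq q)
      (fun v : ↥(UU q \ s1) => ph q v) (half_hs q hs) (half_card q hs) (cjq_cjq q)
      (fun v x => hom_cjq q _ x) hξ hκ hξ0 hκ0
    refine ⟨T, R, P1 q * S, S' * P1' q, h1, h2, ?_, ?_, ?_, ?_⟩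
    · intro n hn
      obtain ⟨N, hN, h⟩ := h4 n hn
      refine ⟨N, hN, fun b hb1 hb2 hb3 => ?_⟩
      obtain ⟨M, hM⟩ := h b hb1 hb2 hb3
      exact ⟨M, fun i j => (hM i j).1, fun i j => (hM i j).2⟩
    · intro w v
      rw [h7]
      have h8 : Pool.Agent.Helper49.SH.mv (P1 q * S) w = cM (P1 q) *ᵥ (cM S *ᵥ w) := by
        change cM (P1 q * S) *ᵥ w = _
        rw [cM_mul, Matrix.mulVec_mulVec]
      have h9 : Nat.Coprime (q - (v : ℕ)) q := by
        obtain ⟨⟨h10, h11⟩, h12⟩ := mem_UU.1 (hU v)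
        exact (Nat.coprime_self_sub_left (by omega)).2 h12
      rw [h8]
      simp only [T0, LinearMap.coe_mk, AddHom.coe_mk]
      rw [ph_comp q (hU v), cd_P1 q (hc v), cd_P1 q h9]
    · intro w
      have h8 : Pool.Agent.Helper49.SH.mv (P1 q * S) (Pool.Agent.Helper49.SH.mv (S' * P1' q) w) =
          cM ((P1 q * S) * (S' * P1' q)) *ᵥ w := by
        change cM (P1 q * S) *ᵥ (cM (S' * P1' q) *ᵥ w) = _
        rw [cM_mul (P1 q * S), Matrix.mulVec_mulVec]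
      rw [h8, Matrix.mul_assoc, ← Matrix.mul_assoc S, h5, Matrix.one_mul, P1_mul, cM_one,
        Matrix.one_mulVec]
    · intro w
      have h8 : Pool.Agent.Helper49.SH.mv (S' * P1' q) (Pool.Agent.Helper49.SH.mv (P1 q * S) w) =
          cM ((S' * P1' q) * (P1 q * S)) *ᵥ w := by
        change cM (S' * P1' q) *ᵥ (cM (P1 q * S) *ᵥ w) = _
        rw [cM_mul (S' * P1' q), Matrix.mulVec_mulVec]
      rw [h8, Matrix.mul_assoc, ← Matrix.mul_assoc (P1' q), P1'_mul, Matrix.one_mul, h6, cM_one,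
        Matrix.one_mulVec]

end

end Pool.Agent.Helper75.SH
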