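import Pool.Agent.Helper75.SH.K7
import Pool.Agent.Helper2.SH.Ka

/-!
Block X of project ALLQ (MP_274814_nt): signs of the form on the field of the `q`-th roots of unity and
the form in place coordinates.
-/

set_option autoImplicit false

open Module NumberField Matrix

namespace Pool.Agent.Helper75.SH

open Pool.Agent.Helper94.SH Pool.Agent.Helper34.LT Pool.Agent.Helper34.LU Pool.Agent.Helper49.SH LTG
open Pool.Agent.Helper94.SX Pool.Agent.Helper16.SH Pool.Agent.Helper2.SH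

noncomputable section

/-- the value of `ξ` at the embedding `u` -/
def xv (q : ℕ) (ξ : Polynomial ℚ) (u : ℕ) : ℂ := Polynomial.aeval (zt q ^ u) ξ

theorem zt_cc {q : ℕ} (hq : q ≠ 0) {u : ℕ} (hu : u ≤ q) : cc (zt q ^ u) = zt q ^ (q - u) := by
  have h := Pool.Agent.Helper2.SH.zt_conj hq (Nat.sub_le q u) 1
  rwa [Nat.sub_sub_self hu, mul_one, mul_one] at h

theorem xv_cc {q : ℕ} (hq : q ≠ 0) {u : ℕ} (hu : u ≤ q) (ξ : Polynomial ℚ) :
    cc (xv q ξ u) = xv q ξ (q - u) := by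
  have h := Polynomial.aeval_algHom_apply (RingHom.equivRatAlgHom ℂ ℂ cc) (zt q ^ u) ξ
  have h1 : (RingHom.equivRatAlgHom ℂ ℂ cc) (zt q ^ u) = zt q ^ (q - u) := zt_cc hq hu
  rw [h1] at h
  exact h.symm

/-- antisymmetry -/
theorem xv_anti {q : ℕ} (h3 : 3 ≤ q) {ξ : Polynomial ℚ} {E : Iq q → Iq q → ℚ}
    (hK : KForm q ξ E) (ha : ∀ i j, E i j = -E j i) {u : ℕ} (hu : u ∈ UU q) :
    xv q ξ (q - u) = -xv q ξ u := by
  have hu' := UU_neg hu
  have hqu : q - (q - u) = u := by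
    obtain ⟨⟨h1, h2⟩, -⟩ := mem_UU.1 hu
    omega
  obtain ⟨ε, hε⟩ := eps_exists (by omega : 2 ≤ q) u
  obtain ⟨ε', hε'⟩ := eps_exists (by omega : 2 ≤ q) (q - u)
  have h1 : ∀ (a b : Iq q → ℂ), Eb E a b = -Eb E b a := by
    intro a b
    simp only [Eb]
    rw [Finset.sum_comm, ← Finset.sum_neg_distrib]
    refine Finset.sum_congr rfl fun i _ => ?_
    rw [← Finset.sum_neg_distrib]
    refine Finset.sum_congr rfl fun j _ => ?_
    rw [ha j i]
    push_cast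
    ring
  have h2 : Eb E ε ε' = xv q ξ u := by
    rw [hK, Finset.sum_eq_single u]
    · rw [hε u hu, hε' (q - u) hu', if_pos rfl, if_pos rfl, mul_one, mul_one]
      rfl
    · intro v hv hvu
      rw [hε v hv, if_neg hvu, mul_zero, zero_mul]
    · intro h
      exact absurd hu h
  have h4 : Eb E ε' ε = xv q ξ (q - u) := by
    rw [hK, Finset.sum_eq_single (q - u)]
    · rw [hε' _ hu', hqu, hε u hu, if_pos rfl, if_pos rfl, mul_one, mul_one]
      rfl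
    · intro v hv hvu
      rw [hε' v hv, if_neg hvu, mul_zero, zero_mul]
    · intro h
      exact absurd hu' h
  rw [← h2, ← h4, h1]

theorem xv_re {q : ℕ} (h3 : 3 ≤ q) {ξ : Polynomial ℚ} {E : Iq q → Iq q → ℚ}
    (hK : KForm q ξ E) (ha : ∀ i j, E i j = -E j i) {u : ℕ} (hu : u ∈ UU q) :
    xv q ξ u = Complex.I * ((xv q ξ u).im : ℂ) := by
  obtain ⟨⟨h1, h2⟩, -⟩ := mem_UU.1 hu
  have h4 := xv_anti h3 hK ha hu
  rw [← xv_cc (by omega) (by omega : u ≤ q)] at h4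
  have h5 := congrArg Complex.re h4
  rw [Complex.conj_re, Complex.neg_re] at h5
  apply Complex.ext
  · simp
    linarith
  · simp

/-- positivity -/
theorem xv_pos {q : ℕ} {s : Finset ℕ} (hs : HS q s) {ξ : Polynomial ℚ} {E : Iq q → Iq q → ℚ}
    (hK : KForm q ξ E) (hP : Pol E (Ns q s)) {u : ℕ} (hu : u ∈ UU q) (hus : u ∉ s) :
    0 < (xv q ξ u).im := by
  have h3 := hs.three
  have hu' := UU_neg hu
  obtain ⟨⟨g1, g2⟩, -⟩ := mem_UU.1 hu
  have hqu : q - (q - u) = u := by omega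
  obtain ⟨ε, hε⟩ := eps_exists (by omega : 2 ≤ q) u
  have h1 : ε ∈ Ns q s := by
    intro v hv
    rw [hε v (HS_mem hs ⟨v, hv⟩), if_neg]
    rintro rfl
    exact hus hv
  have h2 : ε ≠ 0 := by
    rintro rfl
    have h := hε u hu
    rw [em_zero, if_pos rfl] at h
    exact zero_ne_one h
  have h4 := hP.pos ε h1 h2
  have h5 : Eb E ε (Pool.Agent.Helper49.SH.cj ε) = xv q ξ u := by
    rw [hK, Finset.sum_eq_single u]
    · rw [hε u hu, em_cj (by omega) (Nat.sub_le q u), hqu, hε u hu, if_pos rfl, map_one, mul_one,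
        mul_one]
      rfl
    · intro v hv hvu
      rw [hε v hv, if_neg hvu, mul_zero, zero_mul]
    · intro h
      exact absurd hu h
  rw [h5] at h4
  simpa using h4

theorem xv_neg {q : ℕ} {s : Finset ℕ} (hs : HS q s) {ξ : Polynomial ℚ} {E : Iq q → Iq q → ℚ}
    (hK : KForm q ξ E) (hP : Pol E (Ns q s)) {u : ℕ} (hus : u ∈ s) :
    (xv q ξ u).im < 0 := by
  have h3 := hs.three
  have hu : u ∈ UU q := HS_mem hs ⟨u, hus⟩
  obtain ⟨⟨g1, g2⟩, g3⟩ := mem_UU.1 hu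
  have h1 : q - u ∉ s := (hs.half u g1 (by omega) g3).1 hus
  have h2 := xv_pos hs hK hP (UU_neg hu) h1
  rw [xv_anti h3 hK hP.alt hu, Complex.neg_im] at h2
  linarith

theorem xv_ne {q : ℕ} {s : Finset ℕ} (hs : HS q s) {ξ : Polynomial ℚ} {E : Iq q → Iq q → ℚ}
    (hK : KForm q ξ E) (hP : Pol E (Ns q s)) {u : ℕ} (hu : u ∈ UU q) : xv q ξ u ≠ 0 := by
  intro h
  by_cases hus : u ∈ s
  · have h1 := xv_neg hs hK hP hus
    rw [h, Complex.zero_im] at h1
    exact lt_irrefl _ h1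
  · have h1 := xv_pos hs hK hP hu hus
    rw [h, Complex.zero_im] at h1
    exact lt_irrefl _ h1

/-- the value of `κ = - ξ2 / ξ1` -/
theorem kv_eq {q : ℕ} (h3 : 3 ≤ q) {ξ1 ξ2 : Polynomial ℚ} {E1 E2 : Iq q → Iq q → ℚ}
    (hK1 : KForm q ξ1 E1) (ha1 : ∀ i j, E1 i j = -E1 j i)
    (hK2 : KForm q ξ2 E2) (ha2 : ∀ i j, E2 i j = -E2 j i) {u : ℕ} (hu : u ∈ UU q) :
    -xv q ξ2 u / xv q ξ1 u = ((-(xv q ξ2 u).im / (xv q ξ1 u).im : ℝ) : ℂ) := by
  rw [xv_re h3 hK1 ha1 hu, xv_re h3 hK2 ha2 hu, ← mul_neg, mul_div_mul_left _ _ Complex.I_ne_zero]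
  push_cast
  simp

/-- the coordinates at the places -/
def tp (q : ℕ) (v : ℕ) (y : Iq q ⊕ Iq q → ℂ) : PC :=
  ((em q v (fun i => y (Sum.inl i)), em q v (fun i => y (Sum.inr i))),
    (em q (q - v) (fun i => y (Sum.inl i)), em q (q - v) (fun i => y (Sum.inr i))))

/-- sum over all embeddings -/
theorem sum_UU {q : ℕ} {s : Finset ℕ} (hs : HS q s) {F : Type*} [AddCommMonoid F] (f : ℕ → F) :
    ∑ u ∈ UU q, f u = ∑ v : ↥(UU q \ s), (f v + f (q - v)) := by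
  classical
  have hd : UU q = (UU q \ s) ∪ s := by
    rw [Finset.sdiff_union_of_subset]
    intro u hu
    exact HS_mem hs ⟨u, hu⟩
  have h1 : ∑ u ∈ s, f u = ∑ v ∈ UU q \ s, f (q - v) := by
    refine Finset.sum_bij' (fun u _ => q - u) (fun u _ => q - u) ?_ ?_ ?_ ?_ ?_
    · intro u hu
      obtain ⟨g1, g2, g3⟩ := hs.mem u hu
      exact Finset.mem_sdiff.2 ⟨HS_mem' hs ⟨u, hu⟩, (hs.half u g1 g2 g3).1 hu⟩
    · intro u hu
      obtain ⟨g1, g2⟩ := Finset.mem_sdiff.1 hu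
      obtain ⟨⟨g3, g4⟩, g5⟩ := mem_UU.1 g1
      have h3 := hs.three
      by_contra h
      exact g2 ((hs.half u g3 (by omega) g5).2 h)
    · intro u hu
      obtain ⟨g1, g2, g3⟩ := hs.mem u hu
      omega
    · intro u hu
      obtain ⟨g1, g2⟩ := Finset.mem_sdiff.1 hu
      obtain ⟨⟨g3, g4⟩, g5⟩ := mem_UU.1 g1
      omega
    · intro u hu
      obtain ⟨g1, g2, g3⟩ := hs.mem u hu
      congr 1
      omega
  rw [Finset.sum_add_distrib, Finset.sum_coe_sort (UU q \ s) f,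
    Finset.sum_coe_sort (UU q \ s) (fun v => f (q - v)), ← h1, ← Finset.sum_union Finset.sdiff_disjoint,
    ← hd]

/-- **The form in place coordinates.** -/
theorem form_tp {q : ℕ} {s1 s2 : Finset ℕ} (hs1 : HS q s1)
    {ξ1 ξ2 : Polynomial ℚ} {E1 E2 : Iq q → Iq q → ℚ}
    (hK1 : KForm q ξ1 E1) (hK2 : KForm q ξ2 E2) (hP1 : Pol E1 (Ns q s1)) (hP2 : Pol E2 (Ns q s2))
    (y y' : Iq q ⊕ Iq q → ℂ) :
    Eb (dsum E1 E2) y y' = EP (fun v : ↥(UU q \ s1) => (xv q ξ1 v).im)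
      (fun v : ↥(UU q \ s1) => -(xv q ξ2 v).im / (xv q ξ1 v).im)
      (fun v => tp q v y) (fun v => tp q v y') := by
  have h3 := hs1.three
  have h1 : Eb (dsum E1 E2) y y' = Eb E1 (fun i => y (Sum.inl i)) (fun i => y' (Sum.inl i)) +
      Eb E2 (fun i => y (Sum.inr i)) (fun i => y' (Sum.inr i)) := by
    simp only [Eb, Fintype.sum_sum_type, dsum]
    simp
  rw [h1, hK1, hK2, ← Finset.sum_add_distrib]
  change ∑ u ∈ UU q, (fun u => Polynomial.aeval (zt q ^ u) ξ1 * em q u (fun i => y (Sum.inl i)) *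
    em q (q - u) (fun i => y' (Sum.inl i)) + Polynomial.aeval (zt q ^ u) ξ2 *
      em q u (fun i => y (Sum.inr i)) * em q (q - u) (fun i => y' (Sum.inr i))) u = _
  rw [sum_UU hs1, EP]
  refine Finset.sum_congr rfl fun v _ => ?_
  obtain ⟨hv, hvs⟩ := Finset.mem_sdiff.1 v.2
  have hqv : q - (q - (v : ℕ)) = v := by
    obtain ⟨⟨g1, g2⟩, -⟩ := mem_UU.1 hv
    omega
  have hpos := xv_pos hs1 hK1 hP1 hv hvs
  have e1' := xv_re h3 hK1 hP1.alt hv
  have e2' := xv_re h3 hK2 hP2.alt hv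
  have f1' := xv_anti h3 hK1 hP1.alt hv
  have f2' := xv_anti h3 hK2 hP2.alt hv
  simp only [e1, tp, hqv]
  change xv q ξ1 v * _ * _ + xv q ξ2 v * _ * _ + (xv q ξ1 (q - v) * _ * _ + xv q ξ2 (q - v) * _ * _) = _
  rw [f1', f2']
  have hne : ((xv q ξ1 v).im : ℂ) ≠ 0 := by exact_mod_cast hpos.ne'
  generalize (xv q ξ1 v).im = a at *
  generalize (xv q ξ2 v).im = b at *
  rw [e1', e2']
  push_cast
  field_simp
  ring

end

end Pool.Agent.Helper75.SH
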