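import Pool.Agent.Helper75.SH.K9
import Pool.Agent.Helper2.SH.Kb

/-!
Block X of project ALLQ (MP_274814_nt): trace forms on the field of the `q`-th roots of unity and their
polarisations.
-/

set_option autoImplicit false

open Module NumberField Matrix

namespace Pool.Agent.Helper75.SH

open Pool.Agent.Helper94.SH Pool.Agent.Helper34.LT Pool.Agent.Helper34.LU Pool.Agent.Helper49.SH LTG
open Pool.Agent.Helper94.SX Pool.Agent.Helper16.SH Pool.Agent.Helper2.SH

noncomputable section

/-- the trace form of `ξ` -/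
def TE (q : ℕ) [NeZero q] (ξ : Polynomial ℚ) : Iq q → Iq q → ℚ := fun i j =>
  Algebra.trace ℚ (Kq q) (pK q ξ * (zq q ^ (i : ℕ) * cjq q (zq q) ^ (j : ℕ)))

theorem TE_form (q : ℕ) [NeZero q] (h3 : 3 ≤ q) (ξ : Polynomial ℚ) : KForm q ξ (TE q ξ) := by
  intro w w'
  have h1 : ∀ i j : Iq q, ((TE q ξ i j : ℚ) : ℂ) = ∑ u ∈ UU q,
      xv q ξ u * (zt q ^ (u * (i : ℕ)) * zt q ^ ((q - u) * (j : ℕ))) := by
    intro i j
    rw [TE, trace_sum, sum_emb q h3]
    refine Finset.sum_congr rfl fun u hu => ?_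
    obtain ⟨⟨g1, g2⟩, g3⟩ := mem_UU.1 hu
    rw [map_mul, map_mul, map_pow, map_pow, ph_pK' q g3, hom_cjq, ph_zq q g3,
      zt_cc (by omega) (by omega), ← pow_mul, ← pow_mul]
  simp only [Eb, h1, Pool.Agent.Helper49.SH.em, Finset.sum_mul, Finset.mul_sum]
  have h2 : ∀ i : Iq q, ∑ j : Iq q, ∑ u ∈ UU q,
      xv q ξ u * (zt q ^ (u * (i : ℕ)) * zt q ^ ((q - u) * (j : ℕ))) * w i * w' j =
      ∑ u ∈ UU q, ∑ j : Iq q,
      xv q ξ u * (zt q ^ (u * (i : ℕ)) * zt q ^ ((q - u) * (j : ℕ))) * w i * w' j :=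
    fun i => Finset.sum_comm
  simp only [h2]
  rw [Finset.sum_comm]
  refine Finset.sum_congr rfl fun u _ => ?_
  rw [Finset.sum_comm]
  refine Finset.sum_congr rfl fun j _ => Finset.sum_congr rfl fun i _ => ?_
  simp only [xv]
  ring

/-- polarisation from signs -/
theorem pol_of {q : ℕ} {t : Finset ℕ} (hs : HS q t) {ξ : Polynomial ℚ} {E : Iq q → Iq q → ℚ}
    (hK : KForm q ξ E) (hanti : ∀ u ∈ UU q, xv q ξ (q - u) = -xv q ξ u)
    (hpos : ∀ u ∈ UU q, u ∉ t → 0 < (xv q ξ u).im) : Pol E (Ns q t) := by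
  have h3 := hs.three
  have hre : ∀ u ∈ UU q, xv q ξ u = Complex.I * ((xv q ξ u).im : ℂ) := by
    intro u hu
    obtain ⟨⟨h1, h2⟩, -⟩ := mem_UU.1 hu
    have h4 := hanti u hu
    rw [← xv_cc (by omega) (by omega : u ≤ q)] at h4
    have h5 := congrArg Complex.re h4
    rw [Complex.conj_re, Complex.neg_re] at h5
    apply Complex.ext
    · simp
      linarith
    · simp
  have halt : ∀ w w', Eb E w w' = -Eb E w' w := by
    intro w w'
    rw [hK, hK, ← Finset.sum_neg_distrib]
    refine Finset.sum_bij' (fun u _ => q - u) (fun u _ => q - u) ?_ ?_ ?_ ?_ ?_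
    · intro u hu
      exact UU_neg hu
    · intro u hu
      exact UU_neg hu
    · intro u hu
      obtain ⟨⟨g1, g2⟩, -⟩ := mem_UU.1 hu
      omega
    · intro u hu
      obtain ⟨⟨g1, g2⟩, -⟩ := mem_UU.1 hu
      omega
    · intro u hu
      obtain ⟨⟨g1, g2⟩, -⟩ := mem_UU.1 hu
      have hqu : q - (q - u) = u := by omega
      rw [hqu]
      change xv q ξ u * _ * _ = -(xv q ξ (q - u) * _ * _)
      rw [hanti u hu]
      ring
  constructor
  · intro i j
    have h1 := halt (Pi.single i 1) (Pi.single j 1)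
    simp [Eb, Pi.single_apply] at h1
    exact_mod_cast h1
  · intro e he e' he'
    rw [hK]
    refine Finset.sum_eq_zero fun u hu => ?_
    obtain ⟨⟨g1, g2⟩, g3⟩ := mem_UU.1 hu
    by_cases h : u ∈ t
    · rw [he u h]
      ring
    · have h4 : q - u ∈ t := by
        by_contra h5
        exact h ((hs.half u g1 (by omega) g3).2 h5)
      rw [he' _ h4]
      ring
  · intro e he he0
    have h1 : ∀ u ∈ UU q, em q (q - u) (Pool.Agent.Helper49.SH.cj e) = cc (em q u e) := by
      intro u hu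
      obtain ⟨⟨g1, g2⟩, -⟩ := mem_UU.1 hu
      have hqu : q - (q - u) = u := by omega
      rw [em_cj (by omega) (Nat.sub_le q u), hqu]
    have h2 : (-(Complex.I * Eb E e (Pool.Agent.Helper49.SH.cj e))).re =
        ∑ u ∈ UU q, (xv q ξ u).im * ‖em q u e‖ ^ 2 := by
      rw [hK, Finset.mul_sum, ← Finset.sum_neg_distrib, Complex.re_sum]
      refine Finset.sum_congr rfl fun u hu => ?_
      rw [h1 u hu]
      change (-(Complex.I * (xv q ξ u * em q u e * cc (em q u e)))).re = _
      have h8 : -(Complex.I * (xv q ξ u * em q u e * cc (em q u e))) =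
          (((xv q ξ u).im * ‖em q u e‖ ^ 2 : ℝ) : ℂ) := by
        rw [mul_assoc (xv q ξ u), Complex.mul_conj, Complex.normSq_eq_norm_sq]
        conv_lhs => rw [hre u hu]
        push_cast
        linear_combination (-((xv q ξ u).im : ℂ) * (‖em q u e‖ : ℂ) ^ 2) * Complex.I_sq
      rw [h8, Complex.ofReal_re]
    rw [h2]
    have h5 : ∀ u ∈ UU q, 0 ≤ (xv q ξ u).im * ‖em q u e‖ ^ 2 := by
      intro u hu
      by_cases h : u ∈ t
      · rw [he u h, norm_zero]
        simp
      · exact mul_nonneg (hpos u hu h).le (sq_nonneg _)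
    have h6 : ∃ u ∈ UU q, em q u e ≠ 0 := by
      by_contra h7
      refine he0 (em_ext (by omega) fun u hu => ?_)
      by_contra h8
      exact h7 ⟨u, hu, h8⟩
    obtain ⟨u, hu, hue⟩ := h6
    refine Finset.sum_pos' h5 ⟨u, hu, ?_⟩
    have h7 : u ∉ t := fun h => hue (he u h)
    exact mul_pos (hpos u hu h7) (pow_pos (norm_pos_iff.2 hue) 2)
  · have h1 : 2 * t.card = q.totient := card_half2 hs
    have h2 : (UU q).card = q.totient := card_UU (by omega)
    have hsub : t ⊆ UU q := fun u hu => HS_mem hs ⟨u, hu⟩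
    have h4 : (UU q \ t).card = t.card := by
      rw [Finset.card_sdiff_of_subset hsub]
      omega
    set L : Ns q t →ₗ[ℂ] (↥(UU q \ t) → ℂ) := (emA q (UU q \ t)).comp (Ns q t).subtype with hL
    have hinj : Function.Injective L := by
      rw [injective_iff_map_eq_zero]
      intro w hw
      refine Subtype.ext (em_ext (by omega) fun u hu => ?_)
      by_cases h : u ∈ t
      · exact w.2 u h
      · exact congrFun hw ⟨u, Finset.mem_sdiff.2 ⟨hu, h⟩⟩
    have hsurj : Function.Surjective L := by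
      intro f
      obtain ⟨w, hw⟩ := em_exists (by omega : 2 ≤ q)
        (fun u => if h : u ∈ UU q \ t then f ⟨u, h⟩ else 0)
      refine ⟨⟨w, fun u hu => ?_⟩, ?_⟩
      · rw [hw u (hsub hu), dif_neg]
        intro h
        exact (Finset.mem_sdiff.1 h).2 hu
      · funext u
        change em q u w = f u
        rw [hw u (Finset.mem_sdiff.1 u.2).1, dif_pos u.2]
    have h5 := (LinearEquiv.ofBijective L ⟨hinj, hsurj⟩).finrank_eq
    rw [Module.finrank_fintype_fun_eq_card, Fintype.card_coe] at h5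
    rw [h5, Fintype.card_fin]
    omega

end

end Pool.Agent.Helper75.SH
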