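import Pool.Agent.Helper75.SH.X1
import Pool.Agent.Helper94.SX.Xf

/-!
Block X of project ALLQ (MP_274814_nt): the forms of the second splitting.
-/

set_option autoImplicit false

open Module NumberField Matrix

namespace Pool.Agent.Helper75.SH

open Pool.Agent.Helper94.SH Pool.Agent.Helper34.LT Pool.Agent.Helper34.LU Pool.Agent.Helper49.SH LTG
open Pool.Agent.Helper94.SX Pool.Agent.Helper16.SH Pool.Agent.Helper2.SH

noncomputable section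

variable {K : Type} [Field K] [NumberField K]

/-- the matrix with columns `(1, β)` and `(κ c β, 1)` -/
def bM (c : K →+* K) (κ β : K) : Matrix (Fin 2) (Fin 2) K := !![1, κ * c β; β, 1]

theorem bM_det (c : K →+* K) (κ β : K) : (bM c κ β).det = 1 - κ * β * c β := by
  rw [bM, Matrix.det_fin_two_of]
  ring

variable {q : ℕ} {s1 s2 : Finset ℕ} {ξ1 ξ2 : Polynomial ℚ} {c : K →+* K}
  {s : Pq q s1 → K →+* ℂ} {κ : K} {ζ : K} {a kr : Pq q s1 → ℝ}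
  {T : (MM (Pq q s1) → ℂ) ≃ₗ[ℂ] (Pq q s1 → PC)}
  {R : Matrix (Fin 2) (Fin 2) K → Matrix (MM (Pq q s1)) (MM (Pq q s1)) ℚ}
  {S : Iq q ⊕ Iq q → MM (Pq q s1) → ℚ} {S' : MM (Pq q s1) → Iq q ⊕ Iq q → ℚ}

theorem e1_bM {c : K →+* K} {σ : K →+* ℂ} (hcj : ∀ x, σ (c x) = cc (σ x)) {κ β : K} {k : ℝ}
    (hk : σ κ = (k : ℂ)) (a : ℝ) (u w : PC) :
    e1 a k (a1 ((bM c κ β).map σ) u) (a1 ((bM c κ β).map σ) w) =
      e1 (a * (1 - k * ‖σ β‖ ^ 2)) k u w := by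
  have hn : ((‖σ β‖ ^ 2 : ℝ) : ℂ) = σ β * cc (σ β) := by
    rw [Complex.mul_conj, Complex.normSq_eq_norm_sq]
  have hn' : ((‖σ β‖ : ℂ)) ^ 2 = σ β * cc (σ β) := by
    rw [← hn]
    push_cast
    ring
  simp only [e1, a1, Pool.Agent.Helper94.SH.act, bM, Matrix.map_apply, Matrix.of_apply,
    Matrix.cons_val', Matrix.cons_val_zero, Matrix.cons_val_one, Matrix.cons_val_fin_one,
    map_one, map_mul, hcj, hk, Complex.conj_conj, Complex.conj_ofReal, Complex.ofReal_mul,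
    Complex.ofReal_sub, Complex.ofReal_one, Complex.ofReal_pow, hn']
  ring

/-- **The forms of the second splitting.** -/
theorem xa_forms [NeZero q] (h : Cyc q s1 s2 ξ1 ξ2 c s κ ζ a kr T R S S')
    {E1 E2 : Iq q → Iq q → ℚ} (hk1 : KForm q ξ1 E1) (hk2 : KForm q ξ2 E2)
    {t1 t2 : Finset ℕ} (ht1 : HS q t1) (ht2 : HS q t2) (hint : s1 ∩ s2 = t1 ∩ t2)
    (huni : s1 ∪ s2 = t1 ∪ t2) (β : K)
    (hb : ∀ v : Pq q s1, ((v : ℕ) ∉ t1 → 0 < 1 - kr v * ‖s v β‖ ^ 2) ∧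
      ((v : ℕ) ∈ t1 → 1 - kr v * ‖s v β‖ ^ 2 < 0)) :
    ∃ (ξ3 ξ4 : Polynomial ℚ) (E3 E4 : Iq q → Iq q → ℚ), KForm q ξ3 E3 ∧ KForm q ξ4 E4 ∧
      Pol E3 (Ns q t1) ∧ Pol E4 (Ns q t2) ∧
      pb (dsum E1 E2) (QM R S S' (bM c κ β)) = dsum E3 E4 := by
  have h3 := h.hs1.three
  set ν : K := 1 - κ * β * c β with hν
  have hνv : ∀ v, s v ν = ((1 - kr v * ‖s v β‖ ^ 2 : ℝ) : ℂ) := by
    intro v
    rw [hν, map_sub, map_one, map_mul, map_mul, h.ari.hkr, h.ari.hcj]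
    push_cast
    rw [mul_assoc, Complex.mul_conj, Complex.normSq_eq_norm_sq]
    push_cast
    ring
  obtain ⟨ξ3, h3'⟩ := h.gen (Polynomial.aeval ζ ξ1 * ν)
  obtain ⟨ξ4, h4'⟩ := h.gen (Polynomial.aeval ζ ξ2 * ν)
  have v3 : ∀ v : Pq q s1, Polynomial.aeval (zt q ^ (v : ℕ)) ξ3 =
      Complex.I * ((a v * (1 - kr v * ‖s v β‖ ^ 2) : ℝ) : ℂ) := by
    intro v
    rw [h.val, ← h3', map_mul, h.x1, hνv]
    push_cast
    ring
  have v4 : ∀ v : Pq q s1, Polynomial.aeval (zt q ^ (v : ℕ)) ξ4 =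
      Complex.I * ((-(kr v * (a v * (1 - kr v * ‖s v β‖ ^ 2))) : ℝ) : ℂ) := by
    intro v
    rw [h.val, ← h4', map_mul, h.x2, map_mul, map_neg, h.ari.hkr, h.x1, hνv]
    push_cast
    ring
  -- values at all units
  have hanti : ∀ (ξ : Polynomial ℚ) (r : Pq q s1 → ℝ),
      (∀ v : Pq q s1, Polynomial.aeval (zt q ^ (v : ℕ)) ξ = Complex.I * (r v : ℂ)) →
      (∀ u ∈ UU q, xv q ξ (q - u) = -xv q ξ u) ∧ (∀ v : Pq q s1, (xv q ξ v).im = r v) ∧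
        ∀ v : Pq q s1, (xv q ξ (q - v)).im = -r v := by
    intro ξ r hr
    have g1 : ∀ v : Pq q s1, xv q ξ (q - v) = -xv q ξ v := by
      intro v
      obtain ⟨g3, g4, g5, g6, g7, g8⟩ := uu_bounds h3 (pq_mem v).1
      rw [← xv_cc (by omega) g4.le]
      simp only [xv, hr, map_mul, Complex.conj_I, Complex.conj_ofReal]
      ring
    have g2 : ∀ v : Pq q s1, (xv q ξ v).im = r v := by
      intro v
      rw [xv, hr]
      simp
    refine ⟨fun u hu => ?_, g2, fun v => ?_⟩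
    · rcases place_cases h.hs1 hu with ⟨v, hv⟩ | ⟨v, hv⟩
      · rw [hv]
        exact g1 v
      · obtain ⟨g3, g4, g5, g6, g7, g8⟩ := uu_bounds h3 (pq_mem v).1
        rw [hv, g7, g1, neg_neg]
    · rw [g1, Complex.neg_im, g2]
  obtain ⟨a3, i3, j3⟩ := hanti ξ3 _ v3
  obtain ⟨a4, i4, j4⟩ := hanti ξ4 _ v4
  have hun : ∀ u : ℕ, u ∈ s1 ∨ u ∈ s2 ↔ u ∈ t1 ∨ u ∈ t2 := by
    intro u
    rw [← Finset.mem_union, huni, Finset.mem_union]
  have hin : ∀ u : ℕ, u ∈ s1 ∧ u ∈ s2 ↔ u ∈ t1 ∧ u ∈ t2 := by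
    intro u
    rw [← Finset.mem_inter, hint, Finset.mem_inter]
  refine ⟨ξ3, ξ4, TE q ξ3, TE q ξ4, TE_form q h3 ξ3, TE_form q h3 ξ4,
    pol_of ht1 (TE_form q h3 ξ3) a3 ?_, pol_of ht2 (TE_form q h3 ξ4) a4 ?_, ?_⟩
  · intro u hu hut
    rcases place_cases h.hs1 hu with ⟨v, hv⟩ | ⟨v, hv⟩
    · rw [hv, i3]
      exact mul_pos (h.ari.ha v) ((hb v).1 (hv ▸ hut))
    · have g1 : (v : ℕ) ∈ t1 := (hs_iff ht1 (pq_mem v).1).2 (hv ▸ hut)
      rw [hv, j3, ← mul_neg]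
      exact mul_pos (h.ari.ha v) (neg_pos.2 ((hb v).2 g1))
  · intro u hu hut
    rcases place_cases h.hs1 hu with ⟨v, hv⟩ | ⟨v, hv⟩
    · have hv1 := (pq_mem v).2
      have hvt : (v : ℕ) ∉ t2 := hv ▸ hut
      rw [hv, i4]
      have e : -(kr v * (a v * (1 - kr v * ‖s v β‖ ^ 2))) =
        a v * (-(kr v * (1 - kr v * ‖s v β‖ ^ 2))) := by ring
      rw [e]
      refine mul_pos (h.ari.ha v) (neg_pos.2 ?_)
      have g1 := hun v
      by_cases hv2 : (v : ℕ) ∈ s2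
      · have g2 : (v : ℕ) ∈ t1 := by tauto
        exact mul_neg_of_pos_of_neg ((h.sgn v).1 hv2) ((hb v).2 g2)
      · have g2 : (v : ℕ) ∉ t1 := by tauto
        have g3 : ¬ 0 < kr v := fun g => hv2 ((h.sgn v).2 g)
        exact mul_neg_of_neg_of_pos (lt_of_le_of_ne (not_lt.1 g3) (h.ari.hk0 v)) ((hb v).1 g2)
    · have hv1 := (pq_mem v).2
      have hvt : (v : ℕ) ∈ t2 := (hs_iff ht2 (pq_mem v).1).2 (hv ▸ hut)
      rw [hv, j4, neg_neg]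
      have e : kr v * (a v * (1 - kr v * ‖s v β‖ ^ 2)) =
        a v * (kr v * (1 - kr v * ‖s v β‖ ^ 2)) := by ring
      rw [e]
      refine mul_pos (h.ari.ha v) ?_
      have g1 := hun v
      have g0 := hin v
      have hv2 : (v : ℕ) ∈ s2 := by tauto
      have g2 : (v : ℕ) ∉ t1 := by tauto
      exact mul_pos ((h.sgn v).1 hv2) ((hb v).1 g2)
  · refine Eb_inj' fun w w' => ?_
    rw [Eb_pb', h.form hk1 hk2, Eb_dsum, TE_form q h3 ξ3, TE_form q h3 ξ4,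
      kform_sum h.hs1 v3, kform_sum h.hs1 v4, EP, ← Finset.sum_add_distrib]
    refine Finset.sum_congr rfl fun v _ => ?_
    rw [h.tp_QM, h.tp_QM, e1_bM (h.ari.hcj v) (h.ari.hkr v)]
    simp only [e1, Pool.Agent.Helper94.SX.tp]
    push_cast
    ring

end

end Pool.Agent.Helper75.SH
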