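import Pool.Agent.Helper75.SH.X2

/-!
Block X of project ALLQ (MP_274814_nt): the second splitting at the fixed point.
-/

set_option autoImplicit false

open Module NumberField Matrix

namespace Pool.Agent.Helper75.SH

open Pool.Agent.Helper94.SH Pool.Agent.Helper34.LT Pool.Agent.Helper34.LU Pool.Agent.Helper49.SH LTG
open Pool.Agent.Helper94.SX Pool.Agent.Helper16.SH Pool.Agent.Helper2.SH

noncomputable section

variable {K : Type} [Field K] [NumberField K]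

/-- the splitting at one place -/
theorem n1_bM {c : K →+* K} {σ : K →+* ℂ} (hcj : ∀ x, σ (c x) = cc (σ x)) {κ β : K} {k : ℝ}
    (hk : σ κ = (k : ℂ)) (hk0 : k ≠ 0) (P Q : Prop)
    (hb : (¬ P → 0 < 1 - k * ‖σ β‖ ^ 2) ∧ (P → 1 - k * ‖σ β‖ ^ 2 < 0))
    (h1 : ¬ 0 < k → ¬ P ∧ ¬ Q) (h2 : 0 < k → (P ↔ ¬ Q)) (z : ℂ)
    (hz : 0 < k → z = fixz k (σ β)) (u : PC) :
    n1 k z (a1 ((bM c κ β).map σ) u) ↔
      (P → u.1.1 = 0) ∧ (¬ P → u.2.1 = 0) ∧ (Q → u.1.2 = 0) ∧ (¬ Q → u.2.2 = 0) := by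
  have hn : ((‖σ β‖ ^ 2 : ℝ) : ℂ) = σ β * cc (σ β) := by
    rw [Complex.mul_conj, Complex.normSq_eq_norm_sq]
  have hkC : (k : ℂ) ≠ 0 := by exact_mod_cast hk0
  have hD : (1 : ℂ) - k * (σ β * cc (σ β)) ≠ 0 := by
    rw [← hn]
    have h3 : 1 - k * ‖σ β‖ ^ 2 ≠ 0 := by
      by_cases hP : P
      · exact (hb.2 hP).ne
      · exact (hb.1 hP).ne'
    exact_mod_cast h3
  have e11 : (a1 ((bM c κ β).map σ) u).1.1 = u.1.1 + k * cc (σ β) * u.1.2 := by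
    simp [a1, Pool.Agent.Helper94.SH.act, bM, hcj, hk]
  have e12 : (a1 ((bM c κ β).map σ) u).1.2 = σ β * u.1.1 + u.1.2 := by
    simp [a1, Pool.Agent.Helper94.SH.act, bM]
  have e21 : (a1 ((bM c κ β).map σ) u).2.1 = u.2.1 + k * σ β * u.2.2 := by
    simp [a1, Pool.Agent.Helper94.SH.act, bM, hcj, hk]
  have e22 : (a1 ((bM c κ β).map σ) u).2.2 = cc (σ β) * u.2.1 + u.2.2 := by
    simp [a1, Pool.Agent.Helper94.SH.act, bM]
  unfold n1
  by_cases hk1 : 0 < k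
  · rw [e11, e12, e21, e22, hz hk1]
    by_cases hP : P
    · have hQ : ¬ Q := (h2 hk1).1 hP
      have hneg := hb.2 hP
      have hb0 : σ β ≠ 0 := by
        intro h0
        rw [h0, norm_zero] at hneg
        norm_num at hneg
      have hcb : cc (σ β) ≠ 0 := (map_ne_zero _).2 hb0
      have hfx : fixz k (σ β) = ((k : ℂ) * cc (σ β))⁻¹ := by
        rw [fixz, if_neg (not_lt.2 hneg.le)]
      rw [hfx]
      simp only [hP, hQ, hk1, not_true_eq_false, not_false_eq_true, forall_const,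
        IsEmpty.forall_iff, true_and, and_true]
      constructor
      · rintro ⟨g1, g2⟩
        constructor
        · have g3 : (1 - (k : ℂ) * (σ β * cc (σ β))) * u.1.1 = 0 := by
            field_simp at g1
            linear_combination -g1
          exact (mul_eq_zero.1 g3).resolve_left hD
        · have g3 : (1 - (k : ℂ) * (σ β * cc (σ β))) * u.2.2 = 0 := by
            field_simp at g2
            linear_combination -g2
          exact (mul_eq_zero.1 g3).resolve_left hD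
      · rintro ⟨g1, g2⟩
        rw [g1, g2]
        constructor
        · field_simp
          ring
        · field_simp
          ring
    · have hQ : Q := by
        by_contra hQ
        exact hP ((h2 hk1).2 hQ)
      have hfx : fixz k (σ β) = σ β := by rw [fixz, if_pos (hb.1 hP)]
      rw [hfx]
      simp only [hP, hQ, hk1, not_true_eq_false, not_false_eq_true, forall_const,
        IsEmpty.forall_iff, true_and, and_true]
      constructor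
      · rintro ⟨g1, g2⟩
        constructor
        · have g3 : (1 - (k : ℂ) * (σ β * cc (σ β))) * u.2.1 = 0 := by
            linear_combination g2
          exact (mul_eq_zero.1 g3).resolve_left hD
        · have g3 : (1 - (k : ℂ) * (σ β * cc (σ β))) * u.1.2 = 0 := by
            linear_combination g1
          exact (mul_eq_zero.1 g3).resolve_left hD
      · rintro ⟨g1, g2⟩
        rw [g1, g2]
        constructor
        · ring
        · ring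
  · obtain ⟨hP, hQ⟩ := h1 hk1
    simp only [hP, hQ, hk1, not_false_eq_true, forall_const, IsEmpty.forall_iff, true_and]
    constructor
    · intro g
      have g1 := congrArg Prod.fst g
      have g2 := congrArg Prod.snd g
      rw [e21] at g1
      rw [e22] at g2
      change _ = (0 : ℂ) at g1
      change _ = (0 : ℂ) at g2
      constructor
      · have g3 : (1 - (k : ℂ) * (σ β * cc (σ β))) * u.2.1 = 0 := by
          linear_combination g1 - (k : ℂ) * σ β * g2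
        exact (mul_eq_zero.1 g3).resolve_left hD
      · have g3 : (1 - (k : ℂ) * (σ β * cc (σ β))) * u.2.2 = 0 := by
          linear_combination g2 - cc (σ β) * g1
        exact (mul_eq_zero.1 g3).resolve_left hD
    · rintro ⟨g1, g2⟩
      refine Prod.ext ?_ ?_
      · rw [e21, g1, g2]
        simp
      · rw [e22, g1, g2]
        simp

variable {q : ℕ} {s1 s2 : Finset ℕ} {ξ1 ξ2 : Polynomial ℚ} {c : K →+* K}
  {s : Pq q s1 → K →+* ℂ} {κ : K} {ζ : K} {a kr : Pq q s1 → ℝ}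
  {T : (MM (Pq q s1) → ℂ) ≃ₗ[ℂ] (Pq q s1 → PC)}
  {R : Matrix (Fin 2) (Fin 2) K → Matrix (MM (Pq q s1)) (MM (Pq q s1)) ℚ}
  {S : Iq q ⊕ Iq q → MM (Pq q s1) → ℚ} {S' : MM (Pq q s1) → Iq q ⊕ Iq q → ℚ}

/-- membership in a product of planes, in place coordinates -/
theorem mem_np2 {t1 t2 : Finset ℕ} (hs1 : HS q s1) (ht1 : HS q t1) (ht2 : HS q t2)
    (y : Iq q ⊕ Iq q → ℂ) :
    y ∈ Np (Ns q t1) (Ns q t2) ↔ ∀ v : Pq q s1,
      ((v : ℕ) ∈ t1 → (Pool.Agent.Helper94.SX.tp q v y).1.1 = 0) ∧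
      (¬ (v : ℕ) ∈ t1 → (Pool.Agent.Helper94.SX.tp q v y).2.1 = 0) ∧
      ((v : ℕ) ∈ t2 → (Pool.Agent.Helper94.SX.tp q v y).1.2 = 0) ∧
      (¬ (v : ℕ) ∈ t2 → (Pool.Agent.Helper94.SX.tp q v y).2.2 = 0) := by
  constructor
  · rintro ⟨h1, h2⟩ v
    have g1 := hs_iff ht1 (pq_mem v).1
    have g2 := hs_iff ht2 (pq_mem v).1
    refine ⟨fun h => h1 _ h, fun h => h1 _ ?_, fun h => h2 _ h, fun h => h2 _ ?_⟩
    · by_contra h'
      exact h (g1.2 h')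
    · by_contra h'
      exact h (g2.2 h')
  · intro hy
    refine ⟨fun u hu => ?_, fun u hu => ?_⟩
    · rcases place_cases hs1 (hs_uu ht1 hu) with ⟨v, hv⟩ | ⟨v, hv⟩
      · rw [hv]
        exact (hy v).1 (hv ▸ hu)
      · rw [hv]
        refine (hy v).2.1 fun h => ?_
        exact (hs_iff ht1 (pq_mem v).1).1 h (hv ▸ hu)
    · rcases place_cases hs1 (hs_uu ht2 hu) with ⟨v, hv⟩ | ⟨v, hv⟩
      · rw [hv]
        exact (hy v).2.2.1 (hv ▸ hu)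
      · rw [hv]
        refine (hy v).2.2.2 fun h => ?_
        exact (hs_iff ht2 (pq_mem v).1).1 h (hv ▸ hu)

/-- **The second splitting at the fixed point.** -/
theorem xa_NZ (h : Cyc q s1 s2 ξ1 ξ2 c s κ ζ a kr T R S S')
    {t1 t2 : Finset ℕ} (ht1 : HS q t1) (ht2 : HS q t2) (hint : s1 ∩ s2 = t1 ∩ t2)
    (huni : s1 ∪ s2 = t1 ∪ t2) (β : K)
    (hb : ∀ v : Pq q s1, ((v : ℕ) ∉ t1 → 0 < 1 - kr v * ‖s v β‖ ^ 2) ∧
      ((v : ℕ) ∈ t1 → 1 - kr v * ‖s v β‖ ^ 2 < 0)) (w : Iq q ⊕ Iq q → ℂ) :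
    w ∈ Np (Ns q t1) (Ns q t2) ↔
      Pool.Agent.Helper49.SH.mv S' (Pool.Agent.Helper49.SH.mv (QM R S S' (bM c κ β)) w) ∈
        Pool.Agent.Helper96.SH.NZ (ZX T kr (xf s kr β)) := by
  have hb0 : ∀ v, 1 - kr v * ‖s v β‖ ^ 2 ≠ 0 := by
    intro v
    by_cases hv : (v : ℕ) ∈ t1
    · exact ((hb v).2 hv).ne
    · exact ((hb v).1 hv).ne'
  have hx : xf s kr β ∈ XX kr := fun v => fixz_mem v.2 (hb0 v)
  rw [mem_np2 h.hs1 ht1 ht2, mem_NX h.ari.ha h.ari.hk0 h.ari.coo hx]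
  refine forall_congr' fun v => ?_
  rw [h.coord, h.inv1, h.tp_QM]
  have hv1 := (pq_mem v).2
  have hun : (v : ℕ) ∈ s1 ∨ (v : ℕ) ∈ s2 ↔ (v : ℕ) ∈ t1 ∨ (v : ℕ) ∈ t2 := by
    rw [← Finset.mem_union, huni, Finset.mem_union]
  have hin : (v : ℕ) ∈ s1 ∧ (v : ℕ) ∈ s2 ↔ (v : ℕ) ∈ t1 ∧ (v : ℕ) ∈ t2 := by
    rw [← Finset.mem_inter, hint, Finset.mem_inter]
  symm
  refine n1_bM (h.ari.hcj v) (h.ari.hkr v) (h.ari.hk0 v) ((v : ℕ) ∈ t1) ((v : ℕ) ∈ t2) (hb v)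
    ?_ ?_ _ ?_ _
  · intro hk
    have g : (v : ℕ) ∉ s2 := fun g => hk ((h.sgn v).1 g)
    tauto
  · intro hk
    have g : (v : ℕ) ∈ s2 := (h.sgn v).2 hk
    tauto
  · intro hk
    rw [xt, dif_pos hk]
    rfl

/-- the matrix `bM` is invertible -/
theorem bM_inv (h : Cyc q s1 s2 ξ1 ξ2 c s κ ζ a kr T R S S') [Nonempty (Pq q s1)] (β : K)
    (hb0 : ∀ v : Pq q s1, 1 - kr v * ‖s v β‖ ^ 2 ≠ 0) : (bM c κ β).det ≠ 0 := by
  obtain ⟨v⟩ := ‹Nonempty (Pq q s1)›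
  intro h0
  rw [bM_det] at h0
  have h1 := congrArg (s v) h0
  rw [map_sub, map_one, map_mul, map_mul, h.ari.hkr, h.ari.hcj, map_zero, mul_assoc,
    Complex.mul_conj, Complex.normSq_eq_norm_sq] at h1
  exact hb0 v (by exact_mod_cast h1)

/-- **The field `xa`.** -/
theorem xa_full [NeZero q] [Nonempty (Pq q s1)] (h : Cyc q s1 s2 ξ1 ξ2 c s κ ζ a kr T R S S')
    {E1 E2 : Iq q → Iq q → ℚ} (hk1 : KForm q ξ1 E1) (hk2 : KForm q ξ2 E2)
    {t1 t2 : Finset ℕ} (ht1 : HS q t1) (ht2 : HS q t2) (hint : s1 ∩ s2 = t1 ∩ t2)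
    (huni : s1 ∪ s2 = t1 ∪ t2) (β : K)
    (hb : ∀ v : Pq q s1, ((v : ℕ) ∉ t1 → 0 < 1 - kr v * ‖s v β‖ ^ 2) ∧
      ((v : ℕ) ∈ t1 → 1 - kr v * ‖s v β‖ ^ 2 < 0)) :
    ∃ (M M' : Iq q ⊕ Iq q → Iq q ⊕ Iq q → ℚ) (ξ3 ξ4 : Polynomial ℚ)
      (E3 E4 : Iq q → Iq q → ℚ), Inv2 M M' ∧ AlgAct q M ∧ KForm q ξ3 E3 ∧ KForm q ξ4 E4 ∧
      Pol E3 (Ns q t1) ∧ Pol E4 (Ns q t2) ∧ pb (dsum E1 E2) M = dsum E3 E4 ∧
      ∀ w, w ∈ Np (Ns q t1) (Ns q t2) ↔ Pool.Agent.Helper49.SH.mv S'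
        (Pool.Agent.Helper49.SH.mv M w) ∈ Pool.Agent.Helper96.SH.NZ (ZX T kr (xf s kr β)) := by
  have hb0 : ∀ v, 1 - kr v * ‖s v β‖ ^ 2 ≠ 0 := by
    intro v
    by_cases hv : (v : ℕ) ∈ t1
    · exact ((hb v).2 hv).ne
    · exact ((hb v).1 hv).ne'
  have hdet := bM_inv h β hb0
  obtain ⟨ξ3, ξ4, E3, E4, g1, g2, g3, g4, g5⟩ := xa_forms h hk1 hk2 ht1 ht2 hint huni β hb
  exact ⟨QM R S S' (bM c κ β), QM R S S' (bM c κ β)⁻¹, ξ3, ξ4, E3, E4,
    h.QM_inv (Matrix.mul_nonsing_inv _ (isUnit_iff_ne_zero.2 hdet)), h.algAct hdet, g1, g2, g3, g4,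
    g5, xa_NZ h ht1 ht2 hint huni β hb⟩

/-- the choice of `β` -/
theorem exists_beta (h : Cyc q s1 s2 ξ1 ξ2 c s κ ζ a kr T R S S') [Nonempty (Pq q s1)]
    {t1 t2 : Finset ℕ} (huni : s1 ∪ s2 = t1 ∪ t2) :
    ∃ β : K, ∀ v : Pq q s1, ((v : ℕ) ∉ t1 → 0 < 1 - kr v * ‖s v β‖ ^ 2) ∧
      ((v : ℕ) ∈ t1 → 1 - kr v * ‖s v β‖ ^ 2 < 0) := by
  obtain ⟨β, hβ⟩ := exists_signs s (denseRange_K s h.ari.hs h.ari.hcard) kr
    (fun v : Pq q s1 => (v : ℕ) ∉ t1)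
  refine ⟨β, fun v => ⟨(hβ v).1, fun hv => (hβ v).2 (not_not.2 hv) ((h.sgn v).1 ?_)⟩⟩
  have hun : (v : ℕ) ∈ s1 ∨ (v : ℕ) ∈ s2 ↔ (v : ℕ) ∈ t1 ∨ (v : ℕ) ∈ t2 := by
    rw [← Finset.mem_union, huni, Finset.mem_union]
  have hv1 := (pq_mem v).2
  tauto

/-- the rotation -/
theorem rot_of (h : Cyc q s1 s2 ξ1 ξ2 c s κ ζ a kr T R S S') (β : K)
    (hb0 : ∀ v : Pq q s1, 1 - kr v * ‖s v β‖ ^ 2 ≠ 0) : Rot c s κ kr β ζ := by
  have h3 := h.hs1.three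
  refine ⟨fun v => ?_, fun v => ?_, hb0⟩
  · rw [h.zeta, norm_pow, (zt_prim (by omega : q ≠ 0)).norm'_eq_one (by omega), one_pow]
  · rw [h.zeta]
    obtain ⟨g1, g2, -⟩ := uu_bounds h3 (pq_mem v).1
    exact (zt_prim (by omega : q ≠ 0)).pow_ne_one_of_pos_of_lt (by omega) g2

end

end Pool.Agent.Helper75.SH
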